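import Pool.Agent.Helper613.Cub.Defs2

set_option autoImplicit false

open scoped Classical

noncomputable section

namespace Pool.Agent.Helper613.Cub

variable {V : Type} [Fintype V] {G : SimpleGraph V} {K : Subgroup (Equiv.Perm V)} {x y w : V} {g : Equiv.Perm V}

lemma nb3 (h : Cubic G) (v : V) :
    ∃ a b c, a ≠ b ∧ a ≠ c ∧ b ≠ c ∧ ∀ z, G.Adj v z ↔ z = a ∨ z = b ∨ z = c := by
  obtain ⟨a, b, c, hab, hac, hbc, hs⟩ := Set.ncard_eq_three.1 (h v)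
  refine ⟨a, b, c, hab, hac, hbc, fun z => ?_⟩
  have : z ∈ G.neighborSet v ↔ z ∈ ({a, b, c} : Set V) := by rw [hs]
  simpa using this

lemma third (h : Cubic G) {v a b : V} (ha : G.Adj v a) (hb : G.Adj v b) (hab : a ≠ b) :
    ∃ c, c ≠ a ∧ c ≠ b ∧ ∀ z, G.Adj v z ↔ z = a ∨ z = b ∨ z = c := by
  obtain ⟨p, q, r, h1, h2, h3, hz⟩ := nb3 h v
  have ha' := (hz a).1 ha
  have hb' := (hz b).1 hb
  rcases ha' with rfl | rfl | rfl <;> rcases hb' with rfl | rfl | rfl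
  · exact absurd rfl hab
  · exact ⟨r, h2.symm, h3.symm, fun z => by rw [hz]⟩
  · exact ⟨q, h1.symm, h3, fun z => by rw [hz]; tauto⟩
  · exact ⟨r, h3.symm, h2.symm, fun z => by rw [hz]; tauto⟩
  · exact absurd rfl hab
  · exact ⟨p, h1, h2, fun z => by rw [hz]; tauto⟩
  · exact ⟨q, h3, h1.symm, fun z => by rw [hz]; tauto⟩
  · exact ⟨p, h2, h1, fun z => by rw [hz]; tauto⟩
  · exact absurd rfl hab

lemma stb_le (K : Subgroup (Equiv.Perm V)) (y : V) : stb K y ≤ K := fun _ h => h.1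

lemma Fx_mono {K K' : Subgroup (Equiv.Perm V)} (h : K' ≤ K) : Fx K ⊆ Fx K' :=
  fun _ hv σ hσ => hv σ (h hσ)

lemma Rt_mono {K K' : Subgroup (Equiv.Perm V)} (h : K' ≤ K) : Rt G K ⊆ Rt G K' :=
  fun _ hv => ⟨Fx_mono h hv.1, hv.2.imp fun _ hw => ⟨Fx_mono h hw.1, hw.2⟩⟩

lemma fix_third (h : Cubic G) (hK : K ≤ AutS G) {v a b c : V} (hv : v ∈ Fx K) (ha : a ∈ Fx K)
    (hb : b ∈ Fx K) (hab : a ≠ b) (h1 : G.Adj v a) (h2 : G.Adj v b) (h3 : G.Adj v c) : c ∈ Fx K := by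
  obtain ⟨d, hda, hdb, hz⟩ := third h h1 h2 hab
  intro σ hσ
  have hadj : G.Adj v (σ c) := by
    have := ((hK hσ) v c).2 h3
    rwa [hv σ hσ] at this
  rcases (hz c).1 h3 with rfl | rfl | rfl
  · exact ha σ hσ
  · exact hb σ hσ
  · rcases (hz (σ c)).1 hadj with h' | h' | h'
    · exfalso; apply hda; apply σ.injective; rw [h', ha σ hσ]
    · exfalso; apply hdb; apply σ.injective; rw [h', hb σ hσ]
    · exact h'

lemma Uu_inv {σ : Equiv.Perm V} (hσ : σ ∈ K) (v : V) : σ v ∈ Uu G K ↔ v ∈ Uu G K := by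
  constructor
  · intro h hv
    apply h
    have : σ v = v := hv.1 σ hσ
    rw [this]; exact hv
  · intro h hv
    apply h
    have h1 : σ (σ v) = σ v := hv.1 σ hσ
    have h2 : σ v = v := σ.injective h1
    rwa [h2] at hv

/-- data at a boundary vertex `x` with neighbours `y, g y` (in `Uu`, exchanged by `g`) and `w` (in `Rt`) -/
structure Sw (G : SimpleGraph V) (K : Subgroup (Equiv.Perm V)) (x y : V) (g : Equiv.Perm V) (w : V) : Prop where
  ok : Ok G K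
  cub : Cubic G
  con : Conn3 G
  hx : x ∈ Rt G K
  hy : y ∈ Uu G K
  hg : g ∈ K
  gy : g y ≠ y
  ggy : g (g y) = y
  gyU : g y ∈ Uu G K
  wR : w ∈ Rt G K
  wy : w ≠ y
  wgy : w ≠ g y
  nb : ∀ z, G.Adj x z ↔ z = y ∨ z = g y ∨ z = w
  orb : ∀ σ ∈ K, σ y = y ∨ σ y = g y

end Pool.Agent.Helper613.Cub
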