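import Mathlib

set_option autoImplicit false

open scoped Classical

noncomputable section

namespace Pool.Agent.Helper613.Cub

variable {V : Type} [Fintype V]

/-- cubic: every vertex has exactly three neighbours -/
def Cubic (G : SimpleGraph V) : Prop := ∀ v, (G.neighborSet v).ncard = 3

/-- separation form of 3-connectedness -/
def Conn3 (G : SimpleGraph V) : Prop :=
  ∀ S C : Set V, S.ncard ≤ 2 → C.Nonempty → Disjoint C S →
    (∀ a ∈ C, ∀ b, G.Adj a b → b ∈ C ∪ S) → C ∪ S = Set.univ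

/-- the automorphism group, as a subgroup of the group of all permutations -/
def AutS (G : SimpleGraph V) : Subgroup (Equiv.Perm V) where
  carrier := {σ | ∀ u v, G.Adj (σ u) (σ v) ↔ G.Adj u v}
  mul_mem' := by
    intro a b ha hb u v
    simp only [Set.mem_setOf_eq] at ha hb
    rw [Equiv.Perm.mul_apply, Equiv.Perm.mul_apply, ha, hb]
  one_mem' := by intro u v; simp
  inv_mem' := by
    intro a ha u v
    simp only [Set.mem_setOf_eq] at ha
    rw [← ha (a⁻¹ u) (a⁻¹ v)]; simp

/-- vertices fixed by all elements of `K` -/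
def Fx (K : Subgroup (Equiv.Perm V)) : Set V := {v | ∀ σ ∈ K, σ v = v}

/-- fixed vertices which have a fixed neighbour -/
def Rt (G : SimpleGraph V) (K : Subgroup (Equiv.Perm V)) : Set V :=
  {v | v ∈ Fx K ∧ ∃ w ∈ Fx K, G.Adj v w}

/-- all other vertices -/
def Uu (G : SimpleGraph V) (K : Subgroup (Equiv.Perm V)) : Set V := (Rt G K)ᶜ

/-- boundary: elements of `Rt` with a neighbour in `Uu` -/
def Bd (G : SimpleGraph V) (K : Subgroup (Equiv.Perm V)) : Set V :=
  {x | x ∈ Rt G K ∧ ∃ u ∈ Uu G K, G.Adj x u}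

/-- interior: elements of `Rt` with no neighbour in `Uu` -/
def It (G : SimpleGraph V) (K : Subgroup (Equiv.Perm V)) : Set V :=
  {x | x ∈ Rt G K ∧ ∀ u, G.Adj x u → u ∈ Rt G K}

/-- the equivalence relation generated by adjacency inside `W` and by the action of `K` -/
def Rl (G : SimpleGraph V) (K : Subgroup (Equiv.Perm V)) (W : Set V) : V → V → Prop :=
  Relation.EqvGen (fun a b => (a ∈ W ∧ b ∈ W ∧ G.Adj a b) ∨ ∃ σ ∈ K, σ a = b)

/-- the class of `a` -/
def cl (G : SimpleGraph V) (K : Subgroup (Equiv.Perm V)) (W : Set V) (a : V) : Set V :=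
  {b | Rl G K W a b}

/-- the number of classes of `K` in `Uu G K` -/
def om (G : SimpleGraph V) (K : Subgroup (Equiv.Perm V)) : ℕ :=
  ((cl G K (Uu G K)) '' (Uu G K)).ncard

/-- `K` is the pointwise stabiliser (in the automorphism group) of the nonempty set `Rt G K` -/
structure Ok (G : SimpleGraph V) (K : Subgroup (Equiv.Perm V)) : Prop where
  le : K ≤ AutS G
  full : ∀ σ ∈ AutS G, (∀ v ∈ Rt G K, σ v = v) → σ ∈ K
  ne : (Rt G K).Nonempty

/-- stabiliser of `y` in `K` -/
def stb (K : Subgroup (Equiv.Perm V)) (y : V) : Subgroup (Equiv.Perm V) where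
  carrier := {σ | σ ∈ K ∧ σ y = y}
  mul_mem' := by
    rintro a b ⟨ha, ha'⟩ ⟨hb, hb'⟩
    exact ⟨K.mul_mem ha hb, by rw [Equiv.Perm.mul_apply, hb', ha']⟩
  one_mem' := ⟨K.one_mem, rfl⟩
  inv_mem' := by
    rintro a ⟨ha, ha'⟩
    exact ⟨K.inv_mem ha, by rw [Equiv.Perm.inv_eq_iff_eq, ha']⟩

/-- the class containing `y` -/
def OO (G : SimpleGraph V) (K : Subgroup (Equiv.Perm V)) (y : V) : Set V := cl G K (Uu G K) y

/-- new attached fixed vertices after fixing `y` -/
def NN (G : SimpleGraph V) (K : Subgroup (Equiv.Perm V)) (y : V) : Set V :=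
  Rt G (stb K y) \ Rt G K

/-- consumed boundary vertices -/
def Cn (G : SimpleGraph V) (K : Subgroup (Equiv.Perm V)) (y : V) : Set V :=
  {x | x ∈ Rt G K ∧ ∃ z ∈ NN G K y, G.Adj x z}

/-- new boundary vertices -/
def Bn (G : SimpleGraph V) (K : Subgroup (Equiv.Perm V)) (y : V) : Set V :=
  {z | z ∈ NN G K y ∧ ∃ u ∈ Uu G (stb K y), G.Adj z u}

/-- ordered adjacent pairs inside the new set -/
def eN (G : SimpleGraph V) (K : Subgroup (Equiv.Perm V)) (y : V) : ℕ :=
  {p : V × V | p.1 ∈ NN G K y ∧ p.2 ∈ NN G K y ∧ G.Adj p.1 p.2}.ncard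

/-- number of classes of `stb K y` inside the old class of `y` -/
def om' (G : SimpleGraph V) (K : Subgroup (Equiv.Perm V)) (y : V) : ℕ :=
  ((cl G (stb K y) (Uu G (stb K y))) '' (OO G K y ∩ Uu G (stb K y))).ncard

/-- number of mixed classes (action of `K`, adjacency in the new `Uu`) inside the old class of `y` -/
def omm (G : SimpleGraph V) (K : Subgroup (Equiv.Perm V)) (y : V) : ℕ :=
  ((cl G K (Uu G (stb K y))) '' (OO G K y ∩ Uu G (stb K y))).ncard

/-- no four-cycles -/
def No4 (G : SimpleGraph V) : Prop :=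
  ∀ a b c d, a ≠ b → c ≠ d → G.Adj a c → G.Adj a d → G.Adj b c → G.Adj b d → False

/-- no triangles -/
def No3 (G : SimpleGraph V) : Prop := ∀ a b c, G.Adj a b → G.Adj b c → G.Adj a c → False

/-- no six-cycles -/
def No6 (G : SimpleGraph V) : Prop :=
  ∀ a b c d e f, [a, b, c, d, e, f].Nodup → G.Adj a b → G.Adj b c → G.Adj c d → G.Adj d e →
    G.Adj e f → G.Adj f a → False

end Pool.Agent.Helper613.Cub
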