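import Pool.Agent.Helper613.Cub.Defs

set_option autoImplicit false

open scoped Classical

noncomputable section

namespace Pool.Agent.Helper613.Cub

variable {V : Type} [Fintype V]

/-- pointwise stabiliser of a set in the automorphism group -/
def FS (G : SimpleGraph V) (S : Set V) : Subgroup (Equiv.Perm V) where
  carrier := {σ | σ ∈ AutS G ∧ ∀ v ∈ S, σ v = v}
  mul_mem' := by
    rintro a b ⟨ha, ha'⟩ ⟨hb, hb'⟩
    exact ⟨(AutS G).mul_mem ha hb, fun v hv => by rw [Equiv.Perm.mul_apply, hb' v hv, ha' v hv]⟩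
  one_mem' := ⟨(AutS G).one_mem, fun _ _ => rfl⟩
  inv_mem' := by
    rintro a ⟨ha, ha'⟩
    exact ⟨(AutS G).inv_mem ha, fun v hv => by rw [Equiv.Perm.inv_eq_iff_eq, ha' v hv]⟩

/-- pointwise stabiliser of a vertex and all its neighbours -/
def Gm (G : SimpleGraph V) (v : V) : Subgroup (Equiv.Perm V) := FS G (insert v (G.neighborSet v))

/-- orbit of `v` under the full automorphism group -/
def orb (G : SimpleGraph V) (v : V) : Set V := {w | ∃ σ ∈ AutS G, σ v = w}

/-- the stabiliser of `v` is transitive on the neighbours of `v` -/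
def T3 (G : SimpleGraph V) (v : V) : Prop :=
  ∀ a b, G.Adj v a → G.Adj v b → ∃ σ ∈ AutS G, σ v = v ∧ σ a = b

/-- `p 0, ..., p i` is an `i`-arc -/
def Arc (G : SimpleGraph V) (i : ℕ) (p : ℕ → V) : Prop :=
  (∀ j, j < i → G.Adj (p j) (p (j + 1))) ∧ (∀ j, j + 2 ≤ i → p j ≠ p (j + 2))

/-- transitivity on `i`-arcs -/
def ATr (G : SimpleGraph V) (i : ℕ) : Prop :=
  ∀ p q : ℕ → V, Arc G i p → Arc G i q → ∃ σ ∈ AutS G, ∀ j, j ≤ i → σ (p j) = q j

/-- equality in the potential bound for graphs without four-cycles -/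
def Tight (G : SimpleGraph V) (K : Subgroup (Equiv.Perm V)) (s : ℕ) : Prop :=
  Nat.card K = 2 ^ s ∧ 4 * s + 2 * (Bd G K).ncard = (Uu G K).ncard + 4 * om G K

end Pool.Agent.Helper613.Cub
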