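import Pool.Agent.Helper613.Cub.Base

set_option autoImplicit false


open scoped Classical

noncomputable section

namespace Pool.Agent.Helper613.Cub

namespace k9no3


variable {V : Type} [Fintype V] {G : SimpleGraph V} {K : Subgroup (Equiv.Perm V)} {x y w : V} {g : Equiv.Perm V}
lemma no3_three (h : Cubic G) {v p q r : V} (hp : G.Adj v p) (hq : G.Adj v q) (hr : G.Adj v r)
    (hpq : p ≠ q) (hrp : r ≠ p) (hrq : r ≠ q) : ∀ t, G.Adj v t → t = p ∨ t = q ∨ t = r := by
  obtain ⟨c, hc1, hc2, hc⟩ := third h hp hq hpq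
  have hrc : r = c := by
    rcases (hc r).1 hr with h1 | h1 | h1
    · exact absurd h1 hrp
    · exact absurd h1 hrq
    · exact h1
  intro t ht
  rw [hrc]
  exact (hc t).1 ht

lemma no3_ext {v y z w : V} (hT : T3 G v) (hnb : ∀ u, G.Adj v u ↔ u = y ∨ u = z ∨ u = w)
    (hyz : y ≠ z) (hwy : w ≠ y) (hwz : w ≠ z) (a1 : G.Adj y z) (a2 : G.Adj y w) : G.Adj z w := by
  obtain ⟨σ, hσ, hσv, hσy⟩ := hT y z ((hnb y).2 (Or.inl rfl)) ((hnb z).2 (Or.inr (Or.inl rfl)))
  have hz : G.Adj v (σ z) := by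
    rw [← hσv]; exact (hσ v z).2 ((hnb z).2 (Or.inr (Or.inl rfl)))
  have hw : G.Adj v (σ w) := by
    rw [← hσv]; exact (hσ v w).2 ((hnb w).2 (Or.inr (Or.inr rfl)))
  have b1 : G.Adj z (σ z) := by
    have := (hσ y z).2 a1; rwa [hσy] at this
  have b2 : G.Adj z (σ w) := by
    have := (hσ y w).2 a2; rwa [hσy] at this
  have hne : σ z ≠ σ w := fun h => hwz (σ.injective h).symm
  rcases (hnb (σ z)).1 hz with h1 | h1 | h1
  · rcases (hnb (σ w)).1 hw with h2 | h2 | h2
    · exact absurd (h1.trans h2.symm) hne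
    · rw [h2] at b2; exact absurd b2 (G.loopless.irrefl z)
    · rwa [h2] at b2
  · rw [h1] at b1; exact absurd b1 (G.loopless.irrefl z)
  · rwa [h1] at b1

lemma no3 (hc : Cubic G) (h3 : Conn3 G) (hn : 16 ≤ Fintype.card V) (hT : ∀ v, T3 G v) : No3 G := by
  intro x y z hxy hyz hxz
  have hyz' : y ≠ z := hyz.ne
  obtain ⟨w, hwy, hwz, hnb⟩ := third hc hxy hxz hyz'
  have hxw : G.Adj x w := (hnb w).2 (Or.inr (Or.inr rfl))
  have hnb' : ∀ u, G.Adj x u ↔ u = z ∨ u = y ∨ u = w := fun u => by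
    rw [hnb u]; tauto
  have hK : G.Adj y w ∧ G.Adj z w := by
    obtain ⟨σ, hσ, hσx, hσy⟩ := hT x y w hxy hxw
    have b1 : G.Adj x (σ z) := by
      have := (hσ x z).2 hxz; rwa [hσx] at this
    have b2 : G.Adj w (σ z) := by
      have := (hσ y z).2 hyz; rwa [hσy] at this
    rcases (hnb (σ z)).1 b1 with h1 | h1 | h1
    · rw [h1] at b2
      exact ⟨b2.symm, no3_ext (hT x) hnb hyz' hwy hwz hyz b2.symm⟩
    · rw [h1] at b2
      exact ⟨no3_ext (hT x) hnb' hyz'.symm hwz hwy hyz.symm b2.symm, b2.symm⟩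
    · rw [h1] at b2
      exact absurd b2 (G.loopless.irrefl w)
  obtain ⟨hyw, hzw⟩ := hK
  have hcl := h3 ∅ {x, y, z, w} (by simp) ⟨x, by simp⟩ (by simp) (by
    intro a ha b hab
    rw [Set.union_empty]
    simp only [Set.mem_insert_iff, Set.mem_singleton_iff] at ha ⊢
    rcases ha with rfl | rfl | rfl | rfl
    · rcases (hnb b).1 hab with h | h | h <;> tauto
    · rcases no3_three hc hxy.symm hyz hyw hxz.ne hxw.ne.symm hzw.ne.symm b hab with h | h | h <;>
        tauto
    · rcases no3_three hc hxz.symm hyz.symm hzw hxy.ne hxw.ne.symm hyw.ne.symm b hab with h | h | h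
        <;> tauto
    · rcases no3_three hc hxw.symm hyw.symm hzw.symm hxy.ne hxz.ne.symm hyz.ne.symm b hab with
        h | h | h <;> tauto)
  rw [Set.union_empty] at hcl
  have h4 : (Set.univ : Set V).ncard ≤ 4 := by
    rw [← hcl]
    refine (Set.ncard_insert_le _ _).trans ?_
    refine (Nat.add_le_add_right ((Set.ncard_insert_le _ _).trans
      (Nat.add_le_add_right (Set.ncard_insert_le _ _) 1)) 1).trans ?_
    rw [Set.ncard_singleton]
  rw [Set.ncard_univ, Nat.card_eq_fintype_card] at h4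
  omega

end k9no3

end Pool.Agent.Helper613.Cub
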