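import Pool.Agent.Helper613.Cub.Base
import Pool.Agent.Helper613.Cub.k9no3

set_option autoImplicit false


open scoped Classical

noncomputable section

namespace Pool.Agent.Helper613.Cub

namespace k10no4

open k9no3

variable {V : Type} [Fintype V] {G : SimpleGraph V} {K : Subgroup (Equiv.Perm V)} {x y w : V} {g : Equiv.Perm V}
/-- all pairs of neighbours of `v` have a common neighbour other than `v` -/
def Full (G : SimpleGraph V) (v : V) : Prop :=
  ∀ p q, G.Adj v p → G.Adj v q → p ≠ q → ∃ z, z ≠ v ∧ G.Adj p z ∧ G.Adj q z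

lemma full_of (hc : Cubic G) {v a b w : V} (hT : T3 G v) (va : G.Adj v a) (vb : G.Adj v b)
    (hab : a ≠ b) (hw : w ≠ v) (aw : G.Adj a w) (bw : G.Adj b w) : Full G v := by
  obtain ⟨c, hca, hcb, hN⟩ := third hc va vb hab
  have hm : ∃ m, G.Adj v m ∧ ∀ q, G.Adj v q → q ≠ m → ∃ z, z ≠ v ∧ G.Adj m z ∧ G.Adj q z := by
    obtain ⟨σ, hσ, hσv, hσa⟩ := hT a c va ((hN c).2 (Or.inr (Or.inr rfl)))
    have h1 : G.Adj v (σ b) := by
      have := (hσ v b).2 vb
      rwa [hσv] at this
    have h2 : σ b ≠ c := by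
      intro h
      rw [← hσa] at h
      exact hab (σ.injective h).symm
    have h3 : σ w ≠ v := by
      intro h
      rw [← hσv] at h
      exact hw (σ.injective h)
    have h4 : G.Adj c (σ w) := by
      have := (hσ a w).2 aw
      rwa [hσa] at this
    have h5 : G.Adj (σ b) (σ w) := (hσ b w).2 bw
    rcases (hN (σ b)).1 h1 with h6 | h6 | h6
    · refine ⟨a, va, ?_⟩
      intro q hq hqa
      rcases (hN q).1 hq with h7 | h7 | h7
      · exact absurd h7 hqa
      · rw [h7]; exact ⟨w, hw, aw, bw⟩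
      · rw [h7]; rw [h6] at h5; exact ⟨σ w, h3, h5, h4⟩
    · refine ⟨b, vb, ?_⟩
      intro q hq hqb
      rcases (hN q).1 hq with h7 | h7 | h7
      · rw [h7]; exact ⟨w, hw, bw, aw⟩
      · exact absurd h7 hqb
      · rw [h7]; rw [h6] at h5; exact ⟨σ w, h3, h5, h4⟩
    · exact absurd h6 h2
  obtain ⟨m, hvm, hm⟩ := hm
  intro p q hp hq hpq
  obtain ⟨σ, hσ, hσv, hσm⟩ := hT m p hvm hp
  have e : σ (σ.symm q) = q := σ.apply_symm_apply q
  have h1 : G.Adj v (σ.symm q) := by
    rw [← hσ, hσv, e]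
    exact hq
  have h2 : σ.symm q ≠ m := by
    intro h
    rw [h, hσm] at e
    exact hpq e
  obtain ⟨z, hz, h3, h4⟩ := hm _ h1 h2
  refine ⟨σ z, ?_, ?_, ?_⟩
  · intro h
    rw [← hσv] at h
    exact hz (σ.injective h)
  · have := (hσ m z).2 h3
    rwa [hσm] at this
  · have := (hσ (σ.symm q) z).2 h4
    rwa [e] at this

lemma full_adj (hc : Cubic G) {v a : V} (hT : T3 G a) (hv : Full G v) (va : G.Adj v a) :
    Full G a := by
  obtain ⟨x, y, z, hxy, hxz, hyz, hN⟩ := nb3 hc v
  have hp : ∃ p, G.Adj v p ∧ p ≠ a := by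
    by_cases h : x = a
    · exact ⟨y, (hN y).2 (Or.inr (Or.inl rfl)), fun h' => hxy (h.trans h'.symm)⟩
    · exact ⟨x, (hN x).2 (Or.inl rfl), h⟩
  obtain ⟨p, hvp, hpa⟩ := hp
  obtain ⟨u, hu, h1, h2⟩ := hv a p va hvp hpa.symm
  exact full_of hc hT va.symm h1 hu.symm hpa hvp h2.symm

lemma nb_of3 (hc : Cubic G) {p a b c : V} (pa : G.Adj p a) (pb : G.Adj p b) (pc : G.Adj p c)
    (hab : a ≠ b) (hac : a ≠ c) (hbc : b ≠ c) :
    ∀ z, G.Adj p z ↔ z = a ∨ z = b ∨ z = c := by
  obtain ⟨d, hda, hdb, hN⟩ := third hc pa pb hab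
  rcases (hN c).1 pc with h | h | h
  · exact absurd h.symm hac
  · exact absurd h.symm hbc
  · rw [h]; exact hN

lemma closed_small (h3 : Conn3 G) (hn : 16 ≤ Fintype.card V) (L : List V) (hL : L.length ≤ 8)
    (hne : L ≠ []) (hcl : ∀ x ∈ L, ∀ y, G.Adj x y → y ∈ L) : False := by
  have h := h3 ∅ {x | x ∈ L} (by simp) (by
    obtain ⟨x, hx⟩ := List.exists_mem_of_ne_nil L hne
    exact ⟨x, hx⟩) (by simp) (by
    intro x hx y hy
    exact Or.inl (hcl x hx y hy))
  have h1 : (Finset.univ : Finset V) ⊆ L.toFinset := by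
    intro x _
    have : x ∈ {x | x ∈ L} ∪ (∅ : Set V) := by rw [h]; trivial
    rw [Set.union_empty] at this
    exact List.mem_toFinset.2 this
  have h2 := Finset.card_le_card h1
  have h4 := L.toFinset_card_le
  rw [Finset.card_univ] at h2
  omega

lemma k33 (hc : Cubic G) (h3 : Conn3 G) (hn : 16 ≤ Fintype.card V) {v a b c p q : V}
    (hab : a ≠ b) (hac : a ≠ c) (hbc : b ≠ c)
    (hv : ∀ z, G.Adj v z ↔ z = a ∨ z = b ∨ z = c) (hpq : p ≠ q)
    (ha : ∀ z, G.Adj a z ↔ z = v ∨ z = p ∨ z = q)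
    (hb : ∀ z, G.Adj b z ↔ z = v ∨ z = p ∨ z = q) (hf : Full G c) : False := by
  have vc : G.Adj v c := (hv c).2 (Or.inr (Or.inr rfl))
  have key : ∀ r, G.Adj c r → r ≠ v → r = p ∨ r = q := by
    intro r hr hrv
    obtain ⟨y, hy, h1, h2⟩ := hf v r vc.symm hr hrv.symm
    rcases (hv y).1 h1 with h | h | h
    · rw [h] at h2
      rcases (ha r).1 h2.symm with h' | h' | h'
      · exact absurd h' hrv
      · exact Or.inl h'
      · exact Or.inr h'
    · rw [h] at h2
      rcases (hb r).1 h2.symm with h' | h' | h'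
      · exact absurd h' hrv
      · exact Or.inl h'
      · exact Or.inr h'
    · exact absurd h hy
  obtain ⟨x, y, z, hxy, hxz, hyz, hN⟩ := nb3 hc c
  have hx := (hN x).2 (Or.inl rfl)
  have hy := (hN y).2 (Or.inr (Or.inl rfl))
  have hz := (hN z).2 (Or.inr (Or.inr rfl))
  have hcp : G.Adj c p ∧ G.Adj c q := by
    have kx := key x hx
    have ky := key y hy
    have kz := key z hz
    by_cases h1 : x = v
    · have ky' := ky (fun h => hxy (h1.trans h.symm))
      have kz' := kz (fun h => hxz (h1.trans h.symm))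
      rcases ky' with h | h <;> rcases kz' with h' | h'
      · exact absurd (h.trans h'.symm) hyz
      · exact ⟨h ▸ hy, h' ▸ hz⟩
      · exact ⟨h' ▸ hz, h ▸ hy⟩
      · exact absurd (h.trans h'.symm) hyz
    · rcases kx h1 with h | h
      · refine ⟨h ▸ hx, ?_⟩
        by_cases h2 : y = v
        · rcases kz (fun h' => hyz (h2.trans h'.symm)) with h' | h'
          · exact absurd (h.trans h'.symm) hxz
          · exact h' ▸ hz
        · rcases ky h2 with h' | h'
          · exact absurd (h.trans h'.symm) hxy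
          · exact h' ▸ hy
      · refine ⟨?_, h ▸ hx⟩
        by_cases h2 : y = v
        · rcases kz (fun h' => hyz (h2.trans h'.symm)) with h' | h'
          · exact h' ▸ hz
          · exact absurd (h.trans h'.symm) hxz
        · rcases ky h2 with h' | h'
          · exact h' ▸ hy
          · exact absurd (h.trans h'.symm) hxy
  have ap : G.Adj a p := (ha p).2 (Or.inr (Or.inl rfl))
  have aq : G.Adj a q := (ha q).2 (Or.inr (Or.inr rfl))
  have bp : G.Adj b p := (hb p).2 (Or.inr (Or.inl rfl))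
  have bq : G.Adj b q := (hb q).2 (Or.inr (Or.inr rfl))
  have hp := nb_of3 hc ap.symm bp.symm hcp.1.symm hab hac hbc
  have hq := nb_of3 hc aq.symm bq.symm hcp.2.symm hab hac hbc
  refine closed_small h3 hn [v, a, b, c, p, q] (by simp) (by simp) ?_
  intro x hx y hxy
  simp only [List.mem_cons, List.not_mem_nil, or_false] at hx ⊢
  rcases hx with rfl | rfl | rfl | rfl | rfl | rfl
  · rcases (hv y).1 hxy with h | h | h <;> simp [h]
  · rcases (ha y).1 hxy with h | h | h <;> simp [h]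
  · rcases (hb y).1 hxy with h | h | h <;> simp [h]
  · by_cases h : y = v
    · simp [h]
    · rcases key y hxy h with h | h <;> simp [h]
  · rcases (hp y).1 hxy with h | h | h <;> simp [h]
  · rcases (hq y).1 hxy with h | h | h <;> simp [h]

lemma cube (hc : Cubic G) (h3 : Conn3 G) (hn : 16 ≤ Fintype.card V) {v a b c w q z : V}
    (hab : a ≠ b) (hac : a ≠ c) (hbc : b ≠ c)
    (hv : ∀ z, G.Adj v z ↔ z = a ∨ z = b ∨ z = c) (hwq : w ≠ q) (hvw : v ≠ w) (hvq : v ≠ q)
    (ha : ∀ z, G.Adj a z ↔ z = v ∨ z = w ∨ z = q)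
    (hw : ∀ y, G.Adj w y ↔ y = a ∨ y = b ∨ y = z)
    (hq : ∀ y, G.Adj q y ↔ y = a ∨ y = c ∨ y = z)
    (hza : z ≠ a) (hzb : z ≠ b) (hzc : z ≠ c) (hf : Full G b) : False := by
  have vb : G.Adj v b := (hv b).2 (Or.inr (Or.inl rfl))
  have vc : G.Adj v c := (hv c).2 (Or.inr (Or.inr rfl))
  have wb : G.Adj w b := (hw b).2 (Or.inr (Or.inl rfl))
  have wz : G.Adj w z := (hw z).2 (Or.inr (Or.inr rfl))
  have qc : G.Adj q c := (hq c).2 (Or.inr (Or.inl rfl))
  have qz : G.Adj q z := (hq z).2 (Or.inr (Or.inr rfl))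
  obtain ⟨r, hrv, hrw, hb⟩ := third hc vb.symm wb.symm hvw
  have br : G.Adj b r := (hb r).2 (Or.inr (Or.inr rfl))
  have hrq : r ≠ q := by
    intro h
    rw [h] at br
    rcases (hq b).1 br.symm with h' | h' | h'
    · exact hab h'.symm
    · exact hbc h'
    · exact hzb h'.symm
  have hra : ¬ G.Adj r a := by
    intro h
    rcases (ha r).1 h.symm with h' | h' | h'
    · exact hrv h'
    · exact hrw h'
    · exact hrq h'
  have hrc : G.Adj r c := by
    obtain ⟨y, hy, h1, h2⟩ := hf v r vb.symm br hrv.symm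
    rcases (hv y).1 h1 with h | h | h
    · rw [h] at h2; exact absurd h2 hra
    · exact absurd h hy
    · rwa [h] at h2
  have hrz : G.Adj r z := by
    obtain ⟨y, hy, h1, h2⟩ := hf w r wb.symm br hrw.symm
    rcases (hw y).1 h1 with h | h | h
    · rw [h] at h2; exact absurd h2 hra
    · exact absurd h hy
    · rwa [h] at h2
  have hcN := nb_of3 hc vc.symm qc.symm hrc.symm hvq hrv.symm hrq.symm
  have hrN := nb_of3 hc br.symm hrc hrz hbc hzb.symm hzc.symm
  have hzN := nb_of3 hc wz.symm qz.symm hrz.symm hwq hrw.symm hrq.symm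
  refine closed_small h3 hn [v, a, b, c, w, q, r, z] (by simp) (by simp) ?_
  intro x hx y hxy
  simp only [List.mem_cons, List.not_mem_nil, or_false] at hx ⊢
  rcases hx with rfl | rfl | rfl | rfl | rfl | rfl | rfl | rfl
  · rcases (hv y).1 hxy with h | h | h <;> simp [h]
  · rcases (ha y).1 hxy with h | h | h <;> simp [h]
  · rcases (hb y).1 hxy with h | h | h <;> simp [h]
  · rcases (hcN y).1 hxy with h | h | h <;> simp [h]
  · rcases (hw y).1 hxy with h | h | h <;> simp [h]
  · rcases (hq y).1 hxy with h | h | h <;> simp [h]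
  · rcases (hrN y).1 hxy with h | h | h <;> simp [h]
  · rcases (hzN y).1 hxy with h | h | h <;> simp [h]

lemma no4 (hc : Cubic G) (h3 : Conn3 G) (hn : 16 ≤ Fintype.card V) (hT : ∀ v, T3 G v) : No4 G := by
  have hno3 := no3 hc h3 hn hT
  intro v w a b hvw hab va vb wa wb
  obtain ⟨c, hca, hcb, hv⟩ := third hc va vb hab
  have vc : G.Adj v c := (hv c).2 (Or.inr (Or.inr rfl))
  have fv : Full G v := full_of hc (hT v) va vb hab hvw.symm wa.symm wb.symm
  have fa := full_adj hc (hT a) fv va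
  have fb := full_adj hc (hT b) fv vb
  have fc := full_adj hc (hT c) fv vc
  obtain ⟨q, hqv, hqw, ha⟩ := third hc va.symm wa.symm hvw
  have aq : G.Adj a q := (ha q).2 (Or.inr (Or.inr rfl))
  have hq : G.Adj q b ∨ G.Adj q c := by
    obtain ⟨y, hy, h1, h2⟩ := fa v q va.symm aq hqv.symm
    rcases (hv y).1 h1 with h | h | h
    · exact absurd h hy
    · rw [h] at h2; exact Or.inl h2
    · rw [h] at h2; exact Or.inr h2
  by_cases hqb : G.Adj q b
  · have hbN := nb_of3 hc vb.symm wb.symm hqb.symm hvw hqv.symm hqw.symm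
    exact k33 hc h3 hn hab hca.symm hcb.symm hv hqw.symm ha hbN fc
  · have hqc : G.Adj q c := hq.resolve_left hqb
    obtain ⟨z, hza, h1, h2⟩ := fa w q wa.symm aq hqw.symm
    have hzv : z ≠ v := by
      intro h
      rw [h] at h1
      exact hno3 v a w va wa.symm h1.symm
    have hzb : z ≠ b := by
      intro h
      rw [h] at h2
      exact hqb h2
    by_cases hzc : z = c
    · rw [hzc] at h1
      have hcN := nb_of3 hc vc.symm h1.symm hqc.symm hvw hqv.symm hqw.symm
      refine k33 hc h3 hn hca.symm hab hcb (fun z => ?_) hqw.symm ha hcN fb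
      rw [hv z]
      tauto
    · have hwN := nb_of3 hc wa wb h1 hab hza.symm hzb.symm
      have hqN := nb_of3 hc aq.symm hqc h2 hca.symm hza.symm (Ne.symm hzc)
      exact cube hc h3 hn hab hca.symm hcb.symm hv hqw.symm hvw hqv.symm ha hwN hqN hza hzb hzc fb

end k10no4

end Pool.Agent.Helper613.Cub
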