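import Pool.Agent.Helper613.Cub.Base

set_option autoImplicit false


open scoped Classical

noncomputable section

namespace Pool.Agent.Helper613.Cub

namespace j2sw


variable {V : Type} [Fintype V] {G : SimpleGraph V} {K : Subgroup (Equiv.Perm V)} {x y w : V} {g : Equiv.Perm V}
lemma j2sw_core (hc : Cubic G) (hK : K ≤ AutS G) (hx : x ∈ Rt G K) (hy : y ∈ Uu G K)
    (hxy : G.Adj x y) : ∃ g w, g ∈ K ∧ g y ≠ y ∧ g (g y) = y ∧ g y ∈ Uu G K ∧ w ∈ Rt G K ∧
      w ≠ y ∧ w ≠ g y ∧ (∀ z, G.Adj x z ↔ z = y ∨ z = g y ∨ z = w) ∧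
      (∀ σ ∈ K, σ y = y ∨ σ y = g y) := by
  obtain ⟨hxF, w, hwF, hxw⟩ := hx
  have hwR : w ∈ Rt G K := ⟨hwF, x, hxF, hxw.symm⟩
  have hyF : y ∉ Fx K := fun h => hy ⟨h, x, hxF, hxy.symm⟩
  have hwy : w ≠ y := by
    rintro rfl; exact hyF hwF
  have : ∃ σ ∈ K, σ y ≠ y := by
    by_contra hcon
    push Not at hcon
    exact hyF hcon
  obtain ⟨g, hg, hgy⟩ := this
  have adj : ∀ σ ∈ K, ∀ z, G.Adj x z → G.Adj x (σ z) := by
    intro σ hσ z hz
    have h1 : G.Adj (σ x) (σ z) := (hK hσ x z).2 hz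
    rwa [hxF σ hσ] at h1
  have new : ∀ σ ∈ K, ∀ z, z ≠ w → σ z ≠ w := by
    intro σ hσ z hz h
    apply hz
    apply σ.injective
    rw [h, hwF σ hσ]
  obtain ⟨c, hcy, hcw, hnb⟩ := third hc hxy hxw hwy.symm
  have hgc : g y = c := by
    rcases (hnb (g y)).1 (adj g hg y hxy) with h | h | h
    · exact absurd h hgy
    · exact absurd h (new g hg y hwy.symm)
    · exact h
  have hgg : g (g y) = y := by
    rcases (hnb (g (g y))).1 (adj g hg _ (adj g hg y hxy)) with h | h | h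
    · exact h
    · exact absurd h (new g hg _ (by rw [hgc]; exact hcw))
    · exfalso
      apply hgy
      apply g.injective
      rw [h, hgc]
  refine ⟨g, w, hg, hgy, hgg, (Uu_inv hg y).2 hy, hwR, hwy, by rw [hgc]; exact hcw.symm, ?_, ?_⟩
  · intro z
    rw [hnb z, hgc]
    tauto
  · intro σ hσ
    rcases (hnb (σ y)).1 (adj σ hσ y hxy) with h | h | h
    · exact Or.inl h
    · exact absurd h (new σ hσ y hwy.symm)
    · right; rw [h, hgc]

lemma exists_Sw (hc : Cubic G) (h3 : Conn3 G) (hK : Ok G K) (hx : x ∈ Rt G K) (hy : y ∈ Uu G K)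
    (hxy : G.Adj x y) : ∃ g w, Sw G K x y g w := by
  obtain ⟨g, w, h1, h2, h4, h5, h6, h7, h8, h9, h10⟩ := j2sw_core hc hK.le hx hy hxy
  exact ⟨g, w, ⟨hK, hc, h3, hx, hy, h1, h2, h4, h5, h6, h7, h8, h9, h10⟩⟩

lemma bd_class (hc : Cubic G) (hK : K ≤ AutS G) (hx : x ∈ Rt G K) {u u' : V} (hu : u ∈ Uu G K)
    (hu' : u' ∈ Uu G K) (h1 : G.Adj x u) (h2 : G.Adj x u') : ∃ σ ∈ K, σ u = u' := by
  obtain ⟨g, w, a1, a2, a4, a5, a6, a7, a8, a9, a10⟩ := j2sw_core hc hK hx hu h1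
  rcases (a9 u').1 h2 with h | h | h
  · exact ⟨1, K.one_mem, by rw [h]; rfl⟩
  · exact ⟨g, a1, h.symm⟩
  · exact absurd (h ▸ a6) hu'

lemma bd_two (hc : Cubic G) (hK : K ≤ AutS G) (hx : x ∈ Bd G K) :
    {u | u ∈ Uu G K ∧ G.Adj x u}.ncard = 2 ∧ {u | u ∈ Rt G K ∧ G.Adj x u}.ncard = 1 := by
  obtain ⟨hxR, u, hu, hxu⟩ := hx
  obtain ⟨g, w, a1, a2, a4, a5, a6, a7, a8, a9, a10⟩ := j2sw_core hc hK hxR hu hxu
  constructor
  · have : {u | u ∈ Uu G K ∧ G.Adj x u} = {u, g u} := by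
      ext z
      simp only [Set.mem_setOf_eq, Set.mem_insert_iff, Set.mem_singleton_iff]
      constructor
      · rintro ⟨hz, hxz⟩
        rcases (a9 z).1 hxz with h | h | h
        · exact Or.inl h
        · exact Or.inr h
        · exact absurd (h ▸ a6) hz
      · rintro (h | h)
        · rw [h]; exact ⟨hu, hxu⟩
        · rw [h]; exact ⟨a5, (a9 _).2 (Or.inr (Or.inl rfl))⟩
    rw [this, Set.ncard_pair a2.symm]
  · have : {u | u ∈ Rt G K ∧ G.Adj x u} = {w} := by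
      ext z
      simp only [Set.mem_setOf_eq, Set.mem_singleton_iff]
      constructor
      · rintro ⟨hz, hxz⟩
        rcases (a9 z).1 hxz with h | h | h
        · exact absurd (h ▸ hz) hu
        · exact absurd (h ▸ hz) a5
        · exact h
      · intro h
        rw [h]; exact ⟨a6, (a9 _).2 (Or.inr (Or.inr rfl))⟩
    rw [this, Set.ncard_singleton]

end j2sw

end Pool.Agent.Helper613.Cub
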