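import Pool.Agent.Helper613.Cub.Base

set_option autoImplicit false


open scoped Classical

noncomputable section

namespace Pool.Agent.Helper613.Cub

namespace j3card


variable {V : Type} [Fintype V] {G : SimpleGraph V} {K : Subgroup (Equiv.Perm V)} {x y w : V} {g : Equiv.Perm V}
lemma cs_inv (h : Sw G K x y g w) : g⁻¹ y = g y := by
  rw [Equiv.Perm.inv_eq_iff_eq, h.ggy]

lemma cs_fix (h : Sw G K x y g w) {τ : Equiv.Perm V} (hτ : τ ∈ stb K y) : τ (g y) = g y := by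
  have hx : τ x = x := h.hx.1 τ hτ.1
  have hw : τ w = w := h.wR.1 τ hτ.1
  have hA : G.Adj x (g y) := (h.nb _).2 (Or.inr (Or.inl rfl))
  have hA' : G.Adj (τ x) (τ (g y)) := (h.ok.le hτ.1 x (g y)).2 hA
  rw [hx] at hA'
  rcases (h.nb _).1 hA' with h1 | h1 | h1
  · exfalso
    have h2 : τ (g y) = τ y := by rw [h1]; exact hτ.2.symm
    exact h.gy (τ.injective h2)
  · exact h1
  · exfalso
    have h2 : τ (g y) = τ w := by rw [h1, hw]
    exact h.wgy (τ.injective h2).symm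

lemma cs_mem (h : Sw G K x y g w) {σ : Equiv.Perm V} (hσ : σ ∈ K) (hσy : ¬ σ y = y) :
    g * σ ∈ stb K y := by
  refine ⟨K.mul_mem h.hg hσ, ?_⟩
  rcases h.orb σ hσ with h1 | h1
  · exact absurd h1 hσy
  · rw [Equiv.Perm.mul_apply, h1, h.ggy]

lemma card_step (h : Sw G K x y g w) : Nat.card K = 2 * Nat.card (stb K y) := by
  have e : K ≃ (stb K y) ⊕ (stb K y) :=
    { toFun := fun σ => if hs : σ.1 y = y then Sum.inl ⟨σ.1, σ.2, hs⟩
        else Sum.inr ⟨g * σ.1, cs_mem h σ.2 hs⟩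
      invFun := Sum.elim (fun τ => ⟨τ.1, τ.2.1⟩)
        (fun τ => ⟨g⁻¹ * τ.1, K.mul_mem (K.inv_mem h.hg) τ.2.1⟩)
      left_inv := by
        intro σ
        by_cases hs : σ.1 y = y
        · simp only [dif_pos hs, Sum.elim_inl]
        · simp only [dif_neg hs, Sum.elim_inr]
          exact Subtype.ext (inv_mul_cancel_left g σ.1)
      right_inv := by
        rintro (τ | τ)
        · have hs : τ.1 y = y := τ.2.2
          simp only [Sum.elim_inl]
          rw [dif_pos hs]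
        · have hτ : τ.1 y = y := τ.2.2
          have hs : ¬ (g⁻¹ * τ.1) y = y := by
            rw [Equiv.Perm.mul_apply, hτ, cs_inv h]
            exact h.gy
          simp only [Sum.elim_inr]
          rw [dif_neg hs]
          exact congrArg Sum.inr (Subtype.ext (mul_inv_cancel_left g τ.1)) }
  rw [Nat.card_congr e, Nat.card_sum, two_mul]

lemma coset (h : Sw G K x y g w) : ∀ σ ∈ K, σ ∈ stb K y ∨ g * σ ∈ stb K y := by
  intro σ hσ
  by_cases hs : σ y = y
  · exact Or.inl ⟨hσ, hs⟩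
  · exact Or.inr (cs_mem h hσ hs)

lemma sq_mem (h : Sw G K x y g w) : g * g ∈ stb K y :=
  ⟨K.mul_mem h.hg h.hg, by rw [Equiv.Perm.mul_apply, h.ggy]⟩

lemma conj_mem (h : Sw G K x y g w) {τ : Equiv.Perm V} (hτ : τ ∈ stb K y) :
    g * τ * g⁻¹ ∈ stb K y ∧ g⁻¹ * τ * g ∈ stb K y := by
  refine ⟨⟨K.mul_mem (K.mul_mem h.hg hτ.1) (K.inv_mem h.hg), ?_⟩,
    ⟨K.mul_mem (K.mul_mem (K.inv_mem h.hg) hτ.1) h.hg, ?_⟩⟩
  · rw [Equiv.Perm.mul_apply, Equiv.Perm.mul_apply, cs_inv h, cs_fix h hτ, h.ggy]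
  · rw [Equiv.Perm.mul_apply, Equiv.Perm.mul_apply, cs_fix h hτ, Equiv.Perm.inv_eq_iff_eq]

end j3card

end Pool.Agent.Helper613.Cub
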