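import Pool.Agent.Helper613.Cub.Base
import Pool.Agent.Helper613.Cub.j3card

set_option autoImplicit false


open scoped Classical

noncomputable section

namespace Pool.Agent.Helper613.Cub

namespace j4ok

open j3card

variable {V : Type} [Fintype V] {G : SimpleGraph V} {K : Subgroup (Equiv.Perm V)} {x y w : V} {g : Equiv.Perm V}
lemma ok_stb (h : Sw G K x y g w) : Ok G (stb K y) := by
  refine ⟨(stb_le K y).trans h.ok.le, fun σ hσ hfix => ?_, h.ok.ne.mono (Rt_mono (stb_le K y))⟩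
  refine ⟨h.ok.full σ hσ fun v hv => hfix v (Rt_mono (stb_le K y) hv), hfix y ?_⟩
  refine ⟨fun τ hτ => hτ.2, x, Fx_mono (stb_le K y) h.hx.1, ?_⟩
  exact ((h.nb y).2 (Or.inl rfl)).symm

lemma g_Fx (h : Sw G K x y g w) (v : V) : g v ∈ Fx (stb K y) ↔ v ∈ Fx (stb K y) := by
  constructor
  · intro hv τ hτ
    have h1 := hv _ (conj_mem h hτ).1
    have hiv : g⁻¹ (g v) = v := g.symm_apply_apply v
    rw [Equiv.Perm.mul_apply, Equiv.Perm.mul_apply, hiv] at h1
    exact g.injective h1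
  · intro hv τ hτ
    have h1 := hv _ (conj_mem h hτ).2
    rw [Equiv.Perm.mul_apply, Equiv.Perm.mul_apply, Equiv.Perm.inv_eq_iff_eq] at h1
    exact h1

lemma g_Rt (h : Sw G K x y g w) (v : V) : g v ∈ Rt G (stb K y) ↔ v ∈ Rt G (stb K y) := by
  have hA : ∀ u v, G.Adj (g u) (g v) ↔ G.Adj u v := h.ok.le h.hg
  constructor
  · rintro ⟨hv, u, hu, ha⟩
    have hvi : g (g⁻¹ u) = u := g.apply_symm_apply u
    refine ⟨(g_Fx h v).1 hv, g⁻¹ u, ?_, ?_⟩
    · rw [← g_Fx h, hvi]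
      exact hu
    · rw [← hA, hvi]
      exact ha
  · rintro ⟨hv, u, hu, ha⟩
    exact ⟨(g_Fx h v).2 hv, g u, (g_Fx h u).2 hu, (hA v u).2 ha⟩

end j4ok

end Pool.Agent.Helper613.Cub
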