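import Pool.Agent.Helper613.Cub.Base
import Pool.Agent.Helper613.Cub.j3card
import Pool.Agent.Helper613.Cub.j4ok

set_option autoImplicit false


open scoped Classical

noncomputable section

namespace Pool.Agent.Helper613.Cub

namespace j5free

open j3card
open j4ok

variable {V : Type} [Fintype V] {G : SimpleGraph V} {K : Subgroup (Equiv.Perm V)} {x y w : V} {g : Equiv.Perm V}
lemma nf836_fix (h : Sw G K x y g w) {z : V} (hz : z ∈ Fx (stb K y)) (hgz : g z = z) :
    z ∈ Fx K := by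
  intro σ hσ
  rcases coset h σ hσ with h1 | h1
  · exact hz σ h1
  · have h2 : g (σ z) = z := hz _ h1
    have h3 : g (σ z) = g z := by rw [h2, hgz]
    exact g.injective h3

lemma nf836_gg (h : Sw G K x y g w) {z : V} (hz : z ∈ Fx (stb K y)) : g (g z) = z :=
  hz _ (sq_mem h)

lemma NN_free (h : Sw G K x y g w) {z : V} (hz : z ∈ NN G K y) :
    g z ∈ NN G K y ∧ g z ≠ z ∧ g (g z) = z := by
  obtain ⟨hz1, hz2⟩ := hz
  have hgg : g (g z) = z := nf836_gg h hz1.1
  have hne : g z ≠ z := by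
    intro hgz
    have hzF : z ∈ Fx K := nf836_fix h hz1.1 hgz
    have hno : ∀ t, G.Adj z t → t ∈ Fx (stb K y) → g t ≠ t := by
      intro t ht ht1 ht2
      exact hz2 ⟨hzF, t, nf836_fix h ht1 ht2, ht⟩
    have hadj : ∀ t, G.Adj z t → G.Adj z (g t) := by
      intro t ht
      have h1 := (h.ok.le h.hg z t).2 ht
      rwa [hgz] at h1
    obtain ⟨z1, hz1F, hzz1⟩ := hz1.2
    have h2 : g z1 ≠ z1 := hno z1 hzz1 hz1F
    obtain ⟨c, hc1, hc2, hc⟩ := third h.cub hzz1 (hadj z1 hzz1) (Ne.symm h2)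
    have hzc : G.Adj z c := (hc c).2 (Or.inr (Or.inr rfl))
    have hcF : c ∈ Fx (stb K y) :=
      fix_third h.cub ((stb_le K y).trans h.ok.le) hz1.1 hz1F ((g_Fx h z1).2 hz1F) (Ne.symm h2)
        hzz1 (hadj z1 hzz1) hzc
    rcases (hc (g c)).1 (hadj c hzc) with h3 | h3 | h3
    · apply hc2
      rw [← h3]
      exact (nf836_gg h hcF).symm
    · exact hc1 (g.injective h3)
    · exact hno c hzc hcF h3
  refine ⟨⟨(g_Rt h z).2 hz1, ?_⟩, hne, hgg⟩
  intro hR
  apply hne
  have h1 : g (g z) = g z := hR.1 g h.hg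
  rw [hgg] at h1
  exact h1.symm

end j5free

end Pool.Agent.Helper613.Cub
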