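import Pool.Agent.Helper613.Cub.Base

set_option autoImplicit false


open scoped Classical

noncomputable section

namespace Pool.Agent.Helper613.Cub

namespace j6restr


variable {V : Type} [Fintype V] {G : SimpleGraph V} {K : Subgroup (Equiv.Perm V)} {x y w : V} {g : Equiv.Perm V}
/-- restriction of an element of `K` to an invariant, adjacency-closed part of `Uu` -/
lemma restr (hK : Ok G K) {σ : Equiv.Perm V} (hσ : σ ∈ K) {C : Set V} (hC : C ⊆ Uu G K)
    (hinv : ∀ v, v ∈ C → σ v ∈ C) (hadj : ∀ a ∈ C, ∀ b ∈ Uu G K, G.Adj a b → b ∈ C) :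
    ∃ τ ∈ K, (∀ v ∈ C, τ v = σ v) ∧ (∀ v, v ∉ C → τ v = v) := by
  have himg : σ '' C = C := by
    apply Set.eq_of_subset_of_ncard_le
    · rintro _ ⟨v, hv, rfl⟩
      exact hinv v hv
    · rw [Set.ncard_image_of_injective _ σ.injective]
    · exact Set.toFinite C
  have ai : ∀ v, σ (σ⁻¹ v) = v := fun v => Equiv.apply_symm_apply σ v
  have ia : ∀ v, σ⁻¹ (σ v) = v := fun v => Equiv.symm_apply_apply σ v
  have hiff : ∀ v, σ v ∈ C ↔ v ∈ C := by
    intro v
    constructor
    · intro hv
      rw [← himg] at hv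
      obtain ⟨u, hu, huv⟩ := hv
      rwa [← σ.injective huv]
    · exact hinv v
  have hiff' : ∀ v, σ⁻¹ v ∈ C ↔ v ∈ C := by
    intro v
    rw [← hiff (σ⁻¹ v), ai]
  let τ : Equiv.Perm V :=
    { toFun := fun v => if v ∈ C then σ v else v
      invFun := fun v => if v ∈ C then σ⁻¹ v else v
      left_inv := by
        intro v
        by_cases hv : v ∈ C
        · simp only [if_pos hv, if_pos ((hiff v).2 hv), ia]
        · simp only [if_neg hv]
      right_inv := by
        intro v
        by_cases hv : v ∈ C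
        · simp only [if_pos hv, if_pos ((hiff' v).2 hv), ai]
        · simp only [if_neg hv] }
  have t1 : ∀ v ∈ C, τ v = σ v := fun v hv => if_pos hv
  have t2 : ∀ v, v ∉ C → τ v = v := fun v hv => if_neg hv
  have hσA := hK.le hσ
  have hmix : ∀ u ∈ C, ∀ v, v ∉ C → (G.Adj (σ u) v ↔ G.Adj u v) := by
    intro u hu v hv
    by_cases hvU : v ∈ Uu G K
    · constructor
      · intro h; exact absurd (hadj _ (hinv u hu) v hvU h) hv
      · intro h; exact absurd (hadj _ hu v hvU h) hv
    · have hvR : v ∈ Rt G K := by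
        by_contra hc
        exact hvU hc
      have hfix : σ v = v := hvR.1 σ hσ
      have := hσA u v
      rwa [hfix] at this
  refine ⟨τ, hK.full τ ?_ ?_, t1, t2⟩
  · intro u v
    by_cases hu : u ∈ C <;> by_cases hv : v ∈ C
    · rw [t1 u hu, t1 v hv]
      exact hσA u v
    · rw [t1 u hu, t2 v hv]
      exact hmix u hu v hv
    · rw [t2 u hu, t1 v hv, G.adj_comm, G.adj_comm u v]
      exact hmix v hv u hu
    · rw [t2 u hu, t2 v hv]
  · intro v hv
    apply t2
    intro hc
    exact hC hc hv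

lemma cl_sub {a : V} (ha : a ∈ Uu G K) : cl G K (Uu G K) a ⊆ Uu G K := by
  intro b hb
  have key : ∀ a b : V, Rl G K (Uu G K) a b → (a ∈ Uu G K ↔ b ∈ Uu G K) := by
    intro a b hab
    induction hab with
    | rel a b h =>
      rcases h with ⟨h1, h2, -⟩ | ⟨σ, hσ, rfl⟩
      · exact ⟨fun _ => h2, fun _ => h1⟩
      · exact (Uu_inv hσ a).symm
    | refl a => exact Iff.rfl
    | symm a b _ ih => exact ih.symm
    | trans a b c _ _ ih1 ih2 => exact ih1.trans ih2
  exact (key a b hb).1 ha

end j6restr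

end Pool.Agent.Helper613.Cub
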