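import Pool.Agent.Helper613.Cub.Base
import Pool.Agent.Helper613.Cub.j3card
import Pool.Agent.Helper613.Cub.j4ok
import Pool.Agent.Helper613.Cub.j6restr

set_option autoImplicit false


open scoped Classical

noncomputable section

namespace Pool.Agent.Helper613.Cub

namespace j7out

open j3card
open j4ok
open j6restr

variable {V : Type} [Fintype V] {G : SimpleGraph V} {K : Subgroup (Equiv.Perm V)} {x y w : V} {g : Equiv.Perm V}
lemma j14530_key (h : Sw G K x y g w) {v : V} (hv : v ∈ Uu G K) (hv' : v ∉ OO G K y)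
    {σ : Equiv.Perm V} (hσ : σ ∈ K) :
    ∃ τ ∈ stb K y, ∀ c ∈ cl G K (Uu G K) v, τ c = σ c := by
  have hinv : ∀ c, c ∈ cl G K (Uu G K) v → σ c ∈ cl G K (Uu G K) v := by
    intro c hc
    exact Relation.EqvGen.trans _ _ _ hc (Relation.EqvGen.rel _ _ (Or.inr ⟨σ, hσ, rfl⟩))
  have hadj : ∀ a ∈ cl G K (Uu G K) v, ∀ b ∈ Uu G K, G.Adj a b → b ∈ cl G K (Uu G K) v := by
    intro a ha b hb hab
    exact Relation.EqvGen.trans _ _ _ ha
      (Relation.EqvGen.rel _ _ (Or.inl ⟨cl_sub hv ha, hb, hab⟩))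
  obtain ⟨τ, hτ, h1, h2⟩ := restr h.ok hσ (cl_sub hv) hinv hadj
  have hy : y ∉ cl G K (Uu G K) v := fun hy => hv' (Relation.EqvGen.symm _ _ hy)
  exact ⟨τ, ⟨hτ, h2 y hy⟩, h1⟩

lemma j14530_self {v : V} : v ∈ cl G K (Uu G K) v := Relation.EqvGen.refl _

lemma out_Rt (h : Sw G K x y g w) : NN G K y ⊆ OO G K y := by
  rintro z ⟨⟨hz1, u, hu, hzu⟩, hz2⟩
  by_contra hzO
  have hzU : z ∈ Uu G K := hz2
  have hzF : z ∈ Fx K := by
    intro σ hσ
    obtain ⟨τ, hτ, hτc⟩ := j14530_key h hzU hzO hσ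
    rw [← hτc z j14530_self]
    exact hz1 τ hτ
  by_cases huR : u ∈ Rt G K
  · exact hz2 ⟨hzF, u, huR.1, hzu⟩
  · have huU : u ∈ Uu G K := huR
    apply hz2
    refine ⟨hzF, u, ?_, hzu⟩
    intro σ hσ
    obtain ⟨τ, hτ, hτc⟩ := j14530_key h hzU hzO hσ
    have huC : u ∈ cl G K (Uu G K) z := Relation.EqvGen.rel _ _ (Or.inl ⟨hzU, huU, hzu⟩)
    rw [← hτc u huC]
    exact hu τ hτ

lemma cl_out (h : Sw G K x y g w) {a : V} (ha : a ∈ Uu G K) (ha' : a ∉ OO G K y) :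
    a ∈ Uu G (stb K y) ∧ cl G (stb K y) (Uu G (stb K y)) a = cl G K (Uu G K) a := by
  have hUU : ∀ c, c ∈ Uu G K → c ∉ OO G K y → c ∈ Uu G (stb K y) := by
    intro c hc hc' hR
    exact hc' (out_Rt h ⟨hR, hc⟩)
  have hUsub : Uu G (stb K y) ⊆ Uu G K := fun c hc hR => hc (Rt_mono (stb_le K y) hR)
  refine ⟨hUU a ha ha', ?_⟩
  have hCO : ∀ c, c ∈ cl G K (Uu G K) a → c ∉ OO G K y := by
    intro c hc hcO
    exact ha' (Relation.EqvGen.trans _ _ _ hcO (Relation.EqvGen.symm _ _ hc))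
  apply Set.Subset.antisymm
  · intro b hb
    have hb' : Relation.EqvGen (fun a b => (a ∈ Uu G (stb K y) ∧ b ∈ Uu G (stb K y) ∧ G.Adj a b) ∨
      ∃ σ ∈ stb K y, σ a = b) a b := hb
    show Relation.EqvGen (fun a b => (a ∈ Uu G K ∧ b ∈ Uu G K ∧ G.Adj a b) ∨ ∃ σ ∈ K, σ a = b) a b
    clear hb hCO ha ha'
    induction hb' with
    | rel c d hcd =>
      apply Relation.EqvGen.rel
      rcases hcd with ⟨h1, h2, h3⟩ | ⟨σ, hσ, h3⟩
      · exact Or.inl ⟨hUsub h1, hUsub h2, h3⟩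
      · exact Or.inr ⟨σ, hσ.1, h3⟩
    | refl c => exact Relation.EqvGen.refl _
    | symm c d _ ih => exact Relation.EqvGen.symm _ _ ih
    | trans c d e _ _ ih1 ih2 => exact Relation.EqvGen.trans _ _ _ ih1 ih2
  · have key : ∀ c d, Relation.EqvGen (fun a b => (a ∈ Uu G K ∧ b ∈ Uu G K ∧ G.Adj a b) ∨
        ∃ σ ∈ K, σ a = b) c d → (c ∈ cl G K (Uu G K) a ↔ d ∈ cl G K (Uu G K) a) ∧
        (c ∈ cl G K (Uu G K) a → Rl G (stb K y) (Uu G (stb K y)) c d) := by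
      intro c d hcd
      refine ⟨⟨fun hc => Relation.EqvGen.trans _ _ _ hc hcd,
        fun hd => Relation.EqvGen.trans _ _ _ hd (Relation.EqvGen.symm _ _ hcd)⟩, ?_⟩
      induction hcd with
      | rel c d hcd =>
        intro hc
        have hd : d ∈ cl G K (Uu G K) a :=
          Relation.EqvGen.trans _ _ _ hc (Relation.EqvGen.rel _ _ hcd)
        apply Relation.EqvGen.rel
        rcases hcd with ⟨h1, h2, h3⟩ | ⟨σ, hσ, h3⟩
        · exact Or.inl ⟨hUU c h1 (hCO c hc), hUU d h2 (hCO d hd), h3⟩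
        · obtain ⟨τ, hτ, hτc⟩ := j14530_key h ha ha' hσ
          exact Or.inr ⟨τ, hτ, by rw [hτc c hc, h3]⟩
      | refl c => intro _; exact Relation.EqvGen.refl _
      | symm c d hcd ih =>
        intro hd
        exact Relation.EqvGen.symm _ _ (ih (Relation.EqvGen.trans _ _ _ hd
          (Relation.EqvGen.symm _ _ hcd)))
      | trans c d e hcd _ ih1 ih2 =>
        intro hc
        exact Relation.EqvGen.trans _ _ _ (ih1 hc) (ih2 (Relation.EqvGen.trans _ _ _ hc hcd))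
    intro b hb
    exact (key a b hb).2 j14530_self

end j7out

end Pool.Agent.Helper613.Cub
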