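import Pool.Agent.Helper613.Cub.Base
import Pool.Agent.Helper613.Cub.j6restr
import Pool.Agent.Helper613.Cub.j7out

set_option autoImplicit false


open scoped Classical

noncomputable section

namespace Pool.Agent.Helper613.Cub

namespace j8om

open j6restr
open j7out

variable {V : Type} [Fintype V] {G : SimpleGraph V} {K : Subgroup (Equiv.Perm V)} {x y w : V} {g : Equiv.Perm V}
lemma cl_in_self (G : SimpleGraph V) (K : Subgroup (Equiv.Perm V)) (W : Set V) (a : V) :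
    a ∈ cl G K W a := Relation.EqvGen.refl a

lemma cl_in_eq {G : SimpleGraph V} {K : Subgroup (Equiv.Perm V)} {W : Set V} {a b : V}
    (h : b ∈ cl G K W a) : cl G K W b = cl G K W a := by
  have h1 : Rl G K W a b := h
  ext c
  constructor
  · intro hc
    exact Relation.EqvGen.trans _ _ _ h1 hc
  · intro hc
    exact Relation.EqvGen.trans _ _ _ (Relation.EqvGen.symm _ _ h1) hc

lemma cl_in_U {G : SimpleGraph V} {K : Subgroup (Equiv.Perm V)} {y : V} :
    Uu G (stb K y) ⊆ Uu G K :=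
  Set.compl_subset_compl.2 (Rt_mono (stb_le K y))

lemma cl_in (h : Sw G K x y g w) {a : V} (ha : a ∈ OO G K y) (ha' : a ∈ Uu G (stb K y)) :
    cl G (stb K y) (Uu G (stb K y)) a ⊆ OO G K y ∩ Uu G (stb K y) := by
  intro b hb
  refine ⟨?_, cl_sub ha' hb⟩
  have h1 : Rl G (stb K y) (Uu G (stb K y)) a b := hb
  have h2 : Rl G K (Uu G K) a b := by
    refine Relation.EqvGen.mono ?_ a b h1
    intro c d hcd
    rcases hcd with ⟨hc, hd, hadj⟩ | ⟨σ, hσ, he⟩
    · exact Or.inl ⟨cl_in_U hc, cl_in_U hd, hadj⟩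
    · exact Or.inr ⟨σ, stb_le K y hσ, he⟩
  exact Relation.EqvGen.trans _ _ _ ha h2


lemma om_eq (h : Sw G K x y g w) : om G (stb K y) + 1 = om G K + om' G K y := by
  have hyO : y ∈ OO G K y := cl_in_self G K (Uu G K) y
  have e1 : cl G (stb K y) (Uu G (stb K y)) '' (Uu G (stb K y)) =
      (cl G (stb K y) (Uu G (stb K y)) '' (OO G K y ∩ Uu G (stb K y))) ∪
        (cl G K (Uu G K) '' (Uu G K \ OO G K y)) := by
    ext S
    constructor
    · rintro ⟨a, ha, rfl⟩
      by_cases haO : a ∈ OO G K y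
      · exact Or.inl ⟨a, ⟨haO, ha⟩, rfl⟩
      · exact Or.inr ⟨a, ⟨cl_in_U ha, haO⟩, (cl_out h (cl_in_U ha) haO).2.symm⟩
    · rintro (⟨a, ha, rfl⟩ | ⟨a, ha, rfl⟩)
      · exact ⟨a, ha.2, rfl⟩
      · exact ⟨a, (cl_out h ha.1 ha.2).1, (cl_out h ha.1 ha.2).2⟩
  have d1 : Disjoint (cl G (stb K y) (Uu G (stb K y)) '' (OO G K y ∩ Uu G (stb K y)))
        (cl G K (Uu G K) '' (Uu G K \ OO G K y)) := by
    rw [Set.disjoint_left]
    rintro S ⟨a, ha, rfl⟩ ⟨b, hb, hab⟩
    have h1 : b ∈ cl G (stb K y) (Uu G (stb K y)) a := by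
      rw [← hab]; exact cl_in_self G K (Uu G K) b
    exact hb.2 (cl_in h ha.1 ha.2 h1).1
  have e2 : cl G K (Uu G K) '' (Uu G K) =
      {OO G K y} ∪ (cl G K (Uu G K) '' (Uu G K \ OO G K y)) := by
    ext S
    constructor
    · rintro ⟨a, ha, rfl⟩
      by_cases haO : a ∈ OO G K y
      · left
        exact cl_in_eq haO
      · exact Or.inr ⟨a, ⟨ha, haO⟩, rfl⟩
    · rintro (hS | ⟨a, ha, rfl⟩)
      · exact ⟨y, h.hy, hS.symm⟩
      · exact ⟨a, ha.1, rfl⟩
  have d2 : Disjoint ({OO G K y} : Set (Set V)) (cl G K (Uu G K) '' (Uu G K \ OO G K y)) := by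
    rw [Set.disjoint_left]
    rintro S hS ⟨a, ha, hab⟩
    refine ha.2 ?_
    have h1 : S = OO G K y := hS
    rw [← h1, ← hab]
    exact cl_in_self G K (Uu G K) a
  unfold om om'
  rw [e1, e2, Set.ncard_union_eq d1 (Set.toFinite _) (Set.toFinite _),
    Set.ncard_union_eq d2 (Set.toFinite _) (Set.toFinite _), Set.ncard_singleton]
  omega

end j8om

end Pool.Agent.Helper613.Cub
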