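import Pool.Agent.Helper613.Cub.Base
import Pool.Agent.Helper613.Cub.j2sw
import Pool.Agent.Helper613.Cub.j4ok

set_option autoImplicit false


open scoped Classical

noncomputable section

namespace Pool.Agent.Helper613.Cub

namespace j9bd

open j2sw
open j4ok

variable {V : Type} [Fintype V] {G : SimpleGraph V} {K : Subgroup (Equiv.Perm V)} {x y w : V} {g : Equiv.Perm V}
lemma Cn_two (h : Sw G K x y g w) {x' : V} (hx' : x' ∈ Cn G K y) :
    {z | z ∈ NN G K y ∧ G.Adj x' z}.ncard = 2 ∧ (∀ u, G.Adj x' u → u ∈ Rt G (stb K y)) := by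
  obtain ⟨hxR, z, ⟨hzR', hzR⟩, hxz⟩ := hx'
  have hmono : Rt G K ⊆ Rt G (stb K y) := Rt_mono (stb_le K y)
  obtain ⟨g', w', s⟩ := exists_Sw h.cub h.con h.ok hxR (show z ∈ Uu G K from hzR) hxz
  have hgz : g' z ∈ Rt G (stb K y) := by
    by_contra hcon
    obtain ⟨g'', w'', t⟩ := exists_Sw h.cub h.con (ok_stb h) (hmono hxR)
      (show g' z ∈ Uu G (stb K y) from hcon) ((s.nb _).2 (Or.inr (Or.inl rfl)))
    have h1 : z = w'' := by
      rcases (t.nb z).1 hxz with h1 | h1 | h1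
      · exact absurd h1.symm s.gy
      · exact absurd hzR' (h1 ▸ t.gyU)
      · exact h1
    have h2 : w' = w'' := by
      rcases (t.nb w').1 ((s.nb _).2 (Or.inr (Or.inr rfl))) with h2 | h2 | h2
      · exact absurd h2 s.wgy
      · exact absurd (hmono s.wR) (h2 ▸ t.gyU)
      · exact h2
    exact s.wy (h2.trans h1.symm)
  constructor
  · have hset : {u | u ∈ NN G K y ∧ G.Adj x' u} = {z, g' z} := by
      ext u
      constructor
      · rintro ⟨hu, hxu⟩
        rcases (s.nb u).1 hxu with h1 | h1 | h1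
        · exact Or.inl h1
        · exact Or.inr h1
        · exact absurd (h1 ▸ s.wR) hu.2
      · rintro (rfl | rfl)
        · exact ⟨⟨hzR', hzR⟩, hxz⟩
        · exact ⟨⟨hgz, s.gyU⟩, (s.nb _).2 (Or.inr (Or.inl rfl))⟩
    rw [hset]
    exact Set.ncard_pair s.gy.symm
  · intro u hu
    rcases (s.nb u).1 hu with h1 | h1 | h1
    · rw [h1]
      exact hzR'
    · rw [h1]
      exact hgz
    · rw [h1]
      exact hmono s.wR

lemma Bd_eq (h : Sw G K x y g w) :
    (Bd G (stb K y)).ncard + (Cn G K y).ncard = (Bd G K).ncard + (Bn G K y).ncard := by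
  have hmono : Rt G K ⊆ Rt G (stb K y) := Rt_mono (stb_le K y)
  have d1 : Disjoint (Bd G (stb K y)) (Cn G K y) := by
    rw [Set.disjoint_left]
    rintro v ⟨_, u, hu, hvu⟩ hv
    exact hu ((Cn_two h hv).2 u hvu)
  have d2 : Disjoint (Bd G K) (Bn G K y) := by
    rw [Set.disjoint_left]
    rintro v ⟨hv, _⟩ ⟨hv', _⟩
    exact hv'.2 hv
  rw [← Set.ncard_union_eq d1 (Set.toFinite _) (Set.toFinite _),
    ← Set.ncard_union_eq d2 (Set.toFinite _) (Set.toFinite _)]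
  congr 1
  ext v
  constructor
  · rintro (⟨hv, u, hu, hvu⟩ | ⟨hv, z, hz, hvz⟩)
    · by_cases hvR : v ∈ Rt G K
      · exact Or.inl ⟨hvR, u, fun hu' => hu (hmono hu'), hvu⟩
      · exact Or.inr ⟨⟨hv, hvR⟩, u, hu, hvu⟩
    · exact Or.inl ⟨hv, z, hz.2, hvz⟩
  · rintro (⟨hv, u, hu, hvu⟩ | ⟨hv, u, hu, hvu⟩)
    · by_cases huR : u ∈ Rt G (stb K y)
      · exact Or.inr ⟨hv, u, ⟨huR, hu⟩, hvu⟩
      · exact Or.inl ⟨hmono hv, u, huR, hvu⟩
    · exact Or.inl ⟨hv.1, u, hu, hvu⟩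

lemma Bn_two (h : Sw G K x y g w) {z : V} (hz : z ∈ Bn G K y) :
    {u | u ∈ Uu G (stb K y) ∧ G.Adj z u}.ncard = 2 :=
  (bd_two h.cub (ok_stb h).le ⟨hz.1.1, hz.2⟩).1

end j9bd

end Pool.Agent.Helper613.Cub
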