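import Pool.Agent.Helper613.Cub.Base
import Pool.Agent.Helper613.Cub.j2sw
import Pool.Agent.Helper613.Cub.j3card
import Pool.Agent.Helper613.Cub.j4ok
import Pool.Agent.Helper613.Cub.j5free
import Pool.Agent.Helper613.Cub.j6restr
import Pool.Agent.Helper613.Cub.j7out
import Pool.Agent.Helper613.Cub.j8om
import Pool.Agent.Helper613.Cub.j9bd

set_option autoImplicit false


open scoped Classical

noncomputable section

namespace Pool.Agent.Helper613.Cub

namespace j10edge

open j2sw
open j3card
open j4ok
open j5free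
open j6restr
open j7out
open j8om
open j9bd

variable {V : Type} [Fintype V] {G : SimpleGraph V} {K : Subgroup (Equiv.Perm V)} {x y w : V} {g : Equiv.Perm V}
lemma ec_card (S : Set V) : S.ncard = (Finset.univ.filter (fun u => u ∈ S)).card := by
  rw [← Set.ncard_coe_finset]
  congr 1
  ext u
  simp

/-- adjacency indicator -/
def ec_a (G : SimpleGraph V) (u v : V) : ℕ := if G.Adj u v then 1 else 0

lemma ec_sum (S : Set V) (v : V) :
    ∑ u ∈ Finset.univ.filter (fun u => u ∈ S), ec_a G v u = {u | u ∈ S ∧ G.Adj v u}.ncard := by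
  rw [ec_card]
  unfold ec_a
  rw [Finset.sum_ite, Finset.sum_const_zero, add_zero, Finset.sum_const, smul_eq_mul, mul_one,
    Finset.filter_filter]
  congr 1
  ext u
  simp

lemma ec_two (S T : Set V) (hT : T ⊆ S) (f : V → ℕ) (h1 : ∀ v ∈ T, f v = 2)
    (h2 : ∀ v ∈ S, v ∉ T → f v = 0) :
    ∑ v ∈ Finset.univ.filter (fun u => u ∈ S), f v = 2 * T.ncard := by
  have e : ∑ v ∈ Finset.univ.filter (fun u => u ∈ S), f v
      = ∑ v ∈ Finset.univ.filter (fun u => u ∈ S), if v ∈ T then 2 else 0 := by
    refine Finset.sum_congr rfl fun v hv => ?_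
    have hv' : v ∈ S := (Finset.mem_filter.mp hv).2
    by_cases hvT : v ∈ T
    · rw [if_pos hvT, h1 v hvT]
    · rw [if_neg hvT, h2 v hv' hvT]
  rw [e, Finset.sum_ite, Finset.sum_const_zero, add_zero, Finset.sum_const, smul_eq_mul,
    Finset.filter_filter, ec_card, mul_comm]
  congr 2
  ext v
  simp only [Finset.mem_filter, Finset.mem_univ, true_and]
  exact ⟨fun hh => hh.2, fun hh => ⟨hT hh, hh⟩⟩

lemma edge_count (h : Sw G K x y g w) :
    3 * (NN G K y).ncard = eN G K y + 2 * (Bn G K y).ncard + 2 * (Cn G K y).ncard := by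
  have hmono : Rt G K ⊆ Rt G (stb K y) := Rt_mono (stb_le K y)
  -- the splitting of the vertex set
  have hsplit : ∀ f : V → ℕ, ∑ u, f u =
      ∑ u ∈ Finset.univ.filter (fun u => u ∈ Rt G K), f u
      + ∑ u ∈ Finset.univ.filter (fun u => u ∈ NN G K y), f u
      + ∑ u ∈ Finset.univ.filter (fun u => u ∈ Uu G (stb K y)), f u := by
    intro f
    rw [Finset.sum_filter, Finset.sum_filter, Finset.sum_filter, ← Finset.sum_add_distrib,
      ← Finset.sum_add_distrib]
    refine Finset.sum_congr rfl fun u _ => ?_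
    by_cases h1 : u ∈ Rt G K
    · have h2 : u ∉ NN G K y := fun hh => hh.2 h1
      have h3 : u ∉ Uu G (stb K y) := fun hh => hh (hmono h1)
      simp [h1, h2, h3]
    · by_cases h2 : u ∈ Rt G (stb K y)
      · have h2' : u ∈ NN G K y := ⟨h2, h1⟩
        have h3 : u ∉ Uu G (stb K y) := fun hh => hh h2
        simp [h1, h2', h3]
      · have h2' : u ∉ NN G K y := fun hh => h2 hh.1
        have h3 : u ∈ Uu G (stb K y) := h2
        simp [h1, h2', h3]
  have hdeg : ∀ z, ∑ u, ec_a G z u = 3 := by
    intro z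
    have := ec_sum (G := G) Set.univ z
    simp only [Set.mem_univ, Finset.filter_true, true_and] at this
    rw [this]
    exact h.cub z
  have htot : ∑ z ∈ Finset.univ.filter (fun u => u ∈ NN G K y), ∑ u, ec_a G z u
      = 3 * (NN G K y).ncard := by
    rw [Finset.sum_congr rfl fun z _ => hdeg z, Finset.sum_const, smul_eq_mul, ec_card, mul_comm]
  rw [← htot]
  rw [Finset.sum_congr rfl fun z _ => hsplit (ec_a G z), Finset.sum_add_distrib,
    Finset.sum_add_distrib]
  have hA : ∑ z ∈ Finset.univ.filter (fun u => u ∈ NN G K y),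
      ∑ u ∈ Finset.univ.filter (fun u => u ∈ Rt G K), ec_a G z u = 2 * (Cn G K y).ncard := by
    rw [Finset.sum_comm]
    have hsym : ∀ u z, ec_a G z u = ec_a G u z := by
      intro u z
      unfold ec_a
      rw [G.adj_comm]
    rw [Finset.sum_congr rfl fun u _ => Finset.sum_congr rfl fun z _ => hsym u z]
    rw [Finset.sum_congr rfl fun u _ => ec_sum (G := G) (NN G K y) u]
    apply ec_two (Rt G K) (Cn G K y) (fun v hv => hv.1)
    · intro v hv
      exact (Cn_two h hv).1
    · intro v hv hv'
      rw [Set.ncard_eq_zero]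
      ext z
      simp only [Set.mem_setOf_eq, Set.mem_empty_iff_false, iff_false, not_and]
      intro hz hadj
      exact hv' ⟨hv, z, hz, hadj⟩
  have hB : ∑ z ∈ Finset.univ.filter (fun u => u ∈ NN G K y),
      ∑ u ∈ Finset.univ.filter (fun u => u ∈ Uu G (stb K y)), ec_a G z u
        = 2 * (Bn G K y).ncard := by
    rw [Finset.sum_congr rfl fun u _ => ec_sum (G := G) (Uu G (stb K y)) u]
    apply ec_two (NN G K y) (Bn G K y) (fun v hv => hv.1)
    · intro v hv
      exact Bn_two h hv
    · intro v hv hv'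
      rw [Set.ncard_eq_zero]
      ext z
      simp only [Set.mem_setOf_eq, Set.mem_empty_iff_false, iff_false, not_and]
      intro hz hadj
      exact hv' ⟨hv, z, hz, hadj⟩
  have hE : ∑ z ∈ Finset.univ.filter (fun u => u ∈ NN G K y),
      ∑ u ∈ Finset.univ.filter (fun u => u ∈ NN G K y), ec_a G z u = eN G K y := by
    unfold eN
    rw [ec_card, ← Finset.sum_product']
    unfold ec_a
    rw [Finset.sum_ite, Finset.sum_const_zero, add_zero, Finset.sum_const, smul_eq_mul, mul_one]
    congr 1
    ext p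
    simp only [Finset.mem_filter, Finset.mem_product, Finset.mem_univ, true_and, Set.mem_setOf_eq]
    tauto
  rw [hA, hB, hE]
  ring

end j10edge

end Pool.Agent.Helper613.Cub
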