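import Pool.Agent.Helper613.Cub.Base
import Pool.Agent.Helper613.Cub.j10edge
import Pool.Agent.Helper613.Cub.j2sw
import Pool.Agent.Helper613.Cub.j3card
import Pool.Agent.Helper613.Cub.j4ok
import Pool.Agent.Helper613.Cub.j5free
import Pool.Agent.Helper613.Cub.j6restr
import Pool.Agent.Helper613.Cub.j7out
import Pool.Agent.Helper613.Cub.j8om
import Pool.Agent.Helper613.Cub.j9bd

set_option autoImplicit false


open scoped Classical

noncomputable section

namespace Pool.Agent.Helper613.Cub

namespace j11cn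

open j10edge
open j2sw
open j3card
open j4ok
open j5free
open j6restr
open j7out
open j8om
open j9bd

variable {V : Type} [Fintype V] {G : SimpleGraph V} {K : Subgroup (Equiv.Perm V)} {x y w : V} {g : Equiv.Perm V}
lemma j11_ncard (S : Set V) : S.ncard = (Finset.univ.filter (· ∈ S)).card := by
  rw [← Set.ncard_coe_finset]
  congr 1
  ext v
  simp

lemma Uu_card (h : Sw G K x y g w) :
    (Uu G K).ncard = (Uu G (stb K y)).ncard + (NN G K y).ncard := by
  have hsub : Rt G K ⊆ Rt G (stb K y) := Rt_mono (stb_le K y)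
  have heq : Uu G K = Uu G (stb K y) ∪ NN G K y := by
    ext v
    constructor
    · intro hv
      by_cases h1 : v ∈ Rt G (stb K y)
      · exact Or.inr ⟨h1, hv⟩
      · exact Or.inl h1
    · rintro (h1 | h1)
      · exact fun h2 => h1 (hsub h2)
      · exact h1.2
  have hd : Disjoint (Uu G (stb K y)) (NN G K y) := by
    rw [Set.disjoint_left]
    intro v h1 h2
    exact h1 h2.1
  rw [heq, Set.ncard_union_eq hd (Set.toFinite _) (Set.toFinite _)]

lemma Cn_le (h4 : No4 G) (h : Sw G K x y g w) : 2 * (Cn G K y).ncard ≤ (NN G K y).ncard := by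
  rw [j11_ncard (Cn G K y), j11_ncard (NN G K y)]
  have hdisj : ∀ a ∈ Finset.univ.filter (· ∈ Cn G K y), ∀ b ∈ Finset.univ.filter (· ∈ Cn G K y),
      a ≠ b → Disjoint (Finset.univ.filter (· ∈ {z | z ∈ NN G K y ∧ G.Adj a z}))
        (Finset.univ.filter (· ∈ {z | z ∈ NN G K y ∧ G.Adj b z})) := by
    intro a ha b hb hab
    rw [Finset.disjoint_left]
    intro z hz1 hz2
    rw [Finset.mem_filter] at ha hb hz1 hz2
    have ha1 : a ∈ Rt G K := ha.2.1
    have hb1 : b ∈ Rt G K := hb.2.1
    obtain ⟨hzN, haz⟩ := hz1.2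
    obtain ⟨_, hbz⟩ := hz2.2
    obtain ⟨_, hgz, _⟩ := NN_free h hzN
    have hga : g a = a := ha1.1 g h.hg
    have hgb : g b = b := hb1.1 g h.hg
    have haut := h.ok.le h.hg
    have h1 : G.Adj (g z) a := by
      have := (haut z a).2 haz.symm
      rwa [hga] at this
    have h2 : G.Adj (g z) b := by
      have := (haut z b).2 hbz.symm
      rwa [hgb] at this
    exact h4 z (g z) a b hgz.symm hab haz.symm hbz.symm h1 h2
  have hsum : (Finset.univ.filter (· ∈ Cn G K y)).card * 2 =
      ((Finset.univ.filter (· ∈ Cn G K y)).biUnion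
        fun a => Finset.univ.filter (· ∈ {z | z ∈ NN G K y ∧ G.Adj a z})).card := by
    rw [Finset.card_biUnion hdisj]
    rw [Finset.sum_const_nat (m := 2)]
    intro a ha
    have e := (Cn_two h (Finset.mem_filter.1 ha).2).1
    rw [j11_ncard] at e
    convert e
  rw [mul_comm, hsum]
  apply Finset.card_le_card
  intro z hz
  obtain ⟨a, _, hz1⟩ := Finset.mem_biUnion.1 hz
  rw [Finset.mem_filter] at hz1 ⊢
  exact ⟨Finset.mem_univ _, hz1.2.1⟩

end j11cn

end Pool.Agent.Helper613.Cub
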