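import Pool.Agent.Helper613.Cub.Base
import Pool.Agent.Helper613.Cub.j2sw
import Pool.Agent.Helper613.Cub.j3card
import Pool.Agent.Helper613.Cub.j4ok
import Pool.Agent.Helper613.Cub.j5free
import Pool.Agent.Helper613.Cub.j6restr
import Pool.Agent.Helper613.Cub.j7out
import Pool.Agent.Helper613.Cub.j8om
import Pool.Agent.Helper613.Cub.j9bd

set_option autoImplicit false


open scoped Classical

noncomputable section

namespace Pool.Agent.Helper613.Cub

namespace j12conn

open j2sw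
open j3card
open j4ok
open j5free
open j6restr
open j7out
open j8om
open j9bd

variable {V : Type} [Fintype V] {G : SimpleGraph V} {K : Subgroup (Equiv.Perm V)} {x y w : V} {g : Equiv.Perm V}
lemma two_rel {α β : Type*} [Finite α] [Finite β] (T : Set β) (S : Set α) (ρ : β → α → Prop)
    (h1 : ∀ t ∈ T, ∃ a ∈ S, ∃ b ∈ S, a ≠ b ∧ ρ t a ∧ ρ t b)
    (h2 : ∀ t ∈ T, ∀ t' ∈ T, ∀ a, ρ t a → ρ t' a → t = t') :
    2 * T.ncard ≤ S.ncard := by
  rcases T.eq_empty_or_nonempty with rfl | ⟨t0, ht0⟩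
  · simp
  · obtain ⟨a0, -, -⟩ := h1 t0 ht0
    haveI : Nonempty α := ⟨a0⟩
    choose! fa ha fb hb hab hρa hρb using h1
    have i1 : Set.InjOn fa T := fun t ht t' ht' h =>
      h2 t ht t' ht' (fa t) (hρa t ht) (by rw [h]; exact hρa t' ht')
    have i2 : Set.InjOn fb T := fun t ht t' ht' h =>
      h2 t ht t' ht' (fb t) (hρb t ht) (by rw [h]; exact hρb t' ht')
    have hd : Disjoint (fa '' T) (fb '' T) := by
      rw [Set.disjoint_left]
      rintro _ ⟨t, ht, rfl⟩ ⟨t', ht', he⟩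
      have : t = t' := h2 t ht t' ht' (fa t) (hρa t ht) (by rw [← he]; exact hρb t' ht')
      subst this
      exact hab t ht he.symm
    calc 2 * T.ncard = (fa '' T).ncard + (fb '' T).ncard := by
          rw [Set.ncard_image_of_injOn i1, Set.ncard_image_of_injOn i2]; ring
      _ = (fa '' T ∪ fb '' T).ncard :=
          (Set.ncard_union_eq hd (Set.toFinite _) (Set.toFinite _)).symm
      _ ≤ S.ncard := by
          apply Set.ncard_le_ncard _ (Set.toFinite _)
          rintro z (⟨t, ht, rfl⟩ | ⟨t, ht, rfl⟩)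
          · exact ha t ht
          · exact hb t ht

lemma le_two_image {α β : Type*} [Finite α] (S : Set α) (f : α → β)
    (h : ∀ a ∈ S, ∃ b, ∀ a' ∈ S, f a' = f a → a' = a ∨ a' = b) :
    S.ncard ≤ 2 * (f '' S).ncard := by
  have h1 := Finset.card_le_mul_card_image (f := f) (S.toFinite.toFinset) 2 (by
    intro t ht
    rw [Finset.mem_image] at ht
    obtain ⟨a, ha, rfl⟩ := ht
    rw [Set.Finite.mem_toFinset] at ha
    obtain ⟨b, hb⟩ := h a ha
    have : (S.toFinite.toFinset.filter fun x => f x = f a) ⊆ {a, b} := by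
      intro x hx
      rw [Finset.mem_filter, Set.Finite.mem_toFinset] at hx
      rw [Finset.mem_insert, Finset.mem_singleton]
      exact hb x hx.1 hx.2
    exact (Finset.card_le_card this).trans Finset.card_le_two)
  have h2 : S.ncard = S.toFinite.toFinset.card := Set.ncard_eq_toFinset_card S
  have h3 : (f '' S).ncard = (S.toFinite.toFinset.image f).card := by
    rw [← Set.ncard_coe_finset]
    congr 1
    simp
  rw [h2, h3]
  exact h1

lemma cl_eq_iff {W : Set V} {a b : V} : cl G K W a = cl G K W b ↔ Rl G K W a b := by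
  constructor
  · intro h
    have h1 : b ∈ cl G K W b := Relation.EqvGen.refl b
    rw [← h] at h1
    exact h1
  · intro h
    ext z
    exact ⟨fun hz => Relation.EqvGen.trans _ _ _ (Relation.EqvGen.symm _ _ h) hz,
      fun hz => Relation.EqvGen.trans _ _ _ h hz⟩

lemma cl_mv {W : Set V} {σ : Equiv.Perm V} (hσ : σ ∈ K) (a : V) :
    cl G K W (σ a) = cl G K W a :=
  cl_eq_iff.2 (Relation.EqvGen.symm _ _ (Relation.EqvGen.rel _ _ (Or.inr ⟨σ, hσ, rfl⟩)))

lemma cl_adj {W : Set V} {a b : V} (ha : a ∈ W) (hb : b ∈ W) (hab : G.Adj a b) :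
    cl G K W a = cl G K W b :=
  cl_eq_iff.2 (Relation.EqvGen.rel _ _ (Or.inl ⟨ha, hb, hab⟩))

lemma NN_mv (h : Sw G K x y g w) {a : V} (ha : a ∈ NN G K y) {σ : Equiv.Perm V} (hσ : σ ∈ K) :
    σ a = a ∨ σ a = g a := by
  rcases coset h σ hσ with h1 | h1
  · left
    exact ha.1.1 σ h1
  · right
    have h2 : (g * σ) a = a := ha.1.1 _ h1
    rw [Equiv.Perm.mul_apply] at h2
    have h3 := (NN_free h ha).2.2
    exact g.injective (h2.trans h3.symm)

lemma NN_cl (h : Sw G K x y g w) {a : V} (ha : a ∈ NN G K y) :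
    ∀ u v, Rl G K (Uu G (stb K y)) u v → ((u = a ∨ u = g a) ↔ (v = a ∨ v = g a)) := by
  obtain ⟨hga, hne, hgg⟩ := NN_free h ha
  have hin : ∀ u, (u = a ∨ u = g a) → u ∈ NN G K y := by
    rintro u (rfl | rfl)
    · exact ha
    · exact hga
  have hmv : ∀ σ ∈ K, ∀ u, (u = a ∨ u = g a) → (σ u = a ∨ σ u = g a) := by
    rintro σ hσ u (rfl | rfl)
    · exact NN_mv h ha hσ
    · rcases NN_mv h hga hσ with h1 | h1
      · right; exact h1
      · left; rw [h1, hgg]
  intro u v huv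
  induction huv with
  | rel u v huv =>
    rcases huv with ⟨hu, hv, -⟩ | ⟨σ, hσ, rfl⟩
    · constructor
      · intro h1
        exact absurd (hin u h1).1 hu
      · intro h1
        exact absurd (hin v h1).1 hv
    · constructor
      · exact hmv σ hσ u
      · intro h1
        have := hmv σ⁻¹ (K.inv_mem hσ) (σ u) h1
        simpa using this
  | refl u => exact Iff.rfl
  | symm u v _ ih => exact ih.symm
  | trans u v w _ _ ih1 ih2 => exact ih1.trans ih2

lemma NN_cl' (h : Sw G K x y g w) {a b : V} (ha : a ∈ NN G K y)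
    (hab : cl G K (Uu G (stb K y)) b = cl G K (Uu G (stb K y)) a) : b = a ∨ b = g a := by
  have h1 := cl_eq_iff.1 hab
  exact (NN_cl h ha b a h1).2 (Or.inl rfl)

lemma O_split (h : Sw G K x y g w) {a : V} (ha : a ∈ OO G K y) :
    a ∈ NN G K y ∨ a ∈ OO G K y ∩ Uu G (stb K y) := by
  by_cases h1 : a ∈ Rt G (stb K y)
  · left
    exact ⟨h1, cl_sub h.hy ha⟩
  · right
    exact ⟨ha, h1⟩

lemma g_OO (h : Sw G K x y g w) {a b : V}
    (hab : Rl G K (Uu G K) a b) : a ∈ OO G K y ↔ b ∈ OO G K y :=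
  ⟨fun h1 => Relation.EqvGen.trans _ _ _ h1 hab,
    fun h1 => Relation.EqvGen.trans _ _ _ h1 (Relation.EqvGen.symm _ _ hab)⟩

/-- the quotient graph -/
def Qg (G : SimpleGraph V) (K : Subgroup (Equiv.Perm V)) (y : V) :
    SimpleGraph ↥(cl G K (Uu G (stb K y)) '' OO G K y) :=
  SimpleGraph.fromRel fun s t => ∃ a ∈ OO G K y, ∃ b ∈ OO G K y,
    cl G K (Uu G (stb K y)) a = s.1 ∧ cl G K (Uu G (stb K y)) b = t.1 ∧ G.Adj a b

lemma Qg_adj {s t : ↥(cl G K (Uu G (stb K y)) '' OO G K y)} :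
    (Qg G K y).Adj s t ↔ s ≠ t ∧ ∃ a ∈ OO G K y, ∃ b ∈ OO G K y,
    cl G K (Uu G (stb K y)) a = s.1 ∧ cl G K (Uu G (stb K y)) b = t.1 ∧ G.Adj a b := by
  unfold Qg
  rw [SimpleGraph.fromRel_adj]
  constructor
  · rintro ⟨h1, h2 | ⟨a, ha, b, hb, e1, e2, hab⟩⟩
    · exact ⟨h1, h2⟩
    · exact ⟨h1, b, hb, a, ha, e2, e1, hab.symm⟩
  · rintro ⟨h1, h2⟩
    exact ⟨h1, Or.inl h2⟩

lemma Qg_conn (h : Sw G K x y g w) : (Qg G K y).Connected := by
  have hyO : y ∈ OO G K y := Relation.EqvGen.refl y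
  have key : ∀ u v, Rl G K (Uu G K) u v → ∀ (hu : u ∈ OO G K y) (hv : v ∈ OO G K y),
      (Qg G K y).Reachable ⟨_, u, hu, rfl⟩ ⟨_, v, hv, rfl⟩ := by
    intro u v huv
    induction huv with
    | rel u v huv =>
      intro hu hv
      rcases huv with ⟨-, -, hadj⟩ | ⟨σ, hσ, rfl⟩
      · by_cases he : (⟨cl G K (Uu G (stb K y)) u, u, hu, rfl⟩ :
            ↥(cl G K (Uu G (stb K y)) '' OO G K y)) = ⟨cl G K (Uu G (stb K y)) v, v, hv, rfl⟩
        · rw [he]
        · exact (Qg_adj.2 ⟨he, u, hu, v, hv, rfl, rfl, hadj⟩).reachable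
      · have he : (⟨cl G K (Uu G (stb K y)) u, u, hu, rfl⟩ :
            ↥(cl G K (Uu G (stb K y)) '' OO G K y)) =
            ⟨cl G K (Uu G (stb K y)) (σ u), σ u, hv, rfl⟩ := Subtype.ext (cl_mv hσ u).symm
        rw [he]
    | refl u => intro hu hv; exact SimpleGraph.Reachable.refl _
    | symm u v _ ih => intro hu hv; exact (ih hv hu).symm
    | trans u v w huv hvw ih1 ih2 =>
      intro hu hv
      have hm := (g_OO h huv).1 hu
      exact (ih1 hu hm).trans (ih2 hm hv)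
  rw [SimpleGraph.connected_iff_exists_forall_reachable]
  refine ⟨⟨_, y, hyO, rfl⟩, ?_⟩
  rintro ⟨_, a, ha, rfl⟩
  exact key y a ha hyO ha

lemma conn_ineq (h : Sw G K x y g w) :
    2 * (NN G K y).ncard + 4 * omm G K y + {a | a ∈ NN G K y ∧ G.Adj a (g a)}.ncard
      ≤ 4 + eN G K y + 2 * (Bn G K y).ncard := by
  have hAut : ∀ u v, G.Adj (g u) (g v) ↔ G.Adj u v := h.ok.le h.hg
  have hK' : stb K y ≤ AutS G := (stb_le K y).trans h.ok.le
  have hgU : ∀ v, v ∈ Uu G (stb K y) → g v ∈ Uu G (stb K y) := by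
    intro v hv hgv
    exact hv ((g_Rt h v).1 hgv)
  -- vertices of the quotient graph
  have hV : Nat.card ↥(cl G K (Uu G (stb K y)) '' OO G K y) =
      (cl G K (Uu G (stb K y)) '' NN G K y).ncard + omm G K y := by
    rw [Nat.card_coe_set_eq, omm, ← Set.ncard_union_eq _ (Set.toFinite _) (Set.toFinite _),
      ← Set.image_union]
    · congr 2
      ext a
      constructor
      · intro ha
        exact O_split h ha
      · rintro (ha | ha)
        · exact out_Rt h ha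
        · exact ha.1
    · rw [Set.disjoint_left]
      rintro _ ⟨a, ha, rfl⟩ ⟨b, hb, he⟩
      rcases NN_cl' h ha he with rfl | rfl
      · exact hb.2 ha.1
      · exact hb.2 (NN_free h ha).1.1
  have hN2 : (NN G K y).ncard ≤ 2 * (cl G K (Uu G (stb K y)) '' NN G K y).ncard := by
    apply le_two_image
    intro a ha
    exact ⟨g a, fun a' _ he => NN_cl' h ha he⟩
  -- darts
  have hconn := (Qg_conn h).card_vert_le_card_edgeSet_add_one
  have hdart : Nat.card (Qg G K y).Dart = 2 * Nat.card (Qg G K y).edgeSet := by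
    have := (Qg G K y).dart_card_eq_twice_card_edges
    rw [Nat.card_eq_fintype_card, this, Nat.card_eq_fintype_card, SimpleGraph.edgeFinset_card]
  haveI : Finite (Qg G K y).Dart := Finite.of_fintype _
  let c : V → Set V := cl G K (Uu G (stb K y))
  let DNN : Set (Qg G K y).Dart := {d | d.fst.1 ∈ c '' NN G K y ∧ d.snd.1 ∈ c '' NN G K y}
  let DNU : Set (Qg G K y).Dart :=
    {d | d.fst.1 ∈ c '' NN G K y ∧ d.snd.1 ∈ c '' (OO G K y ∩ Uu G (stb K y))}
  have hmN : ∀ a ∈ OO G K y, c a ∈ c '' NN G K y → a ∈ NN G K y := by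
    rintro a ha ⟨n, hn, he⟩
    rcases NN_cl' h hn he.symm with rfl | rfl
    · exact hn
    · exact (NN_free h hn).1
  have hmU : ∀ b ∈ OO G K y, c b ∈ c '' (OO G K y ∩ Uu G (stb K y)) → b ∈ Uu G (stb K y) := by
    rintro b hb ⟨n, hn, he⟩
    rcases O_split h hb with hbN | hbU
    · exfalso
      rcases NN_cl' h hbN he with rfl | rfl
      · exact hn.2 hbN.1
      · exact hn.2 (NN_free h hbN).1.1
    · exact hbU.2
  have hall : (Set.univ : Set (Qg G K y).Dart) ⊆ DNN ∪ (DNU ∪ SimpleGraph.Dart.symm '' DNU) := by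
    intro d _
    obtain ⟨hne, a, ha, b, hb, e1, e2, hab⟩ := Qg_adj.1 d.adj
    rcases O_split h ha with ha' | ha' <;> rcases O_split h hb with hb' | hb'
    · left
      exact ⟨⟨a, ha', e1⟩, ⟨b, hb', e2⟩⟩
    · right; left
      exact ⟨⟨a, ha', e1⟩, ⟨b, hb', e2⟩⟩
    · right; right
      refine ⟨d.symm, ⟨⟨b, hb', e2⟩, ⟨a, ha', e1⟩⟩, SimpleGraph.Dart.symm_symm d⟩
    · exfalso
      apply hne
      apply Subtype.ext
      rw [← e1, ← e2]
      exact cl_adj ha'.2 hb'.2 hab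
  have hcount : Nat.card (Qg G K y).Dart ≤ DNN.ncard + (DNU.ncard + DNU.ncard) := by
    rw [← Set.ncard_univ]
    refine (Set.ncard_le_ncard hall (Set.toFinite _)).trans ?_
    refine (Set.ncard_union_le _ _).trans ?_
    refine Nat.add_le_add_left ?_ _
    refine (Set.ncard_union_le _ _).trans ?_
    exact Nat.add_le_add_left (Set.ncard_image_le (Set.toFinite _)) _
  -- first bound
  have hb1 : 2 * DNN.ncard ≤ {p : V × V | p.1 ∈ NN G K y ∧ p.2 ∈ NN G K y ∧ G.Adj p.1 p.2 ∧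
      p.2 ≠ g p.1}.ncard := by
    apply two_rel DNN _ (fun d p => c p.1 = d.fst.1 ∧ c p.2 = d.snd.1)
    · rintro d ⟨hd1, hd2⟩
      obtain ⟨hne, a, ha, b, hb, e1, e2, hab⟩ := Qg_adj.1 d.adj
      have ha' : a ∈ NN G K y := hmN a ha (by rw [show c a = d.fst.1 from e1]; exact hd1)
      have hb' : b ∈ NN G K y := hmN b hb (by rw [show c b = d.snd.1 from e2]; exact hd2)
      have hbg : b ≠ g a := by
        rintro rfl
        apply hne
        apply Subtype.ext
        rw [← e1, ← e2]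
        exact (cl_mv h.hg a).symm
      refine ⟨(a, b), ⟨ha', hb', hab, hbg⟩, (g a, g b), ⟨(NN_free h ha').1, (NN_free h hb').1,
        (hAut a b).2 hab, fun h' => hbg (g.injective h')⟩, ?_, ⟨e1, e2⟩, ⟨?_, ?_⟩⟩
      · intro he
        exact (NN_free h ha').2.1 (congrArg Prod.fst he).symm
      · exact (cl_mv h.hg a).trans e1
      · exact (cl_mv h.hg b).trans e2
    · rintro d - d' - p ⟨h1, h2⟩ ⟨h3, h4⟩
      apply SimpleGraph.Dart.ext
      apply Prod.ext
      · exact Subtype.ext (h1.symm.trans h3)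
      · exact Subtype.ext (h2.symm.trans h4)
  have hb2 : 2 * DNU.ncard ≤ (Bn G K y).ncard := by
    apply two_rel DNU _ (fun d a => a ∈ Rt G (stb K y) ∧ c a = d.fst.1 ∧
      ∃ u ∈ Uu G (stb K y), G.Adj a u ∧ c u = d.snd.1)
    · rintro d ⟨hd1, hd2⟩
      obtain ⟨hne, a, ha, b, hb, e1, e2, hab⟩ := Qg_adj.1 d.adj
      have ha' : a ∈ NN G K y := hmN a ha (by rw [show c a = d.fst.1 from e1]; exact hd1)
      have hb' : b ∈ Uu G (stb K y) := hmU b hb (by rw [show c b = d.snd.1 from e2]; exact hd2)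
      have hga := NN_free h ha'
      refine ⟨a, ⟨ha', b, hb', hab⟩, g a, ⟨hga.1, g b, hgU b hb', (hAut a b).2 hab⟩, hga.2.1.symm,
        ⟨ha'.1, e1, b, hb', hab, e2⟩, ⟨hga.1.1, (cl_mv h.hg a).trans e1, g b, hgU b hb',
          (hAut a b).2 hab, (cl_mv h.hg b).trans e2⟩⟩
    · rintro d - d' - a ⟨ha, h1, u, hu, hau, h2⟩ ⟨-, h3, u', hu', hau', h4⟩
      apply SimpleGraph.Dart.ext
      apply Prod.ext
      · exact Subtype.ext (h1.symm.trans h3)
      · obtain ⟨σ, hσ, hσu⟩ := bd_class h.cub hK' ha hu hu' hau hau'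
        apply Subtype.ext
        rw [← h2, ← h4, ← hσu]
        exact (cl_mv (stb_le K y hσ) u).symm
  have he : {p : V × V | p.1 ∈ NN G K y ∧ p.2 ∈ NN G K y ∧ G.Adj p.1 p.2 ∧
      p.2 ≠ g p.1}.ncard + {a | a ∈ NN G K y ∧ G.Adj a (g a)}.ncard ≤ eN G K y := by
    have e1 : {a | a ∈ NN G K y ∧ G.Adj a (g a)}.ncard =
        ((fun a => (a, g a)) '' {a | a ∈ NN G K y ∧ G.Adj a (g a)}).ncard := by
      rw [Set.ncard_image_of_injective]
      intro a b hab
      exact congrArg Prod.fst hab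
    rw [e1, ← Set.ncard_union_eq _ (Set.toFinite _) (Set.toFinite _)]
    · apply Set.ncard_le_ncard _ (Set.toFinite _)
      rintro p (⟨h1, h2, h3, -⟩ | ⟨a, ⟨ha, hag⟩, rfl⟩)
      · exact ⟨h1, h2, h3⟩
      · exact ⟨ha, (NN_free h ha).1, hag⟩
    · rw [Set.disjoint_left]
      rintro _ ⟨-, -, -, h4⟩ ⟨a, -, rfl⟩
      exact h4 rfl
  omega

end j12conn

end Pool.Agent.Helper613.Cub
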