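import Pool.Agent.Helper613.Cub.Base
import Pool.Agent.Helper613.Cub.j2sw
import Pool.Agent.Helper613.Cub.j3card
import Pool.Agent.Helper613.Cub.j4ok
import Pool.Agent.Helper613.Cub.j5free
import Pool.Agent.Helper613.Cub.j6restr
import Pool.Agent.Helper613.Cub.j7out
import Pool.Agent.Helper613.Cub.j8om
import Pool.Agent.Helper613.Cub.j9bd

set_option autoImplicit false


open scoped Classical

noncomputable section

namespace Pool.Agent.Helper613.Cub

namespace j13att2

open j2sw
open j3card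
open j4ok
open j5free
open j6restr
open j7out
open j8om
open j9bd

variable {V : Type} [Fintype V] {G : SimpleGraph V} {K : Subgroup (Equiv.Perm V)} {x y w : V} {g : Equiv.Perm V}
lemma g_Rl (h : Sw G K x y g w) {a b : V}
    (hab : Rl G (stb K y) (Uu G (stb K y)) a b) :
    Rl G (stb K y) (Uu G (stb K y)) (g a) (g b) := by
  induction hab with
  | rel a b hr =>
    apply Relation.EqvGen.rel
    rcases hr with ⟨h1, h2, h3⟩ | ⟨σ, hσ, rfl⟩
    · left
      refine ⟨?_, ?_, ?_⟩
      · intro hh; exact h1 ((g_Rt h a).1 hh)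
      · intro hh; exact h2 ((g_Rt h b).1 hh)
      · exact (h.ok.le h.hg a b).2 h3
    · right
      refine ⟨g * σ * g⁻¹, (conj_mem h hσ).1, ?_⟩
      simp [Equiv.Perm.mul_apply]
  | refl a => exact Relation.EqvGen.refl _
  | symm a b _ ih => exact Relation.EqvGen.symm _ _ ih
  | trans a b c _ _ ih1 ih2 => exact Relation.EqvGen.trans _ _ _ ih1 ih2

lemma att_two (h : Sw G K x y g w) {a : V} (ha : a ∈ OO G K y) (ha' : a ∈ Uu G (stb K y)) :
    2 ≤ {z | z ∈ Bn G K y ∧ ∃ u ∈ cl G (stb K y) (Uu G (stb K y)) a, G.Adj z u}.ncard := by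
  classical
  set K' := stb K y with hK'
  set C : Set V := cl G K' (Uu G K') a with hC
  have hK'le : K' ≤ AutS G := (stb_le K y).trans h.ok.le
  have hU'U : Uu G K' ⊆ Uu G K := by
    intro v hv hv'
    exact hv (Rt_mono (stb_le K y) hv')
  have hCU : C ⊆ Uu G K' := cl_sub ha'
  have haC : a ∈ C := Relation.EqvGen.refl _
  have hCadj : ∀ b ∈ C, ∀ c ∈ Uu G K', G.Adj b c → c ∈ C := by
    intro b hb c hc hbc
    exact Relation.EqvGen.trans _ _ _ hb (Relation.EqvGen.rel _ _ (Or.inl ⟨hCU hb, hc, hbc⟩))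
  have hCK : ∀ b ∈ C, ∀ σ ∈ K', σ b ∈ C := by
    intro b hb σ hσ
    exact Relation.EqvGen.trans _ _ _ hb (Relation.EqvGen.rel _ _ (Or.inr ⟨σ, hσ, rfl⟩))
  have hyR : y ∈ Rt G K' := by
    refine ⟨?_, x, ?_, ?_⟩
    · intro σ hσ
      exact hσ.2
    · exact Fx_mono (stb_le K y) h.hx.1
    · exact ((h.nb y).2 (Or.inl rfl)).symm
  by_cases hga : g a ∈ C
  · -- C is closed under g
    have hgC : ∀ b ∈ C, g b ∈ C := by
      intro b hb
      exact Relation.EqvGen.trans _ _ _ hga (g_Rl h hb)
    have hKC : ∀ b ∈ C, ∀ σ ∈ K, σ b ∈ C := by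
      intro b hb σ hσ
      rcases coset h σ hσ with h1 | h1
      · exact hCK b hb σ h1
      · have h2 := hgC _ (hCK b hb _ h1)
        have h3 := hCK _ h2 _ (K'.inv_mem (sq_mem h))
        have h4 : (g * g)⁻¹ (g ((g * σ) b)) = σ b := by
          rw [Equiv.Perm.inv_eq_iff_eq]
          simp [Equiv.Perm.mul_apply]
        rwa [h4] at h3
    have key : ∃ u ∈ C, ∃ z ∈ NN G K y, G.Adj u z := by
      by_contra hno
      push Not at hno
      have hUadj : ∀ b ∈ C, ∀ c ∈ Uu G K, G.Adj b c → c ∈ C := by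
        intro b hb c hc hbc
        by_cases hcU : c ∈ Uu G K'
        · exact hCadj b hb c hcU hbc
        · exfalso
          have hcR : c ∈ Rt G K' := by
            by_contra hh; exact hcU hh
          exact hno b hb c ⟨hcR, hc⟩ hbc
      have hiff : ∀ b c, Rl G K (Uu G K) b c → (b ∈ C ↔ c ∈ C) := by
        intro b c hbc
        induction hbc with
        | rel b c hr =>
          rcases hr with ⟨h1, h2, h3⟩ | ⟨σ, hσ, rfl⟩
          · exact ⟨fun hh => hUadj b hh c h2 h3, fun hh => hUadj c hh b h1 h3.symm⟩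
          · refine ⟨fun hh => hKC b hh σ hσ, fun hh => ?_⟩
            have := hKC _ hh _ (K.inv_mem hσ)
            simpa using this
        | refl b => exact Iff.rfl
        | symm b c _ ih => exact ih.symm
        | trans b c d _ _ ih1 ih2 => exact ih1.trans ih2
      have hyC : y ∈ C := (hiff y a ha).2 haC
      exact hCU hyC hyR
    obtain ⟨u, huC, z, hz, huz⟩ := key
    have hsub : ({z, g z} : Set V) ⊆
        {z | z ∈ Bn G K y ∧ ∃ u ∈ C, G.Adj z u} := by
      intro t ht
      rcases ht with rfl | rfl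
      · exact ⟨⟨hz, u, hCU huC, huz.symm⟩, u, huC, huz.symm⟩
      · have hadj : G.Adj (g z) (g u) := (h.ok.le h.hg z u).2 huz.symm
        exact ⟨⟨(NN_free h hz).1, g u, hCU (hgC u huC), hadj⟩, g u, hgC u huC, hadj⟩
    have hcard : ({z, g z} : Set V).ncard = 2 :=
      Set.ncard_pair (fun hh => (NN_free h hz).2.1 hh.symm)
    rw [← hcard]
    exact Set.ncard_le_ncard hsub (Set.toFinite _)
  · by_contra hlt
    have hle : {z | z ∈ Bn G K y ∧ ∃ u ∈ C, G.Adj z u}.ncard ≤ 2 := by omega
    have hgaU : g a ∈ Uu G K' := fun hh => ha' ((g_Rt h a).1 hh)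
    have hcon := h.con _ C hle ⟨a, haC⟩ ?_ ?_
    · have : g a ∈ C ∪ {z | z ∈ Bn G K y ∧ ∃ u ∈ C, G.Adj z u} := by
        rw [hcon]; trivial
      rcases this with h1 | h1
      · exact hga h1
      · exact hgaU h1.1.1.1
    · rw [Set.disjoint_left]
      intro t ht ht'
      exact hCU ht ht'.1.1.1
    · intro b hb c hbc
      by_cases hcC : c ∈ C
      · exact Or.inl hcC
      · right
        have hcR : c ∈ Rt G K' := by
          by_contra hh
          exact hcC (hCadj b hb c hh hbc)
        have hcK : c ∉ Rt G K := by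
          intro hcK
          have hgc : g c = c := hcK.1 g h.hg
          have hadj : G.Adj c (g b) := by
            have := (h.ok.le h.hg c b).2 hbc.symm
            rwa [hgc] at this
          have hgbU : g b ∈ Uu G K' := fun hh => hCU hb ((g_Rt h b).1 hh)
          obtain ⟨σ, hσ, hσb⟩ := bd_class h.cub hK'le hcR (hCU hb) hgbU hbc.symm hadj
          have hgbC : g b ∈ C := by rw [← hσb]; exact hCK b hb σ hσ
          exact hga (Relation.EqvGen.trans _ _ _ hgbC (Relation.EqvGen.symm _ _ (g_Rl h hb)))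
        exact ⟨⟨⟨hcR, hcK⟩, b, hCU hb, hbc.symm⟩, b, hb, hbc.symm⟩

end j13att2

end Pool.Agent.Helper613.Cub
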