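import Pool.Agent.Helper613.Cub.Base
import Pool.Agent.Helper613.Cub.j2sw
import Pool.Agent.Helper613.Cub.j3card
import Pool.Agent.Helper613.Cub.j4ok
import Pool.Agent.Helper613.Cub.j5free
import Pool.Agent.Helper613.Cub.j6restr
import Pool.Agent.Helper613.Cub.j7out
import Pool.Agent.Helper613.Cub.j8om
import Pool.Agent.Helper613.Cub.j9bd

set_option autoImplicit false


open scoped Classical

noncomputable section

namespace Pool.Agent.Helper613.Cub

namespace j14att3

open j2sw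
open j3card
open j4ok
open j5free
open j6restr
open j7out
open j8om
open j9bd

variable {V : Type} [Fintype V] {G : SimpleGraph V} {K : Subgroup (Equiv.Perm V)} {x y w : V} {g : Equiv.Perm V}
lemma att_three (h : Sw G K x y g w) {a : V} (ha : a ∈ OO G K y) (ha' : a ∈ Uu G (stb K y))
    (hga : g a ∉ cl G (stb K y) (Uu G (stb K y)) a) :
    3 ≤ {z | z ∈ Bn G K y ∧ ∃ u ∈ cl G (stb K y) (Uu G (stb K y)) a, G.Adj z u}.ncard := by
  have hgU : ∀ v, v ∈ Uu G (stb K y) → g v ∈ Uu G (stb K y) := by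
    intro v hv hgv
    exact hv ((g_Rt h v).mp hgv)
  have hgA : ∀ u v, G.Adj u v → G.Adj (g u) (g v) := by
    intro u v huv
    exact (h.ok.le h.hg u v).mpr huv
  have hmap : ∀ u v, Rl G (stb K y) (Uu G (stb K y)) u v →
      Rl G (stb K y) (Uu G (stb K y)) (g u) (g v) := by
    intro u v huv
    induction huv with
    | rel p q hpq =>
      rcases hpq with ⟨hp, hq, hpq⟩ | ⟨σ, hσ, hσp⟩
      · exact Relation.EqvGen.rel _ _ (Or.inl ⟨hgU _ hp, hgU _ hq, hgA _ _ hpq⟩)
      · refine Relation.EqvGen.rel _ _ (Or.inr ⟨g * σ * g⁻¹, (conj_mem h hσ).1, ?_⟩)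
        simp [Equiv.Perm.mul_apply, hσp]
    | refl p => exact Relation.EqvGen.refl _
    | symm p q _ ih => exact Relation.EqvGen.symm _ _ ih
    | trans p q r _ _ ih1 ih2 => exact Relation.EqvGen.trans _ _ _ ih1 ih2
  have hSR : ∀ z, z ∈ {z | z ∈ Bn G K y ∧
      ∃ u ∈ cl G (stb K y) (Uu G (stb K y)) a, G.Adj z u} → z ∈ Rt G (stb K y) := by
    rintro z ⟨hz, _⟩
    exact hz.1.1
  by_contra hlt
  have hle : {z | z ∈ Bn G K y ∧
      ∃ u ∈ cl G (stb K y) (Uu G (stb K y)) a, G.Adj z u}.ncard ≤ 2 := by omega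
  have hCU : cl G (stb K y) (Uu G (stb K y)) a ⊆ Uu G (stb K y) := cl_sub ha'
  have huniv := h.con _ (cl G (stb K y) (Uu G (stb K y)) a) hle
    ⟨a, Relation.EqvGen.refl _⟩ ?_ ?_
  · have hmem : g a ∈ cl G (stb K y) (Uu G (stb K y)) a ∪ {z | z ∈ Bn G K y ∧
        ∃ u ∈ cl G (stb K y) (Uu G (stb K y)) a, G.Adj z u} := by
      rw [huniv]; exact Set.mem_univ _
    rcases hmem with hm | hm
    · exact hga hm
    · exact hgU a ha' (hSR _ hm)
  · rw [Set.disjoint_left]
    intro z hz hzS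
    exact hCU hz (hSR z hzS)
  · intro u hu b hub
    by_cases hb : b ∈ Uu G (stb K y)
    · left
      exact Relation.EqvGen.trans _ _ _ hu (Relation.EqvGen.rel _ _ (Or.inl ⟨hCU hu, hb, hub⟩))
    · have hbR : b ∈ Rt G (stb K y) := by
        by_contra hcon
        exact hb hcon
      by_cases hbK : b ∈ Rt G K
      · exfalso
        have hgb : g b = b := hbK.1 g h.hg
        have h1 : G.Adj b (g u) := by
          have := hgA b u hub.symm
          rwa [hgb] at this
        obtain ⟨σ, hσ, hσu⟩ := bd_class h.cub ((stb_le K y).trans h.ok.le) hbR (hCU hu)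
          (hgU u (hCU hu)) hub.symm h1
        have h2 : Rl G (stb K y) (Uu G (stb K y)) a (g u) :=
          Relation.EqvGen.trans _ _ _ hu (Relation.EqvGen.rel _ _ (Or.inr ⟨σ, hσ, hσu⟩))
        have h3 : Rl G (stb K y) (Uu G (stb K y)) (g a) (g u) := hmap _ _ hu
        exact hga (Relation.EqvGen.trans _ _ _ h2 (Relation.EqvGen.symm _ _ h3))
      · right
        exact ⟨⟨⟨hbR, hbK⟩, u, hCU hu, hub.symm⟩, u, hu, hub.symm⟩

end j14att3

end Pool.Agent.Helper613.Cub
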