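import Pool.Agent.Helper613.Cub.Base
import Pool.Agent.Helper613.Cub.j13att2
import Pool.Agent.Helper613.Cub.j14att3
import Pool.Agent.Helper613.Cub.j2sw
import Pool.Agent.Helper613.Cub.j3card
import Pool.Agent.Helper613.Cub.j4ok
import Pool.Agent.Helper613.Cub.j5free
import Pool.Agent.Helper613.Cub.j6restr
import Pool.Agent.Helper613.Cub.j7out
import Pool.Agent.Helper613.Cub.j8om
import Pool.Agent.Helper613.Cub.j9bd

set_option autoImplicit false


open scoped Classical

noncomputable section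

namespace Pool.Agent.Helper613.Cub

namespace j15om

open j13att2
open j14att3
open j2sw
open j3card
open j4ok
open j5free
open j6restr
open j7out
open j8om
open j9bd

variable {V : Type} [Fintype V] {G : SimpleGraph V} {K : Subgroup (Equiv.Perm V)} {x y w : V} {g : Equiv.Perm V}
/-- attached new boundary vertices -/
def om'_le_att (G : SimpleGraph V) (K : Subgroup (Equiv.Perm V)) (y : V) (C : Set V) : Set V :=
  {z | z ∈ Bn G K y ∧ ∃ u ∈ C, G.Adj z u}

lemma om'_le_refl (W : Set V) (a : V) : Rl G K W a a := Relation.EqvGen.refl a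

lemma om'_le_symm {W : Set V} {a b : V} (h : Rl G K W a b) : Rl G K W b a :=
  Relation.EqvGen.symm _ _ h

lemma om'_le_trans {W : Set V} {a b c : V} (h : Rl G K W a b) (h' : Rl G K W b c) :
    Rl G K W a c := Relation.EqvGen.trans _ _ _ h h'

lemma om'_le_act {W : Set V} {σ : Equiv.Perm V} (hσ : σ ∈ K) (a : V) : Rl G K W a (σ a) :=
  Relation.EqvGen.rel _ _ (Or.inr ⟨σ, hσ, rfl⟩)

lemma om'_le_cl {W : Set V} {a b : V} (h : Rl G K W a b) : cl G K W a = cl G K W b := by
  ext c
  exact ⟨fun hc => om'_le_trans (om'_le_symm h) hc, fun hc => om'_le_trans h hc⟩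

lemma om'_le_of_cl {W : Set V} {a b : V} (h : cl G K W a = cl G K W b) : Rl G K W a b := by
  have h1 : b ∈ cl G K W b := om'_le_refl W b
  rw [← h] at h1
  exact h1

lemma om'_le_mono {K' : Subgroup (Equiv.Perm V)} {W : Set V} (hK : K' ≤ K) {a b : V}
    (h : Rl G K' W a b) : Rl G K W a b := by
  induction h with
  | rel a b h =>
    rcases h with h | ⟨σ, hσ, h⟩
    · exact Relation.EqvGen.rel _ _ (Or.inl h)
    · exact Relation.EqvGen.rel _ _ (Or.inr ⟨σ, hK hσ, h⟩)
  | refl a => exact Relation.EqvGen.refl a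
  | symm a b _ ih => exact Relation.EqvGen.symm _ _ ih
  | trans a b c _ _ ih1 ih2 => exact Relation.EqvGen.trans _ _ _ ih1 ih2

lemma om'_le_g (h : Sw G K x y g w) {a b : V} (hab : Rl G (stb K y) (Uu G (stb K y)) a b) :
    Rl G (stb K y) (Uu G (stb K y)) (g a) (g b) := by
  induction hab with
  | rel a b hab =>
    rcases hab with ⟨ha, hb, hadj⟩ | ⟨σ, hσ, hab⟩
    · refine Relation.EqvGen.rel _ _ (Or.inl ⟨?_, ?_, ?_⟩)
      · intro h1; exact ha ((g_Rt h a).1 h1)
      · intro h1; exact hb ((g_Rt h b).1 h1)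
      · exact (h.ok.le h.hg a b).2 hadj
    · refine Relation.EqvGen.rel _ _ (Or.inr ⟨g * σ * g⁻¹, (conj_mem h hσ).1, ?_⟩)
      rw [Equiv.Perm.mul_apply, Equiv.Perm.mul_apply]
      have h1 : g⁻¹ (g a) = a := by simp
      rw [h1, hab]
  | refl a => exact Relation.EqvGen.refl _
  | symm a b _ ih => exact Relation.EqvGen.symm _ _ ih
  | trans a b c _ _ ih1 ih2 => exact Relation.EqvGen.trans _ _ _ ih1 ih2

lemma om'_le_gg (h : Sw G K x y g w) (a : V) :
    Rl G (stb K y) (Uu G (stb K y)) a (g (g a)) := by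
  have h1 := om'_le_act (G := G) (W := Uu G (stb K y)) (sq_mem h) a
  rwa [Equiv.Perm.mul_apply] at h1

lemma om'_le_key (h : Sw G K x y g w) {a b : V} (hab : Rl G K (Uu G (stb K y)) a b) :
    Rl G (stb K y) (Uu G (stb K y)) a b ∨ Rl G (stb K y) (Uu G (stb K y)) (g a) b := by
  induction hab with
  | rel a b hab =>
    rcases hab with hab | ⟨σ, hσ, hab⟩
    · exact Or.inl (Relation.EqvGen.rel _ _ (Or.inl hab))
    · rcases coset h σ hσ with h1 | h1
      · left
        rw [← hab]
        exact om'_le_act h1 a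
      · right
        have h2 := om'_le_act (G := G) (W := Uu G (stb K y)) h1 a
        rw [Equiv.Perm.mul_apply, hab] at h2
        exact om'_le_trans (om'_le_g h h2) (om'_le_symm (om'_le_gg h b))
  | refl a => exact Or.inl (Relation.EqvGen.refl _)
  | symm a b _ ih =>
    rcases ih with ih | ih
    · exact Or.inl (om'_le_symm ih)
    · right
      exact om'_le_symm (om'_le_trans (om'_le_gg h a) (om'_le_g h ih))
  | trans a b c _ _ ih1 ih2 =>
    rcases ih1 with ih1 | ih1
    · rcases ih2 with ih2 | ih2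
      · exact Or.inl (om'_le_trans ih1 ih2)
      · exact Or.inr (om'_le_trans (om'_le_g h ih1) ih2)
    · rcases ih2 with ih2 | ih2
      · exact Or.inr (om'_le_trans ih1 ih2)
      · left
        exact om'_le_trans (om'_le_gg h a) (om'_le_trans (om'_le_g h ih1) ih2)

/-- the set of new classes -/
def om'_le_CC (G : SimpleGraph V) (K : Subgroup (Equiv.Perm V)) (y : V) : Finset (Set V) :=
  (Set.toFinite ((cl G (stb K y) (Uu G (stb K y))) '' (OO G K y ∩ Uu G (stb K y)))).toFinset

lemma om'_le_mem (C : Set V) : C ∈ om'_le_CC G K y ↔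
    ∃ a, (a ∈ OO G K y ∧ a ∈ Uu G (stb K y)) ∧ cl G (stb K y) (Uu G (stb K y)) a = C := by
  unfold om'_le_CC
  rw [Set.Finite.mem_toFinset]
  rfl

lemma om'_le_card : om' G K y = (om'_le_CC G K y).card := by
  unfold om' om'_le_CC
  exact Set.ncard_eq_toFinset_card _ _

lemma om'_le_sum (h : Sw G K x y g w) :
    ∑ C ∈ om'_le_CC G K y, (om'_le_att G K y C).ncard ≤ (Bn G K y).ncard := by
  have h1 : ∀ C, (om'_le_att G K y C).ncard = (om'_le_att G K y C).toFinset.card := fun C =>
    Set.ncard_eq_toFinset_card' _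
  simp only [h1]
  rw [← Finset.card_biUnion, Set.ncard_eq_toFinset_card']
  · apply Finset.card_le_card
    intro z hz
    rw [Finset.mem_biUnion] at hz
    obtain ⟨C, _, hz⟩ := hz
    rw [Set.mem_toFinset] at hz ⊢
    exact hz.1
  · intro C hC C' hC' hne
    show Disjoint _ _
    rw [Finset.disjoint_left]
    intro z hz hz'
    rw [Set.mem_toFinset] at hz hz'
    apply hne
    obtain ⟨a, ⟨ha1, ha2⟩, ha⟩ := (om'_le_mem C).1 hC
    obtain ⟨b, ⟨hb1, hb2⟩, hb⟩ := (om'_le_mem C').1 hC'
    obtain ⟨hzB, u, hu, hzu⟩ := hz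
    obtain ⟨_, u', hu', hzu'⟩ := hz'
    rw [← ha] at hu
    rw [← hb] at hu'
    have hU := (cl_in h ha1 ha2 hu).2
    have hU' := (cl_in h hb1 hb2 hu').2
    obtain ⟨σ, hσ, hσu⟩ := bd_class h.cub (ok_stb h).le hzB.1.1 hU hU' hzu hzu'
    have h2 : Rl G (stb K y) (Uu G (stb K y)) u u' := by
      rw [← hσu]; exact om'_le_act hσ u
    rw [← ha, ← hb]
    exact om'_le_cl (om'_le_trans (om'_le_trans hu h2) (om'_le_symm hu'))

/-- the mixed class of a class -/
def om'_le_m (G : SimpleGraph V) (K : Subgroup (Equiv.Perm V)) (y : V) (C : Set V) : Set V :=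
  if hC : C.Nonempty then cl G K (Uu G (stb K y)) hC.some else ∅

lemma om'_le_m_eq (a : V) : om'_le_m G K y (cl G (stb K y) (Uu G (stb K y)) a) =
    cl G K (Uu G (stb K y)) a := by
  have hC : (cl G (stb K y) (Uu G (stb K y)) a).Nonempty := ⟨a, om'_le_refl _ a⟩
  unfold om'_le_m
  rw [dif_pos hC]
  have h1 : Rl G (stb K y) (Uu G (stb K y)) a hC.some := hC.some_mem
  exact (om'_le_cl (om'_le_mono (stb_le K y) h1)).symm

/-- the weight of a class -/
def om'_le_w (g : Equiv.Perm V) (C : Set V) : ℕ := if ∃ a ∈ C, g a ∈ C then 2 else 1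

lemma om'_le_ex (h : Sw G K x y g w) (a : V) :
    (∃ b ∈ cl G (stb K y) (Uu G (stb K y)) a, g b ∈ cl G (stb K y) (Uu G (stb K y)) a) ↔
      g a ∈ cl G (stb K y) (Uu G (stb K y)) a := by
  constructor
  · rintro ⟨b, hb, hgb⟩
    exact om'_le_trans hgb (om'_le_symm (om'_le_g h hb))
  · intro hga
    exact ⟨a, om'_le_refl _ a, hga⟩

lemma om'_le_wsum (h : Sw G K x y g w) :
    ∑ C ∈ om'_le_CC G K y, om'_le_w g C ≤ 2 * omm G K y := by
  set MM : Finset (Set V) :=
    (Set.toFinite ((cl G K (Uu G (stb K y))) '' (OO G K y ∩ Uu G (stb K y)))).toFinset with hMM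
  have hcard : omm G K y = MM.card := Set.ncard_eq_toFinset_card _ _
  have hmaps : ∀ C ∈ om'_le_CC G K y, om'_le_m G K y C ∈ MM := by
    intro C hC
    obtain ⟨a, ⟨ha1, ha2⟩, ha⟩ := (om'_le_mem C).1 hC
    rw [← ha, om'_le_m_eq, hMM, Set.Finite.mem_toFinset]
    exact ⟨a, ⟨ha1, ha2⟩, rfl⟩
  rw [← Finset.sum_fiberwise_of_maps_to hmaps, hcard]
  have hle : ∀ M ∈ MM, ∑ C ∈ (om'_le_CC G K y).filter (fun C => om'_le_m G K y C = M),
      om'_le_w g C ≤ 2 := by
    intro M hM
    rw [hMM, Set.Finite.mem_toFinset] at hM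
    obtain ⟨a, ⟨ha1, ha2⟩, ha⟩ := hM
    have hfib : ∀ C ∈ (om'_le_CC G K y).filter (fun C => om'_le_m G K y C = M),
        C = cl G (stb K y) (Uu G (stb K y)) a ∨ C = cl G (stb K y) (Uu G (stb K y)) (g a) := by
      intro C hC
      rw [Finset.mem_filter] at hC
      obtain ⟨hC, hCM⟩ := hC
      obtain ⟨b, _, hb⟩ := (om'_le_mem C).1 hC
      rw [← hb, om'_le_m_eq, ← ha] at hCM
      rcases om'_le_key h (om'_le_of_cl hCM.symm) with h1 | h1
      · left; rw [← hb]; exact (om'_le_cl h1).symm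
      · right; rw [← hb]; exact (om'_le_cl h1).symm
    by_cases hga : g a ∈ cl G (stb K y) (Uu G (stb K y)) a
    · have heq : cl G (stb K y) (Uu G (stb K y)) (g a) = cl G (stb K y) (Uu G (stb K y)) a :=
        (om'_le_cl hga).symm
      have hsub : (om'_le_CC G K y).filter (fun C => om'_le_m G K y C = M) ⊆
          {cl G (stb K y) (Uu G (stb K y)) a} := by
        intro C hC
        rw [Finset.mem_singleton]
        rcases hfib C hC with h1 | h1
        · exact h1
        · rw [h1, heq]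
      refine (Finset.sum_le_sum_of_subset hsub).trans ?_
      rw [Finset.sum_singleton]
      unfold om'_le_w
      split_ifs <;> omega
    · have hsub : (om'_le_CC G K y).filter (fun C => om'_le_m G K y C = M) ⊆
          {cl G (stb K y) (Uu G (stb K y)) a, cl G (stb K y) (Uu G (stb K y)) (g a)} := by
        intro C hC
        rw [Finset.mem_insert, Finset.mem_singleton]
        exact hfib C hC
      refine (Finset.sum_le_sum_of_subset hsub).trans ?_
      have hne : cl G (stb K y) (Uu G (stb K y)) a ≠ cl G (stb K y) (Uu G (stb K y)) (g a) := by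
        intro heq
        exact hga (om'_le_of_cl heq)
      rw [Finset.sum_pair hne]
      have hw1 : om'_le_w g (cl G (stb K y) (Uu G (stb K y)) a) = 1 := by
        unfold om'_le_w
        rw [if_neg]
        rw [om'_le_ex h a]
        exact hga
      have hw2 : om'_le_w g (cl G (stb K y) (Uu G (stb K y)) (g a)) = 1 := by
        unfold om'_le_w
        rw [if_neg]
        rw [om'_le_ex h (g a)]
        intro h1
        apply hga
        exact om'_le_symm (om'_le_trans h1 (om'_le_symm (om'_le_gg h a)))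
      rw [hw1, hw2]
  calc ∑ M ∈ MM, ∑ C ∈ (om'_le_CC G K y).filter (fun C => om'_le_m G K y C = M), om'_le_w g C
      ≤ ∑ _M ∈ MM, 2 := Finset.sum_le_sum hle
    _ = 2 * MM.card := by rw [Finset.sum_const, smul_eq_mul, mul_comm]

lemma om'_le (h : Sw G K x y g w) : 4 * om' G K y ≤ 2 * omm G K y + (Bn G K y).ncard := by
  have h1 := om'_le_sum h
  have h2 := om'_le_wsum h
  have h3 : ∀ C ∈ om'_le_CC G K y, 4 ≤ om'_le_w g C + (om'_le_att G K y C).ncard := by
    intro C hC
    obtain ⟨a, ⟨ha1, ha2⟩, ha⟩ := (om'_le_mem C).1 hC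
    rw [← ha]
    by_cases hga : g a ∈ cl G (stb K y) (Uu G (stb K y)) a
    · have hw1 : om'_le_w g (cl G (stb K y) (Uu G (stb K y)) a) = 2 := by
        unfold om'_le_w
        rw [if_pos]
        rw [om'_le_ex h a]
        exact hga
      have h4 := att_two h ha1 ha2
      have h5 : 2 ≤ (om'_le_att G K y (cl G (stb K y) (Uu G (stb K y)) a)).ncard := h4
      omega
    · have hw1 : om'_le_w g (cl G (stb K y) (Uu G (stb K y)) a) = 1 := by
        unfold om'_le_w
        rw [if_neg]
        rw [om'_le_ex h a]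
        exact hga
      have h4 := att_three h ha1 ha2 hga
      have h5 : 3 ≤ (om'_le_att G K y (cl G (stb K y) (Uu G (stb K y)) a)).ncard := h4
      omega
  have h4 := Finset.sum_le_sum h3
  rw [Finset.sum_add_distrib, Finset.sum_const, smul_eq_mul, ← om'_le_card] at h4
  omega

lemma two_om' (h : Sw G K x y g w) : 2 * om' G K y ≤ (Bn G K y).ncard := by
  have h1 := om'_le_sum h
  have h3 : ∀ C ∈ om'_le_CC G K y, 2 ≤ (om'_le_att G K y C).ncard := by
    intro C hC
    obtain ⟨a, ⟨ha1, ha2⟩, ha⟩ := (om'_le_mem C).1 hC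
    rw [← ha]
    exact att_two h ha1 ha2
  have h4 := Finset.sum_le_sum h3
  rw [Finset.sum_const, smul_eq_mul, ← om'_le_card] at h4
  omega

end j15om

end Pool.Agent.Helper613.Cub
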