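import Pool.Agent.Helper613.Cub.Base
import Pool.Agent.Helper613.Cub.j10edge
import Pool.Agent.Helper613.Cub.j11cn
import Pool.Agent.Helper613.Cub.j2sw
import Pool.Agent.Helper613.Cub.j3card
import Pool.Agent.Helper613.Cub.j4ok
import Pool.Agent.Helper613.Cub.j5free
import Pool.Agent.Helper613.Cub.j6restr
import Pool.Agent.Helper613.Cub.j7out
import Pool.Agent.Helper613.Cub.j8om
import Pool.Agent.Helper613.Cub.j9bd

set_option autoImplicit false


open scoped Classical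

noncomputable section

namespace Pool.Agent.Helper613.Cub

namespace j16cn7

open j10edge
open j11cn
open j2sw
open j3card
open j4ok
open j5free
open j6restr
open j7out
open j8om
open j9bd

variable {V : Type} [Fintype V] {G : SimpleGraph V} {K : Subgroup (Equiv.Perm V)} {x y w : V} {g : Equiv.Perm V}
lemma Cn7_gR (h : Sw G K x y g w) {v : V} (hv : v ∈ Rt G K) : g v = v := hv.1 g h.hg

lemma Cn7_gadj (h : Sw G K x y g w) (u v : V) : G.Adj (g u) (g v) ↔ G.Adj u v :=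
  h.ok.le h.hg u v

lemma Cn7_one (h4 : No4 G) (h : Sw G K x y g w) {z x1 x2 : V} (hz : z ∈ NN G K y)
    (h1 : x1 ∈ Rt G K) (h2 : x2 ∈ Rt G K) (a1 : G.Adj x1 z) (a2 : G.Adj x2 z) : x1 = x2 := by
  by_contra hne
  obtain ⟨_, hgz, _⟩ := NN_free h hz
  have b1 : G.Adj (g z) x1 := by
    have := (Cn7_gadj h z x1).2 a1.symm
    rwa [Cn7_gR h h1] at this
  have b2 : G.Adj (g z) x2 := by
    have := (Cn7_gadj h z x2).2 a2.symm
    rwa [Cn7_gR h h2] at this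
  exact h4 z (g z) x1 x2 (Ne.symm hgz) hne a1.symm a2.symm b1 b2

lemma Cn7_nadj (hn3 : No3 G) (h4 : No4 G) (h6 : No6 G) (h : Sw G K x y g w) {z z2 x1 x2 : V}
    (hz : z ∈ NN G K y) (hz2 : z2 ∈ NN G K y) (h1 : x1 ∈ Rt G K) (h2 : x2 ∈ Rt G K)
    (a1 : G.Adj x1 z) (a2 : G.Adj x2 z2) (a : G.Adj z z2) : False := by
  by_cases e : x1 = x2
  · subst e
    exact hn3 x1 z z2 a1 a a2
  obtain ⟨gz, hgz, ggz⟩ := NN_free h hz
  obtain ⟨gz2, hgz2, ggz2⟩ := NN_free h hz2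
  have b1 : G.Adj (g z) x1 := by
    have := (Cn7_gadj h z x1).2 a1.symm
    rwa [Cn7_gR h h1] at this
  have b2 : G.Adj (g z2) x2 := by
    have := (Cn7_gadj h z2 x2).2 a2.symm
    rwa [Cn7_gR h h2] at this
  have ng : G.Adj (g z) (g z2) := (Cn7_gadj h z z2).2 a
  have nR : ∀ {u v : V}, u ∈ NN G K y → v ∈ Rt G K → u ≠ v := by
    intro u v hu hv e
    subst e
    exact hu.2 hv
  have n1 : z ≠ g z2 := by
    intro e1
    rw [← e1] at b2
    exact e (Cn7_one h4 h hz h1 h2 a1 b2.symm)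
  have n2 : z2 ≠ g z := by
    intro e1
    rw [← e1] at b1
    exact e (Cn7_one h4 h hz2 h1 h2 b1.symm a2)
  refine h6 z z2 x2 (g z2) (g z) x1 ?_ a a2.symm b2.symm ng.symm b1 a1
  have m1 : z ≠ z2 := a.ne
  have m2 : z ≠ x2 := nR hz h2
  have m3 : z ≠ g z := Ne.symm hgz
  have m4 : z ≠ x1 := nR hz h1
  have m5 : z2 ≠ x2 := nR hz2 h2
  have m6 : z2 ≠ g z2 := Ne.symm hgz2
  have m7 : z2 ≠ x1 := nR hz2 h1
  have m8 : x2 ≠ g z2 := Ne.symm (nR gz2 h2)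
  have m9 : x2 ≠ g z := Ne.symm (nR gz h2)
  have m10 : x2 ≠ x1 := Ne.symm e
  have m11 : g z2 ≠ g z := ng.ne'
  have m12 : g z2 ≠ x1 := nR gz2 h1
  have m13 : g z ≠ x1 := nR gz h1
  simp only [List.nodup_cons, List.mem_cons, List.not_mem_nil, or_false, not_or,
    not_false_eq_true, List.nodup_nil, and_true]
  exact ⟨⟨m1, m2, n1, m3, m4⟩, ⟨m5, m6, n2, m7⟩, ⟨m8, m9, m10⟩, ⟨m11, m12⟩, m13⟩

lemma Cn7_c1 (h4 : No4 G) (h : Sw G K x y g w) :
    2 * (Cn G K y).ncard ≤ {z | z ∈ NN G K y ∧ ∃ x1 ∈ Rt G K, G.Adj x1 z}.ncard := by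
  rw [Set.ncard_eq_toFinset_card', Set.ncard_eq_toFinset_card']
  have := Finset.card_mul_le_card_mul (s := (Cn G K y).toFinset)
    (t := {z | z ∈ NN G K y ∧ ∃ x1 ∈ Rt G K, G.Adj x1 z}.toFinset) (fun a b => G.Adj a b)
    (m := 2) (n := 1) ?_ ?_
  · omega
  · intro a ha
    rw [Set.mem_toFinset] at ha
    have h2 := (Cn_two h ha).1
    rw [Set.ncard_eq_toFinset_card'] at h2
    rw [← h2]
    apply Finset.card_le_card
    intro z hz
    rw [Set.mem_toFinset] at hz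
    obtain ⟨hz1, hz2⟩ := hz
    rw [Finset.mem_bipartiteAbove, Set.mem_toFinset]
    exact ⟨⟨hz1, a, ha.1, hz2⟩, hz2⟩
  · intro b hb
    rw [Set.mem_toFinset] at hb
    rw [Finset.card_le_one]
    intro p hp q hq
    rw [Finset.mem_bipartiteBelow, Set.mem_toFinset] at hp hq
    exact Cn7_one h4 h hb.1 hp.1.1 hq.1.1 hp.2 hq.2

lemma Cn7_c2 (hn3 : No3 G) (h4 : No4 G) (h6 : No6 G) (h : Sw G K x y g w) :
    2 * {z | (z ∈ NN G K y ∧ ∃ x1 ∈ Rt G K, G.Adj x1 z) ∧ z ∉ Bn G K y}.ncard ≤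
      3 * {z | z ∈ NN G K y ∧ ¬ ∃ x1 ∈ Rt G K, G.Adj x1 z}.ncard := by
  rw [Set.ncard_eq_toFinset_card', Set.ncard_eq_toFinset_card']
  have := Finset.card_mul_le_card_mul
    (s := {z | (z ∈ NN G K y ∧ ∃ x1 ∈ Rt G K, G.Adj x1 z) ∧ z ∉ Bn G K y}.toFinset)
    (t := {z | z ∈ NN G K y ∧ ¬ ∃ x1 ∈ Rt G K, G.Adj x1 z}.toFinset) (fun a b => G.Adj a b)
    (m := 2) (n := 3) ?_ ?_
  · omega
  · intro z hz
    rw [Set.mem_toFinset] at hz
    obtain ⟨⟨hzN, x1, hx1, a1⟩, hzB⟩ := hz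
    have key : ∀ u, G.Adj z u → u ≠ x1 →
        u ∈ (Finset.bipartiteAbove (fun a b => G.Adj a b)
          ({z | z ∈ NN G K y ∧ ¬ ∃ x1 ∈ Rt G K, G.Adj x1 z}.toFinset) z) := by
      intro u hu hux
      rw [Finset.mem_bipartiteAbove, Set.mem_toFinset]
      have hu1 : u ∈ Rt G (stb K y) := by
        by_contra hc
        exact hzB ⟨hzN, u, hc, hu⟩
      have hu2 : u ∉ Rt G K := by
        intro hc
        exact hux (Cn7_one h4 h hzN hc hx1 hu.symm a1)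
      refine ⟨⟨⟨hu1, hu2⟩, ?_⟩, hu⟩
      rintro ⟨x2, hx2, a2⟩
      exact Cn7_nadj hn3 h4 h6 h hzN ⟨hu1, hu2⟩ hx1 hx2 a1 a2 hu
    obtain ⟨a, b, c, hab, hac, hbc, hall⟩ := nb3 h.cub z
    have two : ∃ u v, u ≠ v ∧ G.Adj z u ∧ G.Adj z v ∧ u ≠ x1 ∧ v ≠ x1 := by
      rcases (hall x1).1 a1.symm with e | e | e
      · exact ⟨b, c, hbc, (hall b).2 (by simp), (hall c).2 (by simp), e ▸ hab.symm, e ▸ hac.symm⟩
      · exact ⟨a, c, hac, (hall a).2 (by simp), (hall c).2 (by simp), e ▸ hab, e ▸ hbc.symm⟩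
      · exact ⟨a, b, hab, (hall a).2 (by simp), (hall b).2 (by simp), e ▸ hac, e ▸ hbc⟩
    obtain ⟨u, v, huv, hu, hv, hux, hvx⟩ := two
    have hsub : ({u, v} : Finset V) ⊆ (Finset.bipartiteAbove (fun a b => G.Adj a b)
          ({z | z ∈ NN G K y ∧ ¬ ∃ x1 ∈ Rt G K, G.Adj x1 z}.toFinset) z) := by
      intro t ht
      rw [Finset.mem_insert, Finset.mem_singleton] at ht
      rcases ht with rfl | rfl
      · exact key _ hu hux
      · exact key _ hv hvx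
    have := Finset.card_le_card hsub
    rwa [Finset.card_pair huv] at this
  · intro b _
    have hc := h.cub b
    rw [Set.ncard_eq_toFinset_card'] at hc
    rw [← hc]
    apply Finset.card_le_card
    intro z hz
    rw [Finset.mem_bipartiteBelow] at hz
    rw [Set.mem_toFinset]
    exact hz.2.symm

lemma Cn7 (hn3 : No3 G) (h4 : No4 G) (h6 : No6 G) (h : Sw G K x y g w) :
    10 * (Cn G K y).ncard ≤ 3 * (NN G K y).ncard + 4 * (Bn G K y).ncard := by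
  have h1 := Cn7_c1 h4 h
  have h2 := Cn7_c2 hn3 h4 h6 h
  have h3 : (NN G K y).ncard = {z | z ∈ NN G K y ∧ ∃ x1 ∈ Rt G K, G.Adj x1 z}.ncard +
      {z | z ∈ NN G K y ∧ ¬ ∃ x1 ∈ Rt G K, G.Adj x1 z}.ncard := by
    rw [← Set.ncard_union_eq]
    · congr 1
      ext z
      constructor
      · intro hz
        by_cases e : ∃ x1 ∈ Rt G K, G.Adj x1 z
        · exact Or.inl ⟨hz, e⟩
        · exact Or.inr ⟨hz, e⟩
      · rintro (hz | hz)
        · exact hz.1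
        · exact hz.1
    · rw [Set.disjoint_left]
      intro z hz hz'
      exact hz'.2 hz.2
  have h5 : {z | z ∈ NN G K y ∧ ∃ x1 ∈ Rt G K, G.Adj x1 z}.ncard ≤
      {z | (z ∈ NN G K y ∧ ∃ x1 ∈ Rt G K, G.Adj x1 z) ∧ z ∉ Bn G K y}.ncard +
        (Bn G K y).ncard := by
    refine le_trans (Set.ncard_le_ncard ?_ (Set.toFinite _)) (Set.ncard_union_le _ _)
    intro z hz
    by_cases e : z ∈ Bn G K y
    · exact Or.inr e
    · exact Or.inl ⟨hz, e⟩
  omega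

end j16cn7

end Pool.Agent.Helper613.Cub
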