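import Pool.Agent.Helper613.Cub.j4ok
import Pool.Agent.Helper613.Cub.j5free
import Pool.Agent.Helper613.Cub.j8om
import Pool.Agent.Helper613.Cub.j9bd
import Pool.Agent.Helper613.Cub.j10edge
import Pool.Agent.Helper613.Cub.j11cn
import Pool.Agent.Helper613.Cub.j12conn
import Pool.Agent.Helper613.Cub.j15om
import Pool.Agent.Helper613.Cub.j16cn7

set_option autoImplicit false

open scoped Classical

noncomputable section

namespace Pool.Agent.Helper613.Cub

namespace Step

open j4ok j5free j8om j9bd j10edge j11cn j12conn j15om j16cn7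

variable {V : Type} [Fintype V] {G : SimpleGraph V} {K : Subgroup (Equiv.Perm V)} {x y w : V} {g : Equiv.Perm V}

lemma step0 (h : Sw G K x y g w) :
    (Uu G (stb K y)).ncard + 8 * om G (stb K y) + 2 * (Bd G K).ncard + 4
      ≤ (Uu G K).ncard + 8 * om G K + 2 * (Bd G (stb K y)).ncard := by
  have h1 := om_eq h
  have h2 := Bd_eq h
  have h3 := edge_count h
  have h4 := Uu_card h
  have h5 := conn_ineq h
  have h6 := om'_le h
  omega

lemma y_NN (h : Sw G K x y g w) : y ∈ NN G K y := by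
  refine ⟨⟨fun σ hσ => hσ.2, x, Fx_mono (stb_le K y) h.hx.1, ?_⟩, h.hy⟩
  exact ((h.nb y).2 (Or.inl rfl)).symm

lemma step0' (h : Sw G K x y g w) (hadj : G.Adj y (g y)) :
    (Uu G (stb K y)).ncard + 8 * om G (stb K y) + 2 * (Bd G K).ncard + 6
      ≤ (Uu G K).ncard + 8 * om G K + 2 * (Bd G (stb K y)).ncard := by
  have h1 := om_eq h
  have h2 := Bd_eq h
  have h3 := edge_count h
  have h4 := Uu_card h
  have h5 := conn_ineq h
  have h6 := om'_le h
  have h7 : 2 ≤ {a | a ∈ NN G K y ∧ G.Adj a (g a)}.ncard := by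
    have hsub : ({y, g y} : Set V) ⊆ {a | a ∈ NN G K y ∧ G.Adj a (g a)} := by
      rintro a (rfl | rfl)
      · exact ⟨y_NN h, hadj⟩
      · refine ⟨(NN_free h (y_NN h)).1, ?_⟩
        rw [h.ggy]; exact hadj.symm
    have := Set.ncard_le_ncard hsub (Set.toFinite _)
    rwa [Set.ncard_pair h.gy.symm] at this
  omega

lemma step2 (h4' : No4 G) (h : Sw G K x y g w) :
    (Uu G (stb K y)).ncard + 4 * om G (stb K y) + 2 * (Bd G K).ncard + 4
      ≤ (Uu G K).ncard + 4 * om G K + 2 * (Bd G (stb K y)).ncard := by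
  have h1 := om_eq h
  have h2 := Bd_eq h
  have h4 := Uu_card h
  have h5 := Cn_le h4' h
  have h6 := two_om' h
  omega

lemma step7 (hn3 : No3 G) (h4' : No4 G) (h6' : No6 G) (h : Sw G K x y g w) :
    3 * (Uu G (stb K y)).ncard + 12 * om G (stb K y) + 10 * (Bd G K).ncard + 12
      ≤ 3 * (Uu G K).ncard + 12 * om G K + 10 * (Bd G (stb K y)).ncard := by
  have h1 := om_eq h
  have h2 := Bd_eq h
  have h4 := Uu_card h
  have h5 := Cn7 hn3 h4' h6' h
  have h6 := two_om' h
  omega

end Step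

end Pool.Agent.Helper613.Cub
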