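import Pool.Agent.Helper613.Cub.Base

set_option autoImplicit false


open scoped Classical

noncomputable section

namespace Pool.Agent.Helper613.Cub

namespace j17misc


variable {V : Type} [Fintype V] {G : SimpleGraph V} {K : Subgroup (Equiv.Perm V)} {x y w : V} {g : Equiv.Perm V}
lemma eq_bot_of_Rt (h : Rt G K = Set.univ) : K = ⊥ := by
  rw [eq_bot_iff]
  intro σ hσ
  rw [Subgroup.mem_bot]
  ext v
  have hv : v ∈ Rt G K := by rw [h]; exact Set.mem_univ v
  exact hv.1 σ hσ

lemma exists_step (h3 : Conn3 G) (hK : Ok G K) (hne : K ≠ ⊥) : ∃ x ∈ Rt G K, ∃ y ∈ Uu G K, G.Adj x y := by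
  by_contra hcon
  push Not at hcon
  apply hne
  apply eq_bot_of_Rt (G := G)
  have h := h3 ∅ (Rt G K) (by simp) hK.ne (Set.disjoint_empty _) (by
    intro a ha b hab
    left
    by_contra hb
    exact hcon a ha b hb hab)
  rwa [Set.union_empty] at h

lemma triv_case (hc : Cubic G) (hK : K = ⊥) : Uu G K = ∅ := by
  subst hK
  rw [Set.eq_empty_iff_forall_notMem]
  intro v hv
  apply hv
  have hF : ∀ v : V, v ∈ Fx (⊥ : Subgroup (Equiv.Perm V)) := by
    intro v σ hσ
    rw [Subgroup.mem_bot] at hσ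
    rw [hσ]; rfl
  obtain ⟨a, b, c, -, -, -, hz⟩ := nb3 hc v
  exact ⟨hF v, a, hF a, (hz a).2 (Or.inl rfl)⟩

lemma om_zero (hK : Ok G K) (h : om G K = 0) : K = ⊥ := by
  apply eq_bot_of_Rt (G := G)
  unfold om at h
  rw [Set.ncard_eq_zero (Set.toFinite _), Set.image_eq_empty] at h
  have h2 : (Rt G K)ᶜ = ∅ := h
  exact Set.compl_empty_iff.1 h2

lemma card_split : Fintype.card V = (Uu G K).ncard + (It G K).ncard + (Bd G K).ncard := by
  have h1 : (Uu G K).ncard + (Rt G K).ncard = Fintype.card V := by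
    have := Set.ncard_add_ncard_compl (Rt G K) (Set.toFinite _) (Set.toFinite _)
    rw [Nat.card_eq_fintype_card] at this
    rw [← this, add_comm]
    rfl
  have h2 : Rt G K = It G K ∪ Bd G K := by
    ext x
    constructor
    · intro hx
      by_cases h : ∃ u ∈ Uu G K, G.Adj x u
      · exact Or.inr ⟨hx, h⟩
      · left
        refine ⟨hx, fun u hu => ?_⟩
        by_contra hu'
        exact h ⟨u, hu', hu⟩
    · rintro (hx | hx)
      · exact hx.1
      · exact hx.1
  have h3 : Disjoint (It G K) (Bd G K) := by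
    rw [Set.disjoint_left]
    rintro x ⟨_, hx⟩ ⟨_, u, hu, hxu⟩
    exact hu (hx u hxu)
  have h4 : (Rt G K).ncard = (It G K).ncard + (Bd G K).ncard := by
    conv_lhs => rw [h2]
    exact Set.ncard_union_eq h3 (Set.toFinite _) (Set.toFinite _)
  omega

end j17misc

end Pool.Agent.Helper613.Cub
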