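import Pool.Agent.Helper613.Cub.Base
import Pool.Agent.Helper613.Cub.Step
import Pool.Agent.Helper613.Cub.j17misc
import Pool.Agent.Helper613.Cub.j2sw
import Pool.Agent.Helper613.Cub.j3card
import Pool.Agent.Helper613.Cub.j4ok

set_option autoImplicit false


open scoped Classical

noncomputable section

namespace Pool.Agent.Helper613.Cub

namespace j19PT

open Step
open j17misc
open j2sw
open j3card
open j4ok

variable {V : Type} [Fintype V] {G : SimpleGraph V} {K : Subgroup (Equiv.Perm V)} {x y w : V} {g : Equiv.Perm V}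
private theorem PTgen (hc : Cubic G) (h3 : Conn3 G) (a b c d : ℕ)
    (hstep : ∀ (K : Subgroup (Equiv.Perm V)) (x y w : V) (g : Equiv.Perm V), Sw G K x y g w →
      a * (Uu G (stb K y)).ncard + b * om G (stb K y) + c * (Bd G K).ncard + d
        ≤ a * (Uu G K).ncard + b * om G K + c * (Bd G (stb K y)).ncard) :
    ∀ (N : ℕ) (K : Subgroup (Equiv.Perm V)), Nat.card K ≤ N → Ok G K →
      ∃ s, Nat.card K = 2 ^ s ∧ d * s + c * (Bd G K).ncard ≤ a * (Uu G K).ncard + b * om G K := by
  intro N
  induction N with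
  | zero =>
    intro K hN _
    have : 0 < Nat.card K := Nat.card_pos
    omega
  | succ N ih =>
    intro K hN hK
    by_cases hb : K = ⊥
    · refine ⟨0, ?_, ?_⟩
      · rw [hb]; simp
      · have hU := triv_case hc hb
        have hB : Bd G K = ∅ := by
          ext v
          unfold Bd
          rw [hU]
          simp
        rw [hB]
        simp
    · obtain ⟨x, hx, y, hy, hxy⟩ := exists_step h3 hK hb
      obtain ⟨g, w, hS⟩ := exists_Sw hc h3 hK hx hy hxy
      have hcard := card_step hS
      have hpos : 0 < Nat.card (stb K y) := Nat.card_pos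
      obtain ⟨s, hs, hle⟩ := ih (stb K y) (by omega) (ok_stb hS)
      have h1 := hstep K x y w g hS
      refine ⟨s + 1, ?_, ?_⟩
      · rw [hcard, hs, pow_succ]; ring
      · have : d * (s + 1) = d * s + d := by ring
        rw [this]
        omega

theorem PT0 (hc : Cubic G) (h3 : Conn3 G) (hK : Ok G K) :
    ∃ s, Nat.card K = 2 ^ s ∧ 4 * s + 2 * (Bd G K).ncard ≤ (Uu G K).ncard + 8 * om G K := by
  have h := PTgen hc h3 1 8 2 4 (by
    intro K x y w g hS
    have := step0 hS
    omega) (Nat.card K) K le_rfl hK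
  simpa using h

theorem PT2 (hc : Cubic G) (h3 : Conn3 G) (h4 : No4 G) (hK : Ok G K) :
    ∃ s, Nat.card K = 2 ^ s ∧ 4 * s + 2 * (Bd G K).ncard ≤ (Uu G K).ncard + 4 * om G K := by
  have h := PTgen hc h3 1 4 2 4 (by
    intro K x y w g hS
    have := step2 h4 hS
    omega) (Nat.card K) K le_rfl hK
  simpa using h

theorem PT7 (hc : Cubic G) (h3 : Conn3 G) (hn3 : No3 G) (h4 : No4 G) (h6 : No6 G) (hK : Ok G K) :
    ∃ s, Nat.card K = 2 ^ s ∧ 12 * s + 10 * (Bd G K).ncard ≤ 3 * (Uu G K).ncard + 12 * om G K := by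
  exact PTgen hc h3 3 12 10 12 (by
    intro K x y w g hS
    have := step7 hn3 h4 h6 hS
    omega) (Nat.card K) K le_rfl hK

end j19PT

end Pool.Agent.Helper613.Cub
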