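import Pool.Agent.Helper613.Cub.Step
import Pool.Agent.Helper613.Cub.j3card
import Pool.Agent.Helper613.Cub.j19PT

set_option autoImplicit false

open scoped Classical

noncomputable section

namespace Pool.Agent.Helper613.Cub

namespace PTtri

open Step j3card j4ok j19PT

variable {V : Type} [Fintype V] {G : SimpleGraph V} {K : Subgroup (Equiv.Perm V)} {x y w : V} {g : Equiv.Perm V}

theorem PT0tri (h : Sw G K x y g w) (hadj : G.Adj y (g y)) :
    ∃ s, Nat.card K = 2 ^ s ∧ 4 * s + 2 + 2 * (Bd G K).ncard ≤ (Uu G K).ncard + 8 * om G K := by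
  obtain ⟨s, hs1, hs2⟩ := PT0 h.cub h.con (ok_stb h)
  refine ⟨s + 1, ?_, ?_⟩
  · rw [card_step h, hs1]; ring
  · have := step0' h hadj
    omega

end PTtri

end Pool.Agent.Helper613.Cub
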