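import Pool.Agent.Helper613.Cub.Base
import Pool.Agent.Helper613.Cub.j2sw
import Pool.Agent.Helper613.Cub.j6restr

set_option autoImplicit false


open scoped Classical

noncomputable section

namespace Pool.Agent.Helper613.Cub

namespace j18three

open j2sw
open j6restr

variable {V : Type} [Fintype V] {G : SimpleGraph V} {K : Subgroup (Equiv.Perm V)} {x y w : V} {g : Equiv.Perm V}
lemma three_om (hc : Cubic G) (h3 : Conn3 G) (hK : Ok G K) (hI : (It G K).Nonempty) :
    3 * om G K ≤ (Bd G K).ncard := by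
  have hU : ∀ v, v ∉ Uu G K ↔ v ∈ Rt G K := fun v => by simp [Uu]
  have hfin : ((cl G K (Uu G K)) '' (Uu G K)).Finite := Set.toFinite _
  let X : Set V → Set V := fun C => {x | x ∈ Bd G K ∧ ∃ u ∈ C, G.Adj x u}
  have hcard : ∀ C ∈ (cl G K (Uu G K)) '' (Uu G K), 3 ≤ (X C).ncard := by
    rintro C ⟨a, ha, rfl⟩
    by_contra hlt
    have hle : (X (cl G K (Uu G K) a)).ncard ≤ 2 := by omega
    have hsub := cl_sub (G := G) (K := K) ha
    have h1 := h3 (X (cl G K (Uu G K) a)) (cl G K (Uu G K) a) hle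
      ⟨a, Relation.EqvGen.refl a⟩
      (by
        rw [Set.disjoint_left]
        intro v hv hv'
        exact hsub hv hv'.1.1)
      (by
        intro b hb d hbd
        by_cases hd : d ∈ Uu G K
        · left
          exact Relation.EqvGen.trans _ _ _ hb (Relation.EqvGen.rel _ _ (Or.inl ⟨hsub hb, hd, hbd⟩))
        · right
          have hd' := (hU d).mp hd
          exact ⟨⟨hd', b, hsub hb, hbd.symm⟩, b, hb, hbd.symm⟩)
    obtain ⟨v, hv⟩ := hI
    have h2 : v ∈ cl G K (Uu G K) a ∪ X (cl G K (Uu G K) a) := by rw [h1]; trivial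
    rcases h2 with h2 | h2
    · exact (hsub h2) hv.1
    · obtain ⟨-, u, hu, hvu⟩ := h2.1
      exact hu (hv.2 u hvu)
  have hdisj : ∀ C ∈ hfin.toFinset, ∀ D ∈ hfin.toFinset, C ≠ D →
      Disjoint (X C).toFinset (X D).toFinset := by
    intro C hC D hD hne
    rw [Set.Finite.mem_toFinset] at hC hD
    obtain ⟨a, ha, rfl⟩ := hC
    obtain ⟨b, hb, rfl⟩ := hD
    rw [Finset.disjoint_left]
    intro v hv hv'
    rw [Set.mem_toFinset] at hv hv'
    apply hne
    obtain ⟨hvB, u, hu, hvu⟩ := hv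
    obtain ⟨-, u', hu', hvu'⟩ := hv'
    obtain ⟨σ, hσ, hσu⟩ := bd_class hc hK.le hvB.1 (cl_sub ha hu) (cl_sub hb hu') hvu hvu'
    have h1 : Rl G K (Uu G K) u u' := Relation.EqvGen.rel _ _ (Or.inr ⟨σ, hσ, hσu⟩)
    have h2 : Rl G K (Uu G K) a b :=
      Relation.EqvGen.trans _ _ _ (Relation.EqvGen.trans _ _ _ hu h1) (Relation.EqvGen.symm _ _ hu')
    ext z
    exact ⟨fun hz => Relation.EqvGen.trans _ _ _ (Relation.EqvGen.symm _ _ h2) hz,
      fun hz => Relation.EqvGen.trans _ _ _ h2 hz⟩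
  have h4 : (hfin.toFinset.biUnion fun C => (X C).toFinset).card
      = ∑ C ∈ hfin.toFinset, ((X C).toFinset).card := Finset.card_biUnion hdisj
  have h5 : (hfin.toFinset.biUnion fun C => (X C).toFinset) ⊆ (Bd G K).toFinset := by
    intro v hv
    rw [Finset.mem_biUnion] at hv
    obtain ⟨C, -, hv⟩ := hv
    rw [Set.mem_toFinset] at hv ⊢
    exact hv.1
  have h6 : hfin.toFinset.card • 3 ≤ ∑ C ∈ hfin.toFinset, ((X C).toFinset).card := by
    apply Finset.card_nsmul_le_sum
    intro C hC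
    rw [Set.Finite.mem_toFinset] at hC
    have := hcard C hC
    rwa [Set.ncard_eq_toFinset_card'] at this
  have h7 := Finset.card_le_card h5
  have h8 : om G K = hfin.toFinset.card := by
    unfold om
    rw [Set.ncard_eq_toFinset_card _ hfin]
  rw [h8, Set.ncard_eq_toFinset_card']
  rw [smul_eq_mul] at h6
  omega

end j18three

end Pool.Agent.Helper613.Cub
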