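import Pool.Agent.Helper613.Cub.Base
import Pool.Agent.Helper613.Cub.Step
import Pool.Agent.Helper613.Cub.j10edge
import Pool.Agent.Helper613.Cub.j11cn
import Pool.Agent.Helper613.Cub.j13att2
import Pool.Agent.Helper613.Cub.j14att3
import Pool.Agent.Helper613.Cub.j15om
import Pool.Agent.Helper613.Cub.j17misc
import Pool.Agent.Helper613.Cub.j18three
import Pool.Agent.Helper613.Cub.j19PT
import Pool.Agent.Helper613.Cub.j2sw
import Pool.Agent.Helper613.Cub.j3card
import Pool.Agent.Helper613.Cub.j4ok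
import Pool.Agent.Helper613.Cub.j5free
import Pool.Agent.Helper613.Cub.j6restr
import Pool.Agent.Helper613.Cub.j7out
import Pool.Agent.Helper613.Cub.j8om
import Pool.Agent.Helper613.Cub.j9bd

set_option autoImplicit false


open scoped Classical

noncomputable section

namespace Pool.Agent.Helper613.Cub

namespace k11tstep

open Step
open j10edge
open j11cn
open j13att2
open j14att3
open j15om
open j17misc
open j18three
open j19PT
open j2sw
open j3card
open j4ok
open j5free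
open j6restr
open j7out
open j8om
open j9bd

variable {V : Type} [Fintype V] {G : SimpleGraph V} {K : Subgroup (Equiv.Perm V)} {x y w : V} {g : Equiv.Perm V}
lemma tsp_card (S : Set V) : S.ncard = (Finset.univ.filter (fun u => u ∈ S)).card := by
  rw [← Set.ncard_coe_finset]
  congr 1
  ext u
  simp

/-- adjacency indicator -/
def tsp_a (G : SimpleGraph V) (u v : V) : ℕ := if G.Adj u v then 1 else 0

lemma tsp_sum (S : Set V) (v : V) :
    ∑ u ∈ Finset.univ.filter (fun u => u ∈ S), tsp_a G v u = {u | u ∈ S ∧ G.Adj v u}.ncard := by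
  rw [tsp_card]
  unfold tsp_a
  rw [Finset.sum_ite, Finset.sum_const_zero, add_zero, Finset.sum_const, smul_eq_mul, mul_one,
    Finset.filter_filter]
  congr 1
  ext u
  simp

lemma tsp_two (S T : Set V) (hT : T ⊆ S) (f : V → ℕ) (h1 : ∀ v ∈ T, f v = 2)
    (h2 : ∀ v ∈ S, v ∉ T → f v = 0) :
    ∑ v ∈ Finset.univ.filter (fun u => u ∈ S), f v = 2 * T.ncard := by
  have e : ∑ v ∈ Finset.univ.filter (fun u => u ∈ S), f v
      = ∑ v ∈ Finset.univ.filter (fun u => u ∈ S), if v ∈ T then 2 else 0 := by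
    refine Finset.sum_congr rfl fun v hv => ?_
    have hv' : v ∈ S := (Finset.mem_filter.mp hv).2
    by_cases hvT : v ∈ T
    · rw [if_pos hvT, h1 v hvT]
    · rw [if_neg hvT, h2 v hv' hvT]
  rw [e, Finset.sum_ite, Finset.sum_const_zero, add_zero, Finset.sum_const, smul_eq_mul,
    Finset.filter_filter, tsp_card, mul_comm]
  congr 2
  ext v
  simp only [Finset.mem_filter, Finset.mem_univ, true_and]
  exact ⟨fun hh => hh.2, fun hh => ⟨hT hh, hh⟩⟩

/-- a set closed under the generating moves is a union of classes -/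
lemma tsp_closed {W S : Set V} (hadj : ∀ a ∈ S, ∀ b ∈ W, a ∈ W → G.Adj a b → b ∈ S)
    (hK : ∀ σ ∈ K, ∀ a ∈ S, σ a ∈ S) {a b : V} (hr : Rl G K W a b) : (a ∈ S ↔ b ∈ S) := by
  induction hr with
  | rel a b h =>
    rcases h with ⟨h1, h2, h3⟩ | ⟨σ, hσ, rfl⟩
    · exact ⟨fun h => hadj a h b h2 h1 h3, fun h => hadj b h a h1 h2 h3.symm⟩
    · refine ⟨fun h => hK σ hσ a h, fun h => ?_⟩
      have := hK σ⁻¹ (K.inv_mem hσ) _ h
      simpa using this
  | refl a => exact Iff.rfl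
  | symm a b _ ih => exact ih.symm
  | trans a b c _ _ ih1 ih2 => exact ih1.trans ih2

lemma tsp_mem_self (W : Set V) (a : V) : a ∈ cl G K W a := Relation.EqvGen.refl a

lemma tsp_cl_eq {W : Set V} {a b : V} (h : Rl G K W a b) : cl G K W a = cl G K W b := by
  ext c
  exact ⟨fun hc => Relation.EqvGen.trans _ _ _ (Relation.EqvGen.symm _ _ h) hc,
    fun hc => Relation.EqvGen.trans _ _ _ h hc⟩

/-- `g` maps classes of `stb K y` to classes -/
lemma tsp_g (h : Sw G K x y g w) {a b : V} (hr : Rl G (stb K y) (Uu G (stb K y)) a b) :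
    Rl G (stb K y) (Uu G (stb K y)) (g a) (g b) := by
  have hgA : ∀ u v, G.Adj (g u) (g v) ↔ G.Adj u v := h.ok.le h.hg
  have hgU : ∀ v, g v ∈ Uu G (stb K y) ↔ v ∈ Uu G (stb K y) := by
    intro v
    unfold Uu
    rw [Set.mem_compl_iff, Set.mem_compl_iff, g_Rt h v]
  induction hr with
  | rel a b h' =>
    apply Relation.EqvGen.rel
    rcases h' with ⟨h1, h2, h3⟩ | ⟨σ, hσ, rfl⟩
    · left
      exact ⟨(hgU a).mpr h1, (hgU b).mpr h2, (hgA a b).mpr h3⟩
    · right
      refine ⟨g * σ * g⁻¹, (conj_mem h hσ).1, ?_⟩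
      simp [Equiv.Perm.mul_apply]
  | refl a => exact Relation.EqvGen.refl _
  | symm a b _ ih => exact Relation.EqvGen.symm _ _ ih
  | trans a b c _ _ ih1 ih2 => exact Relation.EqvGen.trans _ _ _ ih1 ih2

/-- the numerical part -/
lemma tsp_num (h4 : No4 G) (h : Sw G K x y g w) {s : ℕ} (ht : Tight G K (s + 2))
    (ho : om G K = 1) :
    Tight G (stb K y) (s + 1) ∧ 2 * (Cn G K y).ncard = (NN G K y).ncard ∧
      2 * om' G K y = (Bn G K y).ncard ∧ om G (stb K y) = om' G K y := by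
  obtain ⟨s', hs1, hs2⟩ := PT2 h.cub h.con h4 (ok_stb h)
  have hc := card_step h
  obtain ⟨ht1, ht2⟩ := ht
  rw [ht1, hs1] at hc
  have hss : s' = s + 1 := by
    have h1 : (2 : ℕ) ^ (s + 2) = 2 ^ (s' + 1) := by rw [hc, pow_succ]; ring
    have h2 := Nat.pow_right_injective (le_refl 2) h1
    omega
  subst hss
  have e1 := om_eq h
  have e2 := Bd_eq h
  have e3 := Uu_card h
  have e4 := Cn_le h4 h
  have e5 := two_om' h
  rw [ho] at e1 ht2
  refine ⟨⟨hs1, ?_⟩, ?_, ?_, ?_⟩ <;> omega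

/-- every new vertex has exactly one old fixed neighbour -/
lemma tsp_one (h4 : No4 G) (h : Sw G K x y g w)
    (hC : 2 * (Cn G K y).ncard = (NN G K y).ncard) :
    ∀ z ∈ Bn G K y, ∀ b ∈ NN G K y, ¬ G.Adj z b := by
  have hmono : Rt G K ⊆ Rt G (stb K y) := Rt_mono (stb_le K y)
  have hsplit : ∀ f : V → ℕ, ∑ u, f u =
      ∑ u ∈ Finset.univ.filter (fun u => u ∈ Rt G K), f u
      + ∑ u ∈ Finset.univ.filter (fun u => u ∈ NN G K y), f u
      + ∑ u ∈ Finset.univ.filter (fun u => u ∈ Uu G (stb K y)), f u := by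
    intro f
    rw [Finset.sum_filter, Finset.sum_filter, Finset.sum_filter, ← Finset.sum_add_distrib,
      ← Finset.sum_add_distrib]
    refine Finset.sum_congr rfl fun u _ => ?_
    by_cases h1 : u ∈ Rt G K
    · have h2 : u ∉ NN G K y := fun hh => hh.2 h1
      have h3 : u ∉ Uu G (stb K y) := fun hh => hh (hmono h1)
      simp [h1, h2, h3]
    · by_cases h2 : u ∈ Rt G (stb K y)
      · have h2' : u ∈ NN G K y := ⟨h2, h1⟩
        have h3 : u ∉ Uu G (stb K y) := fun hh => hh h2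
        simp [h1, h2', h3]
      · have h2' : u ∉ NN G K y := fun hh => h2 hh.1
        have h3 : u ∈ Uu G (stb K y) := h2
        simp [h1, h2', h3]
  have hdeg : ∀ z, ∑ u, tsp_a G z u = 3 := by
    intro z
    have := tsp_sum (G := G) Set.univ z
    simp only [Set.mem_univ, Finset.filter_true, true_and] at this
    rw [this]
    exact h.cub z
  have hA : ∑ z ∈ Finset.univ.filter (fun u => u ∈ NN G K y),
      ∑ u ∈ Finset.univ.filter (fun u => u ∈ Rt G K), tsp_a G z u = 2 * (Cn G K y).ncard := by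
    rw [Finset.sum_comm]
    have hsym : ∀ u z, tsp_a G z u = tsp_a G u z := by
      intro u z
      unfold tsp_a
      rw [G.adj_comm]
    rw [Finset.sum_congr rfl fun u _ => Finset.sum_congr rfl fun z _ => hsym u z]
    rw [Finset.sum_congr rfl fun u _ => tsp_sum (G := G) (NN G K y) u]
    apply tsp_two (Rt G K) (Cn G K y) (fun v hv => hv.1)
    · intro v hv
      exact (Cn_two h hv).1
    · intro v hv hv'
      rw [Set.ncard_eq_zero]
      ext z
      simp only [Set.mem_setOf_eq, Set.mem_empty_iff_false, iff_false, not_and]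
      intro hz hadj
      exact hv' ⟨hv, z, hz, hadj⟩
  -- at most one
  have hle : ∀ z ∈ Finset.univ.filter (fun u => u ∈ NN G K y),
      ∑ u ∈ Finset.univ.filter (fun u => u ∈ Rt G K), tsp_a G z u ≤ 1 := by
    intro z hz
    have hz' : z ∈ NN G K y := (Finset.mem_filter.mp hz).2
    rw [tsp_sum, Set.ncard_le_one_iff]
    rintro a b ⟨ha, ha'⟩ ⟨hb, hb'⟩
    by_contra hab
    obtain ⟨h1, h2, h3⟩ := NN_free h hz'
    have hgA : ∀ u v, G.Adj (g u) (g v) ↔ G.Adj u v := h.ok.le h.hg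
    have hga : g a = a := ha.1 g h.hg
    have hgb : g b = b := hb.1 g h.hg
    have h5 : G.Adj (g z) a := by rw [← hga]; exact (hgA z a).mpr ha'
    have h6 : G.Adj (g z) b := by rw [← hgb]; exact (hgA z b).mpr hb'
    exact h4 z (g z) a b (fun e => h2 e.symm) hab ha' hb' h5 h6
  have heq : ∀ z ∈ Finset.univ.filter (fun u => u ∈ NN G K y),
      ∑ u ∈ Finset.univ.filter (fun u => u ∈ Rt G K), tsp_a G z u = 1 := by
    apply (Finset.sum_eq_sum_iff_of_le hle).mp
    rw [hA, hC, Finset.sum_const, smul_eq_mul, mul_one, tsp_card]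
  intro z hz b hb hadj
  have hzN : z ∈ NN G K y := hz.1
  have e1 := heq z (Finset.mem_filter.mpr ⟨Finset.mem_univ _, hzN⟩)
  have e2 := hdeg z
  rw [hsplit] at e2
  have e3 : ∑ u ∈ Finset.univ.filter (fun u => u ∈ Uu G (stb K y)), tsp_a G z u = 2 := by
    rw [tsp_sum]
    exact Bn_two h hz
  have e4 : ∑ u ∈ Finset.univ.filter (fun u => u ∈ NN G K y), tsp_a G z u = 0 := by omega
  rw [Finset.sum_eq_zero_iff] at e4
  have e5 := e4 b (Finset.mem_filter.mpr ⟨Finset.mem_univ _, hb⟩)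
  unfold tsp_a at e5
  rw [if_pos hadj] at e5
  exact one_ne_zero e5

lemma tsp_stb_fix (h : Sw G K x y g w) {z : V} (hz : z ∈ NN G K y) {σ : Equiv.Perm V}
    (hσ : σ ∈ K) : σ z = z ∨ σ z = g z := by
  have hfix : ∀ τ ∈ stb K y, τ z = z := fun τ hτ => hz.1.1 τ hτ
  rcases coset h σ hσ with h1 | h1
  · left; exact hfix σ h1
  · right
    have h2 := hfix _ h1
    rw [Equiv.Perm.mul_apply] at h2
    obtain ⟨_, _, h3⟩ := NN_free h hz
    apply g.injective
    rw [h2, h3]

lemma tsp_gU (h : Sw G K x y g w) (v : V) : g v ∈ Uu G (stb K y) ↔ v ∈ Uu G (stb K y) := by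
  unfold Uu
  rw [Set.mem_compl_iff, Set.mem_compl_iff, g_Rt h v]

lemma tsp_sub (K : Subgroup (Equiv.Perm V)) (y : V) : Uu G (stb K y) ⊆ Uu G K :=
  fun _ hv hv' => hv (Rt_mono (stb_le K y) hv')

lemma tsp_split {b : V} (hb : b ∈ Uu G K) (y : V) : b ∈ Uu G (stb K y) ∨ b ∈ NN G K y := by
  by_cases h1 : b ∈ Rt G (stb K y)
  · right; exact ⟨h1, hb⟩
  · left; exact h1

/-- all new vertices are boundary vertices -/
lemma tsp_NB (h4 : No4 G) (h : Sw G K x y g w) {s : ℕ} (ht : Tight G K (s + 2))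
    (ho : om G K = 1) : NN G K y = Bn G K y := by
  obtain ⟨ht', hC, hB, hom⟩ := tsp_num h4 h ht ho
  have hone := tsp_one h4 h hC
  have hgA : ∀ u v, G.Adj (g u) (g v) ↔ G.Adj u v := h.ok.le h.hg
  apply Set.Subset.antisymm _ (fun z hz => hz.1)
  intro a ha
  by_contra haB
  -- the set A
  let A : Set V := {z | z ∈ NN G K y ∧ z ∉ Bn G K y}
  have hAadj : ∀ z ∈ A, ∀ b ∈ Uu G K, z ∈ Uu G K → G.Adj z b → b ∈ A := by
    rintro z ⟨hz1, hz2⟩ b hb _ hadj
    rcases tsp_split hb y with h1 | h1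
    · exact absurd ⟨hz1, b, h1, hadj⟩ hz2
    · exact ⟨h1, fun h2 => hone b h2 z hz1 hadj.symm⟩
  have hAg : ∀ z ∈ A, g z ∈ A := by
    rintro z ⟨hz1, hz2⟩
    obtain ⟨h1, h2, h3⟩ := NN_free h hz1
    refine ⟨h1, ?_⟩
    rintro ⟨_, u, hu, hadj⟩
    apply hz2
    refine ⟨hz1, g u, (tsp_gU h u).mpr hu, ?_⟩
    have := (hgA (g z) u).mpr hadj
    rwa [h3] at this
  have hAK : ∀ σ ∈ K, ∀ z ∈ A, σ z ∈ A := by
    intro σ hσ z hz
    rcases tsp_stb_fix h hz.1 hσ with h1 | h1
    · rw [h1]; exact hz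
    · rw [h1]; exact hAg z hz
  have haO : Rl G K (Uu G K) y a := out_Rt h ha
  have hyA : y ∈ A := (tsp_closed hAadj hAK haO).mpr ⟨ha, haB⟩
  have hUA : ∀ u ∈ Uu G K, u ∈ A := by
    intro u hu
    have h1 : cl G K (Uu G K) u ∈ (cl G K (Uu G K)) '' (Uu G K) := ⟨u, hu, rfl⟩
    have h2 : cl G K (Uu G K) y ∈ (cl G K (Uu G K)) '' (Uu G K) := ⟨y, h.hy, rfl⟩
    have h3 := ((Set.ncard_le_one_iff (Set.toFinite _)).mp (le_of_eq ho)) h1 h2
    have h4 : u ∈ cl G K (Uu G K) y := by rw [← h3]; exact tsp_mem_self _ _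
    exact (tsp_closed hAadj hAK h4).mp hyA
  have hU' : Uu G (stb K y) = ∅ := by
    ext u
    simp only [Set.mem_empty_iff_false, iff_false]
    intro hu
    have := hUA u (tsp_sub K y hu)
    exact hu this.1.1
  have hom0 : om G (stb K y) = 0 := by
    unfold om
    rw [hU', Set.image_empty, Set.ncard_empty]
  have hbot := om_zero (ok_stb h) hom0
  have h1 := ht'.1
  rw [hbot, Subgroup.card_bot] at h1
  have h2 : 1 < 2 ^ (s + 1) := Nat.one_lt_two_pow (by omega)
  omega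

lemma tsp_yN (h : Sw G K x y g w) : y ∈ NN G K y := by
  refine ⟨⟨fun σ hσ => hσ.2, x, Fx_mono (stb_le K y) h.hx.1, ?_⟩, h.hy⟩
  exact ((h.nb y).mpr (Or.inl rfl)).symm

/-- the attached sets have exactly two elements -/
lemma tsp_att (h : Sw G K x y g w) (hB : 2 * om' G K y = (Bn G K y).ncard) {u : V}
    (hu : u ∈ OO G K y) (hu' : u ∈ Uu G (stb K y)) :
    {z | z ∈ Bn G K y ∧ ∃ v ∈ cl G (stb K y) (Uu G (stb K y)) u, G.Adj z v}.ncard = 2 := by
  let S : Set (Set V) := (cl G (stb K y) (Uu G (stb K y))) '' (OO G K y ∩ Uu G (stb K y))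
  let att : Set V → Set V := fun c => {z | z ∈ Bn G K y ∧ ∃ v ∈ c, G.Adj z v}
  have hSfin : S.Finite := Set.toFinite _
  let Sf : Finset (Set V) := hSfin.toFinset
  have hSf : ∀ c, c ∈ Sf ↔ c ∈ S := fun c => hSfin.mem_toFinset
  have hcard : Sf.card = om' G K y := (Set.ncard_eq_toFinset_card S hSfin).symm
  let aF : Set V → Finset V := fun c => Finset.univ.filter (fun z => z ∈ att c)
  have haF : ∀ c, (aF c).card = (att c).ncard := by
    intro c
    rw [tsp_card]
    congr 1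
    ext z
    simp [aF]
  have hge : ∀ c ∈ Sf, 2 ≤ (aF c).card := by
    intro c hc
    obtain ⟨a, ⟨ha1, ha2⟩, rfl⟩ := (hSf c).mp hc
    rw [haF]
    exact att_two h ha1 ha2
  have hdisj : (Sf : Set (Set V)).PairwiseDisjoint aF := by
    intro c hc d hd hcd
    obtain ⟨a, ⟨ha1, ha2⟩, hca⟩ := (hSf c).mp hc
    obtain ⟨b, ⟨hb1, hb2⟩, hdb⟩ := (hSf d).mp hd
    rw [Function.onFun, Finset.disjoint_left]
    intro z hz1 hz2
    obtain ⟨hzB, v1, hv1, hadj1⟩ := (Finset.mem_filter.mp hz1).2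
    obtain ⟨_, v2, hv2, hadj2⟩ := (Finset.mem_filter.mp hz2).2
    apply hcd
    rw [← hca] at hv1
    rw [← hdb] at hv2
    have hU1 : v1 ∈ Uu G (stb K y) := cl_sub ha2 hv1
    have hU2 : v2 ∈ Uu G (stb K y) := cl_sub hb2 hv2
    obtain ⟨σ, hσ, hσe⟩ := bd_class h.cub (ok_stb h).le hzB.1.1 hU1 hU2 hadj1 hadj2
    have h12 : Rl G (stb K y) (Uu G (stb K y)) v1 v2 :=
      Relation.EqvGen.rel _ _ (Or.inr ⟨σ, hσ, hσe⟩)
    have hab : Rl G (stb K y) (Uu G (stb K y)) a b :=
      Relation.EqvGen.trans _ _ _ hv1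
        (Relation.EqvGen.trans _ _ _ h12 (Relation.EqvGen.symm _ _ hv2))
    rw [← hca, ← hdb]
    exact tsp_cl_eq hab
  have hsum : ∑ c ∈ Sf, (aF c).card ≤ (Bn G K y).ncard := by
    rw [← Finset.card_biUnion hdisj, tsp_card (Bn G K y)]
    apply Finset.card_le_card
    intro z hz
    obtain ⟨c, hc, hzc⟩ := Finset.mem_biUnion.mp hz
    exact Finset.mem_filter.mpr ⟨Finset.mem_univ _, ((Finset.mem_filter.mp hzc).2).1⟩
  have hall : ∀ c ∈ Sf, 2 = (aF c).card := by
    apply (Finset.sum_eq_sum_iff_of_le hge).mp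
    apply le_antisymm
    · exact Finset.sum_le_sum hge
    · rw [Finset.sum_const, smul_eq_mul, hcard]
      omega
  have hmem : cl G (stb K y) (Uu G (stb K y)) u ∈ Sf := (hSf _).mpr ⟨u, ⟨hu, hu'⟩, rfl⟩
  have := hall _ hmem
  rw [haF] at this
  exact this.symm

lemma tight_step (h4 : No4 G) (h : Sw G K x y g w) {s : ℕ} (ht : Tight G K (s + 2)) (ho : om G K = 1) :
    Tight G (stb K y) (s + 1) ∧ om G (stb K y) = 1 ∧ Bd G (stb K y) = (Bd G K \ {x}) ∪ {y, g y} := by
  obtain ⟨ht', hC, hB, hom⟩ := tsp_num h4 h ht ho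
  have hone := tsp_one h4 h hC
  have hNB := tsp_NB h4 h ht ho
  have hyN := tsp_yN h
  have hgA : ∀ u v, G.Adj (g u) (g v) ↔ G.Adj u v := h.ok.le h.hg
  obtain ⟨hgyN, _, hggy⟩ := NN_free h hyN
  have hyB : y ∈ Bn G K y := hNB ▸ hyN
  have hgyB : g y ∈ Bn G K y := hNB ▸ hgyN
  obtain ⟨_, u, hu, hyu⟩ := hyB
  have huO : u ∈ OO G K y :=
    Relation.EqvGen.rel _ _ (Or.inl ⟨h.hy, tsp_sub K y hu, hyu⟩)
  have hatt := tsp_att h hB huO hu
  have hguC : g u ∈ cl G (stb K y) (Uu G (stb K y)) u := by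
    by_contra hcon
    have := att_three h huO hu hcon
    omega
  set C : Set V := cl G (stb K y) (Uu G (stb K y)) u with hCdef
  have huC : u ∈ C := tsp_mem_self _ _
  have hCU : C ⊆ Uu G (stb K y) := cl_sub hu
  have hatt2 : {z | z ∈ Bn G K y ∧ ∃ v ∈ C, G.Adj z v} = {y, g y} := by
    symm
    apply Set.eq_of_subset_of_ncard_le
    · intro z hz
      rcases hz with hz | hz
      · rw [hz]; exact ⟨hNB ▸ hyN, u, huC, hyu⟩
      · rw [Set.mem_singleton_iff] at hz
        rw [hz]; exact ⟨hgyB, g u, hguC, (hgA y u).mpr hyu⟩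
    · rw [hatt, Set.ncard_pair (fun e => h.gy e.symm)]
    · exact Set.toFinite _
  -- invariance of C
  have hCK' : ∀ σ ∈ stb K y, ∀ a ∈ C, σ a ∈ C := by
    intro σ hσ a ha
    exact Relation.EqvGen.trans _ _ _ ha (Relation.EqvGen.rel _ _ (Or.inr ⟨σ, hσ, rfl⟩))
  have hCg : ∀ a ∈ C, g a ∈ C := by
    intro a ha
    exact Relation.EqvGen.trans _ _ _ hguC (tsp_g h ha)
  have hCg' : ∀ a, g a ∈ C → a ∈ C := by
    intro a ha
    have h1 := hCg _ ha
    have h2 : Rl G (stb K y) (Uu G (stb K y)) a (g (g a)) :=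
      Relation.EqvGen.rel _ _ (Or.inr ⟨g * g, sq_mem h, rfl⟩)
    exact Relation.EqvGen.trans _ _ _ h1 (Relation.EqvGen.symm _ _ h2)
  let D : Set V := {z | z ∈ C ∨ z = y ∨ z = g y}
  have hDadj : ∀ a ∈ D, ∀ b ∈ Uu G K, a ∈ Uu G K → G.Adj a b → b ∈ D := by
    rintro a ha b hb _ hadj
    rcases ha with ha | ha | ha
    · rcases tsp_split hb y with h1 | h1
      · left
        exact Relation.EqvGen.trans _ _ _ ha (Relation.EqvGen.rel _ _ (Or.inl ⟨hCU ha, h1, hadj⟩))
      · right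
        have h2 : b ∈ ({y, g y} : Set V) := by
          rw [← hatt2]
          exact ⟨hNB ▸ h1, a, ha, hadj.symm⟩
        exact h2
    · subst ha
      rcases tsp_split hb a with h1 | h1
      · left
        obtain ⟨σ, hσ, hσe⟩ := bd_class h.cub (ok_stb h).le hyN.1 hu h1 hyu hadj
        rw [← hσe]
        exact hCK' σ hσ u huC
      · exact absurd hadj (hone a (hNB ▸ hyN) b h1)
    · subst ha
      rcases tsp_split hb y with h1 | h1
      · left
        obtain ⟨σ, hσ, hσe⟩ := bd_class h.cub (ok_stb h).le hgyN.1 (hCU hguC) h1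
          ((hgA y u).mpr hyu) hadj
        rw [← hσe]
        exact hCK' σ hσ _ hguC
      · exact absurd hadj (hone (g y) hgyB b h1)
  have hDK : ∀ σ ∈ K, ∀ a ∈ D, σ a ∈ D := by
    intro σ hσ a ha
    rcases ha with ha | ha | ha
    · left
      rcases coset h σ hσ with h1 | h1
      · exact hCK' σ h1 a ha
      · apply hCg'
        exact hCK' _ h1 a ha
    · right
      rw [ha]
      exact h.orb σ hσ
    · right
      rw [ha]
      exact h.orb (σ * g) (K.mul_mem hσ h.hg)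
  have hOD : ∀ v ∈ OO G K y, v ∈ D := fun v hv =>
    (tsp_closed hDadj hDK hv).mp (Or.inr (Or.inl rfl))
  have hUy : y ∉ Uu G (stb K y) := fun hh => hh hyN.1
  have hUgy : g y ∉ Uu G (stb K y) := fun hh => hh hgyN.1
  have hom1 : om' G K y = 1 := by
    unfold om'
    rw [Set.ncard_eq_one]
    refine ⟨C, ?_⟩
    apply Set.Subset.antisymm
    · rintro c ⟨v, ⟨hv1, hv2⟩, rfl⟩
      rw [Set.mem_singleton_iff]
      have hvC : v ∈ C := by
        rcases hOD v hv1 with h1 | h1 | h1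
        · exact h1
        · exact absurd (h1 ▸ hv2) hUy
        · exact absurd (h1 ▸ hv2) hUgy
      exact (tsp_cl_eq hvC).symm
    · rintro c hc
      rw [Set.mem_singleton_iff] at hc
      rw [hc]
      exact ⟨u, ⟨huO, hu⟩, rfl⟩
  have hNN : NN G K y = {y, g y} := by
    apply Set.Subset.antisymm
    · intro z hz
      rcases hOD z (out_Rt h hz) with h1 | h1 | h1
      · exact absurd hz.1 (hCU h1)
      · left; exact h1
      · right; exact h1
    · intro z hz
      rcases hz with hz | hz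
      · rw [hz]; exact hyN
      · rw [Set.mem_singleton_iff] at hz
        rw [hz]; exact hgyN
  have hNc : (NN G K y).ncard = 2 := by
    rw [hNN, Set.ncard_pair (fun e => h.gy e.symm)]
  have hCn1 : (Cn G K y).ncard = 1 := by omega
  have hxC : x ∈ Cn G K y := ⟨h.hx, y, hyN, (h.nb y).mpr (Or.inl rfl)⟩
  have hCnx : ∀ z ∈ Cn G K y, z = x := by
    intro z hz
    exact ((Set.ncard_le_one_iff (Set.toFinite _)).mp (le_of_eq hCn1)) hz hxC
  refine ⟨ht', by rw [hom, hom1], ?_⟩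
  apply Set.Subset.antisymm
  · rintro z ⟨hz, v, hv, hadj⟩
    by_cases hzR : z ∈ Rt G K
    · left
      refine ⟨⟨hzR, v, tsp_sub K y hv, hadj⟩, ?_⟩
      rintro rfl
      exact hv ((Cn_two h hxC).2 v hadj)
    · right
      rw [← hNN]
      exact ⟨hz, hzR⟩
  · rintro z (⟨⟨hz, v, hv, hadj⟩, hzx⟩ | hz)
    · refine ⟨Rt_mono (stb_le K y) hz, v, ?_, hadj⟩
      rcases tsp_split hv y with h1 | h1
      · exact h1
      · exact absurd (hCnx z ⟨hz, v, h1, hadj⟩) hzx
    · rw [← hNN, hNB] at hz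
      obtain ⟨hz1, v, hv, hadj⟩ := hz
      exact ⟨hz1.1, v, hv, hadj⟩

end k11tstep

end Pool.Agent.Helper613.Cub
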