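import Pool.Agent.Helper613.Cub.Base
import Pool.Agent.Helper613.Cub.Step
import Pool.Agent.Helper613.Cub.j10edge
import Pool.Agent.Helper613.Cub.j11cn
import Pool.Agent.Helper613.Cub.j13att2
import Pool.Agent.Helper613.Cub.j14att3
import Pool.Agent.Helper613.Cub.j15om
import Pool.Agent.Helper613.Cub.j17misc
import Pool.Agent.Helper613.Cub.j18three
import Pool.Agent.Helper613.Cub.j19PT
import Pool.Agent.Helper613.Cub.j2sw
import Pool.Agent.Helper613.Cub.j3card
import Pool.Agent.Helper613.Cub.j4ok
import Pool.Agent.Helper613.Cub.j5free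
import Pool.Agent.Helper613.Cub.j6restr
import Pool.Agent.Helper613.Cub.j7out
import Pool.Agent.Helper613.Cub.j8om
import Pool.Agent.Helper613.Cub.j9bd

set_option autoImplicit false


open scoped Classical

noncomputable section

namespace Pool.Agent.Helper613.Cub

namespace k12tone

open Step
open j10edge
open j11cn
open j13att2
open j14att3
open j15om
open j17misc
open j18three
open j19PT
open j2sw
open j3card
open j4ok
open j5free
open j6restr
open j7out
open j8om
open j9bd

variable {V : Type} [Fintype V] {G : SimpleGraph V} {K : Subgroup (Equiv.Perm V)} {x y w : V} {g : Equiv.Perm V}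
lemma tight_one (h4 : No4 G) (h : Sw G K x y g w) (ht : Tight G K 1) (ho : om G K = 1) :
    ∀ u ∈ Uu G K, {z | z ∈ Rt G K ∧ G.Adj u z}.ncard = 1 := by
  obtain ⟨hc, ht2⟩ := ht
  have h1 := card_step h
  have h2 : Nat.card (stb K y) = 1 := by
    rw [hc] at h1
    omega
  have hbot : stb K y = ⊥ := Subgroup.card_eq_one.1 h2
  have hU' : Uu G (stb K y) = ∅ := triv_case h.cub hbot
  have hNN : NN G K y = Uu G K := by
    ext v
    constructor
    · rintro ⟨_, hv⟩
      exact hv
    · intro hv
      refine ⟨?_, hv⟩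
      by_contra h3
      have h5 : v ∈ Uu G (stb K y) := h3
      rw [hU'] at h5
      exact h5
  have hBn : Bn G K y = ∅ := by
    ext v
    constructor
    · rintro ⟨_, u, hu, _⟩
      rw [hU'] at hu
      exact hu.elim
    · intro hv
      exact hv.elim
  have hBd : Bd G (stb K y) = ∅ := by
    ext v
    constructor
    · rintro ⟨_, u, hu, _⟩
      rw [hU'] at hu
      exact hu.elim
    · intro hv
      exact hv.elim
  have h3 := Bd_eq h
  rw [hBn, hBd, Set.ncard_empty] at h3
  have h5 : 2 * (Cn G K y).ncard = (Uu G K).ncard := by omega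
  have hle : ∀ u ∈ Uu G K, {z | z ∈ Rt G K ∧ G.Adj u z}.ncard ≤ 1 := by
    intro u hu
    rw [Set.ncard_le_one (Set.toFinite _)]
    rintro a ⟨ha, hua⟩ b ⟨hb, hub⟩
    by_contra hab
    have hz := NN_free h (z := u) (by rw [hNN]; exact hu)
    have hgA := h.ok.le h.hg
    have e1 : G.Adj a (g u) := by
      have h6 := (hgA a u).2 hua.symm
      rwa [ha.1 g h.hg] at h6
    have e2 : G.Adj b (g u) := by
      have h6 := (hgA b u).2 hub.symm
      rwa [hb.1 g h.hg] at h6
    exact h4 a b u (g u) hab (Ne.symm hz.2.1) hua.symm e1 hub.symm e2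
  have hcount : ∑ u ∈ (Uu G K).toFinset, {z | z ∈ Rt G K ∧ G.Adj u z}.ncard
      = (Uu G K).toFinset.card := by
    have e1 : ∀ u ∈ (Uu G K).toFinset, {z | z ∈ Rt G K ∧ G.Adj u z}.ncard
        = ∑ a ∈ (Cn G K y).toFinset, if G.Adj a u then 1 else 0 := by
      intro u hu
      rw [Set.mem_toFinset] at hu
      rw [← Finset.card_filter, ← Set.ncard_coe_finset]
      congr 1
      ext a
      simp only [Finset.coe_filter, Set.mem_toFinset, Set.mem_ofPred_eq]
      constructor
      · rintro ⟨ha, hua⟩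
        exact ⟨⟨ha, u, by rw [hNN]; exact hu, hua.symm⟩, hua.symm⟩
      · rintro ⟨ha, hua⟩
        exact ⟨ha.1, hua.symm⟩
    rw [Finset.sum_congr rfl e1, Finset.sum_comm]
    have e2 : ∀ a ∈ (Cn G K y).toFinset,
        (∑ u ∈ (Uu G K).toFinset, if G.Adj a u then 1 else 0) = 2 := by
      intro a ha
      rw [Set.mem_toFinset] at ha
      rw [← (Cn_two h ha).1, ← Finset.card_filter, ← Set.ncard_coe_finset]
      congr 1
      ext u
      simp only [Finset.coe_filter, Set.mem_toFinset, Set.mem_ofPred_eq, hNN]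
    rw [Finset.sum_congr rfl e2, Finset.sum_const, smul_eq_mul, ← Set.ncard_eq_toFinset_card',
      ← Set.ncard_eq_toFinset_card']
    omega
  intro u0 hu0
  by_contra hne
  have hlt : {z | z ∈ Rt G K ∧ G.Adj u0 z}.ncard < 1 :=
    lt_of_le_of_ne (hle u0 hu0) hne
  have h6 : ∑ u ∈ (Uu G K).toFinset, {z | z ∈ Rt G K ∧ G.Adj u z}.ncard
      < ∑ u ∈ (Uu G K).toFinset, 1 := by
    apply Finset.sum_lt_sum
    · intro u hu
      exact hle u (Set.mem_toFinset.1 hu)
    · exact ⟨u0, Set.mem_toFinset.2 hu0, hlt⟩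
  rw [hcount] at h6
  simp at h6

end k12tone

end Pool.Agent.Helper613.Cub
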