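import Pool.Agent.Helper613.Cub.Base
import Pool.Agent.Helper613.Cub.j17misc
import Pool.Agent.Helper613.Cub.j2sw
import Pool.Agent.Helper613.Cub.j4ok
import Pool.Agent.Helper613.Cub.k11tstep
import Pool.Agent.Helper613.Cub.k12tone

set_option autoImplicit false


open scoped Classical

noncomputable section

namespace Pool.Agent.Helper613.Cub

namespace k13tbip

open j17misc
open j2sw
open j4ok
open k11tstep
open k12tone

variable {V : Type} [Fintype V] {G : SimpleGraph V} {K : Subgroup (Equiv.Perm V)} {x y w : V} {g : Equiv.Perm V}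
lemma tb_dc (A B : Set V) (k l : ℕ) (hA : ∀ a ∈ A, {b | b ∈ B ∧ G.Adj a b}.ncard = k)
    (hB : ∀ b ∈ B, {a | a ∈ A ∧ G.Adj b a}.ncard = l) : A.ncard * k = B.ncard * l := by
  rw [Set.ncard_eq_toFinset_card' A, Set.ncard_eq_toFinset_card' B]
  apply Finset.card_mul_eq_card_mul G.Adj
  · intro a ha
    rw [Set.mem_toFinset] at ha
    rw [← hA a ha, Set.ncard_eq_toFinset_card']
    congr 1
    ext b
    simp [Finset.mem_bipartiteAbove]
  · intro b hb
    rw [Set.mem_toFinset] at hb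
    rw [← hB b hb, Set.ncard_eq_toFinset_card']
    congr 1
    ext a
    simp [Finset.mem_bipartiteBelow, G.adj_comm a b]

lemma tb_deg (hc : Cubic G) (K : Subgroup (Equiv.Perm V)) (u : V)
    (h : {z | z ∈ Rt G K ∧ G.Adj u z}.ncard = 1) : {z | z ∈ Uu G K ∧ G.Adj u z}.ncard = 2 := by
  have h1 : G.neighborSet u = {z | z ∈ Rt G K ∧ G.Adj u z} ∪ {z | z ∈ Uu G K ∧ G.Adj u z} := by
    ext z
    simp only [SimpleGraph.mem_neighborSet, Set.mem_union, Set.mem_setOf_eq, Uu, Set.mem_compl_iff]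
    tauto
  have h2 : Disjoint {z | z ∈ Rt G K ∧ G.Adj u z} {z | z ∈ Uu G K ∧ G.Adj u z} := by
    rw [Set.disjoint_left]
    intro z hz hz'
    exact hz'.1 hz.1
  have h3 := hc u
  rw [h1, Set.ncard_union_eq h2 (Set.toFinite _) (Set.toFinite _), h] at h3
  omega

lemma tb_step1 (B A : Set V) (x y y' : V) (hx : x ∈ B) (hy : y ∉ A) (hy' : y' ∉ A) (hxA : x ∈ A) :
    (((B \ {x}) ∪ {y, y'}) ∩ A).ncard + 1 = (B ∩ A).ncard := by
  have h1 : ((B \ {x}) ∪ {y, y'}) ∩ A = (B ∩ A) \ {x} := by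
    ext z
    simp only [Set.mem_inter_iff, Set.mem_union, Set.mem_diff, Set.mem_singleton_iff,
      Set.mem_insert_iff]
    constructor
    · rintro ⟨h | h, hA⟩
      · exact ⟨⟨h.1, hA⟩, h.2⟩
      · rcases h with rfl | rfl
        · exact absurd hA hy
        · exact absurd hA hy'
    · rintro ⟨⟨h, hA⟩, h2⟩
      exact ⟨Or.inl ⟨h, h2⟩, hA⟩
  rw [h1]
  exact Set.ncard_diff_singleton_add_one ⟨hx, hxA⟩ (Set.toFinite _)

lemma tb_step2 (B A : Set V) (x y y' : V) (hy : y ∈ A) (hy' : y' ∈ A) (hxA : x ∉ A)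
    (hyB : y ∉ B) (hyB' : y' ∉ B) (hne : y ≠ y') :
    (((B \ {x}) ∪ {y, y'}) ∩ A).ncard = (B ∩ A).ncard + 2 := by
  have h1 : ((B \ {x}) ∪ {y, y'}) ∩ A = (B ∩ A) ∪ {y, y'} := by
    ext z
    simp only [Set.mem_inter_iff, Set.mem_union, Set.mem_diff, Set.mem_singleton_iff,
      Set.mem_insert_iff]
    constructor
    · rintro ⟨h | h, hA⟩
      · exact Or.inl ⟨h.1, hA⟩
      · exact Or.inr h
    · rintro (⟨h, hA⟩ | h)
      · refine ⟨Or.inl ⟨h, ?_⟩, hA⟩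
        rintro rfl
        exact hxA hA
      · refine ⟨Or.inr h, ?_⟩
        rcases h with rfl | rfl
        · exact hy
        · exact hy'
  rw [h1, Set.ncard_union_eq _ (Set.toFinite _) (Set.toFinite _), Set.ncard_pair hne]
  rw [Set.disjoint_left]
  rintro z ⟨hz, _⟩ (rfl | rfl)
  · exact hyB hz
  · exact hyB' hz

lemma tb_step (hc : Cubic G) (h3 : Conn3 G) (h4 : No4 G) {P : Set V}
    (hP : ∀ a b, G.Adj a b → (a ∈ P ↔ b ∉ P)) (s : ℕ) (K : Subgroup (Equiv.Perm V)) (hK : Ok G K)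
    (ht : Tight G K (s + 2)) (ho : om G K = 1) (x : V) (hx : x ∈ Bd G K) :
    ∃ K' : Subgroup (Equiv.Perm V), Ok G K' ∧ Tight G K' (s + 1) ∧ om G K' = 1 ∧
      (x ∈ P → (Bd G K' ∩ P).ncard + 1 = (Bd G K ∩ P).ncard ∧
        (Bd G K' \ P).ncard = (Bd G K \ P).ncard + 2) ∧
      (x ∉ P → (Bd G K' ∩ P).ncard = (Bd G K ∩ P).ncard + 2 ∧
        (Bd G K' \ P).ncard + 1 = (Bd G K \ P).ncard) := by
  obtain ⟨hxR, y, hy, hxy⟩ := id hx
  obtain ⟨g, w, hS⟩ := exists_Sw hc h3 hK hxR hy hxy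
  obtain ⟨t1, t2, t3⟩ := tight_step h4 hS ht ho
  have hxgy : G.Adj x (g y) := (hS.nb (g y)).mpr (Or.inr (Or.inl rfl))
  have hyB : y ∉ Bd G K := fun h => hy h.1
  have hgyB : g y ∉ Bd G K := fun h => hS.gyU h.1
  have p1 := hP x y hxy
  have p2 := hP x (g y) hxgy
  refine ⟨stb K y, ok_stb hS, t1, t2, fun hxP => ?_, fun hxP => ?_⟩
  · have q1 : y ∉ P := p1.mp hxP
    have q2 : g y ∉ P := p2.mp hxP
    rw [t3, Set.diff_eq, Set.diff_eq]
    exact ⟨tb_step1 _ _ _ _ _ hx q1 q2 hxP,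
      tb_step2 _ _ _ _ _ q1 q2 (fun h => h hxP) hyB hgyB hS.gy.symm⟩
  · have q1 : y ∈ P := by
      by_contra h
      exact hxP (p1.mpr h)
    have q2 : g y ∈ P := by
      by_contra h
      exact hxP (p2.mpr h)
    rw [t3, Set.diff_eq, Set.diff_eq]
    exact ⟨tb_step2 _ _ _ _ _ q1 q2 hxP hyB hgyB hS.gy.symm,
      tb_step1 _ _ _ _ _ hx (fun h => h q1) (fun h => h q2) hxP⟩

lemma tb_claim (hc : Cubic G) (h3 : Conn3 G) (h4 : No4 G) {P : Set V}
    (hP : ∀ a b, G.Adj a b → (a ∈ P ↔ b ∉ P)) (K : Subgroup (Equiv.Perm V)) (hK : Ok G K)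
    (ht : Tight G K 1) (ho : om G K = 1) : (Bd G K ∩ P).ncard = (Bd G K \ P).ncard := by
  have hne : K ≠ ⊥ := by
    rintro rfl
    have h1 := ht.1
    rw [Subgroup.card_bot] at h1
    norm_num at h1
  obtain ⟨x, hx, y, hy, hxy⟩ := exists_step h3 hK hne
  obtain ⟨g, w, hS⟩ := exists_Sw hc h3 hK hx hy hxy
  have h1 := tight_one h4 hS ht ho
  have h2 : ∀ u ∈ Uu G K, {z | z ∈ Uu G K ∧ G.Adj u z}.ncard = 2 := fun u hu =>
    tb_deg hc K u (h1 u hu)
  have hb2 : ∀ d ∈ Bd G K, {u | u ∈ Uu G K ∧ G.Adj d u}.ncard = 2 := fun d hd =>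
    (bd_two hc hK.le hd).1
  have c1 : (Uu G K ∩ P).ncard * 1 = (Bd G K \ P).ncard * 2 := by
    apply tb_dc (G := G)
    · rintro a ⟨ha, haP⟩
      rw [← h1 a ha]
      congr 1
      ext z
      simp only [Set.mem_setOf_eq]
      constructor
      · rintro ⟨⟨⟨hz, _⟩, _⟩, haz⟩
        exact ⟨hz, haz⟩
      · rintro ⟨hz, haz⟩
        exact ⟨⟨⟨hz, a, ha, haz.symm⟩, (hP a z haz).mp haP⟩, haz⟩
    · rintro d ⟨hd, hdP⟩
      rw [← hb2 d hd]
      congr 1
      ext z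
      simp only [Set.mem_setOf_eq]
      constructor
      · rintro ⟨⟨hz, _⟩, haz⟩
        exact ⟨hz, haz⟩
      · rintro ⟨hz, haz⟩
        refine ⟨⟨hz, ?_⟩, haz⟩
        by_contra h
        exact hdP ((hP d z haz).mpr h)
  have c2 : (Uu G K \ P).ncard * 1 = (Bd G K ∩ P).ncard * 2 := by
    apply tb_dc (G := G)
    · rintro a ⟨ha, haP⟩
      rw [← h1 a ha]
      congr 1
      ext z
      simp only [Set.mem_setOf_eq]
      constructor
      · rintro ⟨⟨⟨hz, _⟩, _⟩, haz⟩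
        exact ⟨hz, haz⟩
      · rintro ⟨hz, haz⟩
        refine ⟨⟨⟨hz, a, ha, haz.symm⟩, ?_⟩, haz⟩
        by_contra h
        exact haP ((hP a z haz).mpr h)
    · rintro d ⟨hd, hdP⟩
      rw [← hb2 d hd]
      congr 1
      ext z
      simp only [Set.mem_setOf_eq]
      constructor
      · rintro ⟨⟨hz, _⟩, haz⟩
        exact ⟨hz, haz⟩
      · rintro ⟨hz, haz⟩
        exact ⟨⟨hz, (hP d z haz).mp hdP⟩, haz⟩
  have c3 : (Uu G K ∩ P).ncard * 2 = (Uu G K \ P).ncard * 2 := by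
    apply tb_dc (G := G)
    · rintro a ⟨ha, haP⟩
      rw [← h2 a ha]
      congr 1
      ext z
      simp only [Set.mem_setOf_eq]
      constructor
      · rintro ⟨⟨hz, _⟩, haz⟩
        exact ⟨hz, haz⟩
      · rintro ⟨hz, haz⟩
        exact ⟨⟨hz, (hP a z haz).mp haP⟩, haz⟩
    · rintro d ⟨hd, hdP⟩
      rw [← h2 d hd]
      congr 1
      ext z
      simp only [Set.mem_setOf_eq]
      constructor
      · rintro ⟨⟨hz, _⟩, haz⟩
        exact ⟨hz, haz⟩
      · rintro ⟨hz, haz⟩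
        refine ⟨⟨hz, ?_⟩, haz⟩
        by_contra h
        exact hdP ((hP d z haz).mpr h)
  omega

lemma tight_bip (hc : Cubic G) (h3 : Conn3 G) (h4 : No4 G) {P : Set V}
    (hP : ∀ a b, G.Adj a b → (a ∈ P ↔ b ∉ P)) (s : ℕ) (K : Subgroup (Equiv.Perm V)) (hK : Ok G K)
    (ht : Tight G K (s + 2)) (ho : om G K = 1) (h1 : (Bd G K ∩ P).Nonempty) (h2 : (Bd G K \ P).Nonempty)
    (hB : 4 ≤ (Bd G K).ncard) : False := by
  induction s generalizing K with
  | zero =>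
    obtain ⟨x, hx, hxP⟩ := h1
    obtain ⟨x', hx', hxP'⟩ := h2
    obtain ⟨K1, a1, a2, a3, a4, _⟩ := tb_step hc h3 h4 hP 0 K hK ht ho x hx
    obtain ⟨K2, b1, b2, b3, _, b4⟩ := tb_step hc h3 h4 hP 0 K hK ht ho x' hx'
    have c1 := tb_claim hc h3 h4 hP K1 a1 a2 a3
    have c2 := tb_claim hc h3 h4 hP K2 b1 b2 b3
    have d1 := a4 hxP
    have d2 := b4 hxP'
    omega
  | succ s ih =>
    have hsum := Set.ncard_inter_add_ncard_diff_eq_ncard (Bd G K) P (Set.toFinite _)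
    have p1 : 0 < (Bd G K ∩ P).ncard := (Set.ncard_pos (Set.toFinite _)).mpr h1
    have q1 : 0 < (Bd G K \ P).ncard := (Set.ncard_pos (Set.toFinite _)).mpr h2
    by_cases h : 2 ≤ (Bd G K ∩ P).ncard
    · obtain ⟨x, hx, hxP⟩ := h1
      obtain ⟨K1, a1, a2, a3, a4, _⟩ := tb_step hc h3 h4 hP (s + 1) K hK ht ho x hx
      have d1 := a4 hxP
      have hsum1 := Set.ncard_inter_add_ncard_diff_eq_ncard (Bd G K1) P (Set.toFinite _)
      refine ih K1 a1 a2 a3 ?_ ?_ (by omega)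
      · exact (Set.ncard_pos (Set.toFinite _)).mp (by omega)
      · exact (Set.ncard_pos (Set.toFinite _)).mp (by omega)
    · obtain ⟨x, hx, hxP⟩ := h2
      obtain ⟨K1, a1, a2, a3, _, a4⟩ := tb_step hc h3 h4 hP (s + 1) K hK ht ho x hx
      have d1 := a4 hxP
      have hsum1 := Set.ncard_inter_add_ncard_diff_eq_ncard (Bd G K1) P (Set.toFinite _)
      refine ih K1 a1 a2 a3 ?_ ?_ (by omega)
      · exact (Set.ncard_pos (Set.toFinite _)).mp (by omega)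
      · exact (Set.ncard_pos (Set.toFinite _)).mp (by omega)

end k13tbip

end Pool.Agent.Helper613.Cub
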