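import Pool.Agent.Helper613.Cub.Base

set_option autoImplicit false


open scoped Classical

noncomputable section

namespace Pool.Agent.Helper613.Cub

namespace k1ok


variable {V : Type} [Fintype V] {G : SimpleGraph V} {K : Subgroup (Equiv.Perm V)} {x y w : V} {g : Equiv.Perm V}
lemma mem_Rt_FS {S : Set V} (h : ∀ v ∈ S, ∃ u ∈ Fx (FS G S), G.Adj v u) {v : V} (hv : v ∈ S) :
    v ∈ Rt G (FS G S) := by
  refine ⟨?_, h v hv⟩
  intro σ hσ
  exact hσ.2 v hv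

lemma ok_FS {S : Set V} (hS : S.Nonempty) (h : ∀ v ∈ S, ∃ u ∈ Fx (FS G S), G.Adj v u) : Ok G (FS G S) := by
  refine ⟨fun σ hσ => hσ.1, ?_, ?_⟩
  · intro σ hσ hf
    exact ⟨hσ, fun v hv => hf v (mem_Rt_FS h hv)⟩
  · obtain ⟨v, hv⟩ := hS
    exact ⟨v, mem_Rt_FS h hv⟩

lemma ok_Gm (hc : Cubic G) (v : V) : Ok G (Gm G v) ∧ v ∈ It G (Gm G v) := by
  obtain ⟨a, b, c, hab, hac, hbc, hn⟩ := nb3 hc v
  have hS : ∀ w ∈ insert v (G.neighborSet v), ∃ u ∈ Fx (FS G (insert v (G.neighborSet v))), G.Adj w u := by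
    intro w hw
    rcases hw with hw | hw
    · subst hw
      refine ⟨a, ?_, (hn a).2 (Or.inl rfl)⟩
      intro σ hσ
      exact hσ.2 a (Or.inr ((hn a).2 (Or.inl rfl)))
    · refine ⟨v, ?_, ?_⟩
      · intro σ hσ
        exact hσ.2 v (Or.inl rfl)
      · exact SimpleGraph.Adj.symm hw
  refine ⟨ok_FS ⟨v, Or.inl rfl⟩ hS, ?_⟩
  refine ⟨mem_Rt_FS hS (Or.inl rfl), ?_⟩
  intro u hu
  exact mem_Rt_FS hS (Or.inr hu)

end k1ok

end Pool.Agent.Helper613.Cub
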