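import Pool.Agent.Helper613.Cub.Base

set_option autoImplicit false


open scoped Classical

noncomputable section

namespace Pool.Agent.Helper613.Cub

namespace k2even


variable {V : Type} [Fintype V] {G : SimpleGraph V} {K : Subgroup (Equiv.Perm V)} {x y w : V} {g : Equiv.Perm V}
lemma even_card (hc : Cubic G) : Even (Fintype.card V) := by
  have hdeg : ∀ v, G.degree v = 3 := by
    intro v
    have h := hc v
    rw [← SimpleGraph.coe_neighborFinset, Set.ncard_coe_finset] at h
    exact h
  have h := G.sum_degrees_eq_twice_card_edges
  simp only [hdeg, Finset.sum_const, Finset.card_univ, smul_eq_mul] at h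
  rw [Nat.even_iff]
  omega

end k2even

end Pool.Agent.Helper613.Cub
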