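import Pool.Agent.Helper613.Cub.Base
import Pool.Agent.Helper613.Cub.PTtri
import Pool.Agent.Helper613.Cub.j17misc
import Pool.Agent.Helper613.Cub.j18three
import Pool.Agent.Helper613.Cub.j19PT
import Pool.Agent.Helper613.Cub.j2sw
import Pool.Agent.Helper613.Cub.j3card
import Pool.Agent.Helper613.Cub.j4ok
import Pool.Agent.Helper613.Cub.k11tstep
import Pool.Agent.Helper613.Cub.k13tbip
import Pool.Agent.Helper613.Cub.k1ok
import Pool.Agent.Helper613.Cub.k2even
import Pool.Agent.Helper613.Cub.k3V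

set_option autoImplicit false


open scoped Classical

noncomputable section

namespace Pool.Agent.Helper613.Cub

namespace k14V3

open PTtri
open j17misc
open j18three
open j19PT
open j2sw
open j3card
open j4ok
open k11tstep
open k13tbip
open k1ok
open k2even
open k3V

variable {V : Type} [Fintype V] {G : SimpleGraph V} {K : Subgroup (Equiv.Perm V)} {x y w : V} {g : Equiv.Perm V}
lemma V3 (hc : Cubic G) (h3 : Conn3 G) (h4 : No4 G) (hn : 16 ≤ Fintype.card V) {P : Set V}
    (hP : ∀ a b, G.Adj a b → (a ∈ P ↔ b ∉ P)) (v : V) :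
    ∃ s, Nat.card (Gm G v) = 2 ^ s ∧ 4 * s + 8 ≤ Fintype.card V := by
  obtain ⟨hOk, hvI⟩ := ok_Gm (G := G) hc v
  generalize hKd : Gm G v = K at hOk hvI ⊢
  obtain ⟨s, hcard, hPT⟩ := PT2 hc h3 h4 hOk
  have h3om := three_om hc h3 hOk ⟨v, hvI⟩
  have hsplit : Fintype.card V = (Uu G K).ncard + (It G K).ncard + (Bd G K).ncard :=
    card_split (G := G) (K := K)
  have hI1 : 1 ≤ (It G K).ncard := (Set.ncard_pos (Set.toFinite _)).2 ⟨v, hvI⟩
  by_cases hom0 : om G K = 0
  · have hb := om_zero hOk hom0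
    refine ⟨0, ?_, by omega⟩
    rw [hb, pow_zero]
    exact Subgroup.card_bot
  by_cases h8 : 4 * s + 8 ≤ Fintype.card V
  · exact ⟨s, hcard, h8⟩
  exfalso
  have hev := even_card (G := G) hc
  have hn6 : Fintype.card V = 4 * s + 6 := by
    obtain ⟨r, hr⟩ := hev
    omega
  have hom1 : om G K = 1 := by omega
  have hB3 : (Bd G K).ncard = 3 := by omega
  have hI : (It G K).ncard = 1 := by omega
  have hs3 : 3 ≤ s := by omega
  have htight : Tight G K s := ⟨hcard, by omega⟩
  -- the interior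
  have hIt : ∀ a ∈ It G K, a = v := by
    intro a ha
    obtain ⟨b, hb⟩ := Set.ncard_eq_one.1 hI
    rw [hb] at ha hvI
    rw [Set.mem_singleton_iff] at ha hvI
    rw [ha, hvI]
  have hNB : ∀ a, G.Adj v a → a ∈ Bd G K := by
    intro a ha
    have haR : a ∈ Rt G K := hvI.2 a ha
    by_contra hcon
    have haI : a ∈ It G K := by
      refine ⟨haR, fun u hu => ?_⟩
      by_contra hu'
      exact hcon ⟨haR, u, hu', hu⟩
    have := hIt a haI
    rw [this] at ha
    exact G.loopless.irrefl v ha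
  obtain ⟨x, x', x'', hxx', hxx'', hx'x'', hnb⟩ := nb3 hc v
  have hvx : G.Adj v x := (hnb x).2 (Or.inl rfl)
  have hvx' : G.Adj v x' := (hnb x').2 (Or.inr (Or.inl rfl))
  have hvx'' : G.Adj v x'' := (hnb x'').2 (Or.inr (Or.inr rfl))
  have hxB := hNB x hvx
  have hxB' := hNB x' hvx'
  have hxB'' := hNB x'' hvx''
  obtain ⟨hxR, y, hyU, hxy⟩ := hxB
  obtain ⟨g, w, hSw⟩ := exists_Sw hc h3 hOk hxR hyU hxy
  have ht2 : Tight G K ((s - 2) + 2) := by
    have : s - 2 + 2 = s := by omega
    rw [this]; exact htight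
  obtain ⟨t1, o1, b1⟩ := tight_step h4 hSw ht2 hom1
  have hs1 : s - 2 + 1 = (s - 3) + 2 := by omega
  rw [hs1] at t1
  have hx'ne : x' ≠ x := fun h => hxx' h.symm
  have hx''ne : x'' ≠ x := fun h => hxx'' h.symm
  have hmx' : x' ∈ Bd G (stb K y) := by
    rw [b1]; exact Or.inl ⟨hxB', hx'ne⟩
  have hmx'' : x'' ∈ Bd G (stb K y) := by
    rw [b1]; exact Or.inl ⟨hxB'', hx''ne⟩
  have hmy : y ∈ Bd G (stb K y) := by
    rw [b1]; exact Or.inr (Or.inl rfl)
  have hmgy : g y ∈ Bd G (stb K y) := by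
    rw [b1]; exact Or.inr (Or.inr rfl)
  have hp1 := hP v x hvx
  have hp2 := hP v x' hvx'
  have hp3 := hP x y hxy
  have hcard4 : 4 ≤ (Bd G (stb K y)).ncard := by
    have hUR : ∀ a b, a ∈ Rt G K → b ∈ Uu G K → a ≠ b := by
      intro a b ha hb hab
      rw [hab] at ha
      exact hb ha
    have hsub : (({x', x'', y, g y} : Finset V) : Set V) ⊆ Bd G (stb K y) := by
      intro a ha
      simp only [Finset.coe_insert, Finset.coe_singleton, Set.mem_insert_iff,
        Set.mem_singleton_iff] at ha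
      rcases ha with rfl | rfl | rfl | rfl
      · exact hmx'
      · exact hmx''
      · exact hmy
      · exact hmgy
    have h4c : ({x', x'', y, g y} : Finset V).card = 4 := by
      rw [Finset.card_insert_of_notMem, Finset.card_insert_of_notMem,
        Finset.card_insert_of_notMem, Finset.card_singleton]
      · simp only [Finset.mem_singleton]
        exact fun h => hSw.gy h.symm
      · simp only [Finset.mem_insert, Finset.mem_singleton, not_or]
        exact ⟨hUR _ _ hxB''.1 hyU, hUR _ _ hxB''.1 hSw.gyU⟩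
      · simp only [Finset.mem_insert, Finset.mem_singleton, not_or]
        exact ⟨hx'x'', hUR _ _ hxB'.1 hyU, hUR _ _ hxB'.1 hSw.gyU⟩
    rw [← h4c, ← Set.ncard_coe_finset]
    exact Set.ncard_le_ncard hsub (Set.toFinite _)
  by_cases hvP : v ∈ P
  · have hx'P : x' ∉ P := hp2.1 hvP
    have hyP : y ∈ P := by
      by_contra h
      exact (hp1.1 hvP) (hp3.2 h)
    exact tight_bip hc h3 h4 hP (s - 3) (stb K y) (ok_stb hSw) t1 o1 ⟨y, hmy, hyP⟩
      ⟨x', hmx', hx'P⟩ hcard4
  · have hx'P : x' ∈ P := by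
      by_contra h
      exact hvP (hp2.2 h)
    have hxP : x ∈ P := by
      by_contra h
      exact hvP (hp1.2 h)
    have hyP : y ∉ P := hp3.1 hxP
    exact tight_bip hc h3 h4 hP (s - 3) (stb K y) (ok_stb hSw) t1 o1 ⟨x', hmx', hx'P⟩
      ⟨y, hmy, hyP⟩ hcard4

end k14V3

end Pool.Agent.Helper613.Cub
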