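import Pool.Agent.Helper613.Cub.Base

set_option autoImplicit false


open scoped Classical

noncomputable section

namespace Pool.Agent.Helper613.Cub

namespace k15arc


variable {V : Type} [Fintype V] {G : SimpleGraph V} {K : Subgroup (Equiv.Perm V)} {x y w : V} {g : Equiv.Perm V}
lemma arc_up_mono {i : ℕ} {p : ℕ → V} (h : Arc G (i + 1) p) : Arc G i p :=
  ⟨fun j hj => h.1 j (by omega), fun j hj => h.2 j (by omega)⟩

/-- an automorphism fixing an `i`-arc but moving a neighbour of its end -/
lemma arc_up_claim (hc : Cubic G) {i : ℕ} (hi : 1 ≤ i) (hA : ATr G i) {q : ℕ → V}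
    (hq : Arc G i q) {τ : Equiv.Perm V} (hτ : τ ∈ AutS G) (hτq : ∀ j, j ≤ i → τ (q j) = q j)
    {r : V} (hr : G.Adj (q i) r) (hτr : τ r ≠ r) : ATr G (i + 1) := by
  intro a b ha hb
  obtain ⟨ρ, hρ, hρb⟩ := hA b q (arc_up_mono hb) hq
  obtain ⟨σ, hσ, hσa⟩ := hA a b (arc_up_mono ha) (arc_up_mono hb)
  -- the conjugate
  set τ' : Equiv.Perm V := ρ⁻¹ * τ * ρ with hτ'
  have hτ'A : τ' ∈ AutS G := (AutS G).mul_mem ((AutS G).mul_mem ((AutS G).inv_mem hρ) hτ) hρ
  have hτ'b : ∀ j, j ≤ i → τ' (b j) = b j := by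
    intro j hj
    rw [hτ', Equiv.Perm.mul_apply, Equiv.Perm.mul_apply, hρb j hj, hτq j hj,
      Equiv.Perm.inv_eq_iff_eq, hρb j hj]
  set r' : V := ρ⁻¹ r with hr'
  have hρr : ρ r' = r := by rw [hr']; simp
  have hr'adj : G.Adj (b i) r' := by
    rw [← hρ (b i) r', hρb i le_rfl, hρr]; exact hr
  have hτ'r : τ' r' ≠ r' := by
    intro h
    apply hτr
    rw [hτ', Equiv.Perm.mul_apply, Equiv.Perm.mul_apply, hρr, hr'] at h
    exact ρ⁻¹.injective h
  obtain ⟨i', rfl⟩ : ∃ i', i = i' + 1 := ⟨i - 1, by omega⟩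
  have hbb : b i' ≠ b (i' + 2) := hb.2 i' (by omega)
  have hadj1 : G.Adj (b (i' + 1)) (b i') := (hb.1 i' (by omega)).symm
  have hadj2 : G.Adj (b (i' + 1)) (b (i' + 2)) := hb.1 (i' + 1) (by omega)
  obtain ⟨c, hc1, hc2, hc3⟩ := third hc hadj1 hadj2 hbb
  have hτfix : τ' (b i') = b i' := hτ'b i' (by omega)
  have hnb : ∀ z, G.Adj (b (i' + 1)) z → G.Adj (b (i' + 1)) (τ' z) := by
    intro z hz
    have := (hτ'A (b (i' + 1)) z).2 hz
    rwa [hτ'b (i' + 1) le_rfl] at this
  have hne0 : ∀ z, z ≠ b i' → τ' z ≠ b i' := by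
    intro z hz h
    apply hz
    apply τ'.injective
    rw [h, hτfix]
  have hcc : τ' c = b (i' + 2) := by
    have h1 := (hc3 _).1 (hnb c ((hc3 c).2 (Or.inr (Or.inr rfl))))
    rcases h1 with h1 | h1 | h1
    · exact absurd h1 (hne0 c hc1)
    · exact h1
    · exfalso
      have h2 := (hc3 _).1 (hnb (b (i' + 2)) hadj2)
      have h3 : τ' (b (i' + 2)) = b (i' + 2) := by
        rcases h2 with h2 | h2 | h2
        · exact absurd h2 (hne0 _ hbb.symm)
        · exact h2
        · exfalso
          apply hc2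
          apply τ'.injective
          rw [h1, h2]
      rcases (hc3 r').1 hr'adj with h | h | h
      · exact hτ'r (by rw [h]; exact hτfix)
      · exact hτ'r (by rw [h]; exact h3)
      · exact hτ'r (by rw [h]; exact h1)
  have hσadj : G.Adj (b (i' + 1)) (σ (a (i' + 2))) := by
    have := (hσ (a (i' + 1)) (a (i' + 2))).2 (ha.1 (i' + 1) (by omega))
    rwa [hσa (i' + 1) le_rfl] at this
  rcases (hc3 _).1 hσadj with h | h | h
  · exfalso
    rw [← hσa i' (by omega)] at h
    exact ha.2 i' (by omega) (σ.injective h).symm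
  · refine ⟨σ, hσ, fun j hj => ?_⟩
    rcases Nat.lt_or_ge j (i' + 2) with hj' | hj'
    · exact hσa j (by omega)
    · have : j = i' + 2 := by omega
      rw [this, h]
  · refine ⟨τ' * σ, (AutS G).mul_mem hτ'A hσ, fun j hj => ?_⟩
    rw [Equiv.Perm.mul_apply]
    rcases Nat.lt_or_ge j (i' + 2) with hj' | hj'
    · rw [hσa j (by omega), hτ'b j (by omega)]
    · have : j = i' + 2 := by omega
      rw [this, h, hcc]

lemma arc_up (hc : Cubic G) (h3 : Conn3 G) {i : ℕ} (hi : 1 ≤ i) (hA : ATr G i) {p : ℕ → V} (hp : Arc G i p)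
    {σ : Equiv.Perm V} (hσ : σ ∈ AutS G) (hσp : ∀ j, j ≤ i → σ (p j) = p j) (hσ1 : σ ≠ 1) : ATr G (i + 1) := by
  by_contra hcon
  have claim : ∀ q : ℕ → V, Arc G i q → (∀ j, j ≤ i → σ (q j) = q j) →
      ∀ r, G.Adj (q i) r → σ r = r := by
    intro q hq hσq r hr
    by_contra h
    exact hcon (arc_up_claim hc hi hA hq hσ hσq hr h)
  set W : Set V := {v | ∃ q : ℕ → V, Arc G i q ∧ q i = v ∧ ∀ j, j ≤ i → σ (q j) = q j} with hW
  have hclosed : ∀ a ∈ W, ∀ b, G.Adj a b → b ∈ W ∪ (∅ : Set V) := by
    rintro a ⟨q, hq, rfl, hσq⟩ u hu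
    left
    by_cases hui : u = q (i - 1)
    · -- extend on the other side
      have hrev : Arc G i (fun j => q (i - j)) := by
        refine ⟨fun j hj => ?_, fun j hj => ?_⟩
        · have h1 : i - j = (i - (j + 1)) + 1 := by omega
          simp only
          rw [h1]
          exact (hq.1 (i - (j + 1)) (by omega)).symm
        · have h1 : i - j = (i - (j + 2)) + 2 := by omega
          simp only
          rw [h1]
          exact (hq.2 (i - (j + 2)) (by omega)).symm
      have hfix0 : ∀ r, G.Adj (q 0) r → σ r = r := by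
        intro r hr
        refine claim _ hrev (fun j hj => hσq _ (by omega)) r ?_
        simpa using hr
      obtain ⟨r, hr, hr1⟩ : ∃ r, G.Adj (q 0) r ∧ r ≠ q 1 := by
        obtain ⟨a, b, c, hab, hac, hbc, hz⟩ := nb3 hc (q 0)
        by_cases h : a = q 1
        · exact ⟨b, (hz b).2 (Or.inr (Or.inl rfl)), fun h' => hab (h.trans h'.symm)⟩
        · exact ⟨a, (hz a).2 (Or.inl rfl), h⟩
      refine ⟨fun j => if j = 0 then r else q (j - 1), ⟨fun j hj => ?_, fun j hj => ?_⟩, ?_, ?_⟩
      · rcases Nat.eq_zero_or_pos j with rfl | hj0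
        · simpa using hr.symm
        · have h1 : j ≠ 0 := by omega
          have h2 : j + 1 ≠ 0 := by omega
          simp only [h1, h2, if_false]
          have h4 : j + 1 - 1 = (j - 1) + 1 := by omega
          rw [h4]
          exact hq.1 (j - 1) (by omega)
      · rcases Nat.eq_zero_or_pos j with rfl | hj0
        · simpa using hr1
        · have h1 : j ≠ 0 := by omega
          have h2 : j + 2 ≠ 0 := by omega
          simp only [h1, h2, if_false]
          have h4 : j + 2 - 1 = (j - 1) + 2 := by omega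
          rw [h4]
          exact hq.2 (j - 1) (by omega)
      · have h1 : i ≠ 0 := by omega
        simp only [h1, if_false]
        exact hui.symm
      · intro j hj
        by_cases h1 : j = 0
        · simp only [h1, if_true]
          exact hfix0 r hr
        · simp only [h1, if_false]
          exact hσq _ (by omega)
    · refine ⟨fun j => if j = i then u else q (j + 1), ⟨fun j hj => ?_, fun j hj => ?_⟩, ?_, ?_⟩
      · have h1 : j ≠ i := by omega
        simp only [h1, if_false]
        by_cases h2 : j + 1 = i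
        · simp only [h2, if_true]
          exact hu
        · simp only [h2, if_false]
          exact hq.1 (j + 1) (by omega)
      · have h1 : j ≠ i := by omega
        simp only [h1, if_false]
        by_cases h2 : j + 2 = i
        · simp only [h2, if_true]
          have h4 : j + 1 = i - 1 := by omega
          rw [h4]
          exact fun h => hui h.symm
        · simp only [h2, if_false]
          exact hq.2 (j + 1) (by omega)
      · simp
      · intro j hj
        by_cases h1 : j = i
        · simp only [h1, if_true]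
          exact claim q hq hσq u hu
        · simp only [h1, if_false]
          exact hσq _ (by omega)
  have huniv := h3 ∅ W (by simp) ⟨p i, p, hp, rfl, hσp⟩ (Set.disjoint_empty _) hclosed
  rw [Set.union_empty] at huniv
  apply hσ1
  ext v
  have hv : v ∈ W := by rw [huniv]; trivial
  obtain ⟨q, hq, rfl, hσq⟩ := hv
  rw [hσq i le_rfl]
  rfl

end k15arc

end Pool.Agent.Helper613.Cub
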