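import Pool.Agent.Helper613.Cub.Base

set_option autoImplicit false


open scoped Classical

noncomputable section

namespace Pool.Agent.Helper613.Cub

namespace k5orb


variable {V : Type} [Fintype V] {G : SimpleGraph V} {K : Subgroup (Equiv.Perm V)} {x y w : V} {g : Equiv.Perm V}
lemma card_orb (v : V) : Nat.card (AutS G) = (orb G v).ncard * Nat.card (stb (AutS G) v) := by
  have h1 : (MulAction.stabilizer (AutS G) v).index = (MulAction.orbit (AutS G) v).ncard :=
    MulAction.index_stabilizer _ _
  have h2 : MulAction.orbit (AutS G) v = orb G v := by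
    ext w
    constructor
    · rintro ⟨σ, rfl⟩
      exact ⟨σ.1, σ.2, rfl⟩
    · rintro ⟨σ, hσ, rfl⟩
      exact ⟨⟨σ, hσ⟩, rfl⟩
  have h3 : Nat.card (MulAction.stabilizer (AutS G) v) = Nat.card (stb (AutS G) v) := by
    refine Nat.card_congr
      { toFun := fun σ => ⟨σ.1.1, σ.1.2, σ.2⟩
        invFun := fun σ => ⟨⟨σ.1, σ.2.1⟩, σ.2.2⟩
        left_inv := fun σ => rfl
        right_inv := fun σ => rfl }
  have h4 := Subgroup.card_mul_index (MulAction.stabilizer (AutS G) v)
  rw [h1, h2, h3] at h4
  rw [← h4, mul_comm]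

end k5orb

end Pool.Agent.Helper613.Cub
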