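import Pool.Agent.Helper613.Cub.Base
import Pool.Agent.Helper613.Cub.k5orb

set_option autoImplicit false


open scoped Classical

noncomputable section

namespace Pool.Agent.Helper613.Cub

namespace k16arc

open k5orb

variable {V : Type} [Fintype V] {G : SimpleGraph V} {K : Subgroup (Equiv.Perm V)} {x y w : V} {g : Equiv.Perm V}
lemma card_le_stb (H : Subgroup (Equiv.Perm V)) (a : V) (T : Set V) (m : ℕ)
    (hT : ∀ σ ∈ H, σ a ∈ T) (hm : T.ncard ≤ m) : Nat.card H ≤ m * Nat.card (stb H a) := by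
  have h1 := Subgroup.card_mul_index (MulAction.stabilizer H a)
  have h2 : (MulAction.stabilizer H a).index = (MulAction.orbit H a).ncard :=
    MulAction.index_stabilizer H a
  have h3 : (MulAction.orbit H a).ncard ≤ m := by
    refine le_trans (Set.ncard_le_ncard ?_ (Set.toFinite _)) hm
    rintro _ ⟨σ, rfl⟩
    exact hT σ.1 σ.2
  have h4 : Nat.card (MulAction.stabilizer H a) ≤ Nat.card (stb H a) := by
    refine Nat.card_le_card_of_injective
      (fun s : MulAction.stabilizer H a => (⟨s.1.1, s.1.2, s.2⟩ : stb H a)) ?_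
    intro s t hst
    have := congrArg Subtype.val hst
    exact Subtype.ext (Subtype.ext this)
  calc Nat.card H = Nat.card (MulAction.stabilizer H a) * (MulAction.stabilizer H a).index :=
        h1.symm
    _ ≤ Nat.card (stb H a) * m := Nat.mul_le_mul h4 (h2 ▸ h3)
    _ = m * Nat.card (stb H a) := Nat.mul_comm _ _

lemma card_arc (hc : Cubic G) {p : ℕ → V} (hp : Arc G 3 p) :
    Nat.card (AutS G) ≤ 12 * Fintype.card V * Nat.card (FS G {p 0, p 1, p 2, p 3}) := by
  obtain ⟨hadj, hne⟩ := hp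
  have a01 : G.Adj (p 0) (p 1) := hadj 0 (by norm_num)
  have a12 : G.Adj (p 1) (p 2) := hadj 1 (by norm_num)
  have a23 : G.Adj (p 2) (p 3) := hadj 2 (by norm_num)
  have n02 : p 0 ≠ p 2 := hne 0 (by norm_num)
  have n13 : p 1 ≠ p 3 := hne 1 (by norm_num)
  set H1 := stb (AutS G) (p 0) with hH1
  set H2 := stb H1 (p 1) with hH2
  set H3 := stb H2 (p 2) with hH3
  set H4 := stb H3 (p 3) with hH4
  have e0 : Nat.card (AutS G) ≤ Fintype.card V * Nat.card H1 := by
    refine card_le_stb (AutS G) (p 0) Set.univ _ (fun _ _ => Set.mem_univ _) ?_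
    rw [Set.ncard_univ, Nat.card_eq_fintype_card]
  have e1 : Nat.card H1 ≤ 3 * Nat.card H2 := by
    refine card_le_stb H1 (p 1) (G.neighborSet (p 0)) _ ?_ (hc _).le
    rintro σ ⟨hσ, h0⟩
    have := (hσ (p 0) (p 1)).2 a01
    rw [h0] at this
    exact this
  have e2 : Nat.card H2 ≤ 2 * Nat.card H3 := by
    refine card_le_stb H2 (p 2) (G.neighborSet (p 1) \ {p 0}) _ ?_ ?_
    · rintro σ ⟨⟨hσ, h0⟩, h1⟩
      have h3 := (hσ (p 1) (p 2)).2 a12
      rw [h1] at h3
      refine ⟨h3, ?_⟩
      intro h4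
      have h5 : σ (p 2) = σ (p 0) := by rw [h0]; exact h4
      exact n02 (σ.injective h5).symm
    · rw [Set.ncard_diff_singleton_of_mem (by exact a01.symm), hc]
  have e3 : Nat.card H3 ≤ 2 * Nat.card H4 := by
    refine card_le_stb H3 (p 3) (G.neighborSet (p 2) \ {p 1}) _ ?_ ?_
    · rintro σ ⟨⟨⟨hσ, h0⟩, h1⟩, h2⟩
      have h3 := (hσ (p 2) (p 3)).2 a23
      rw [h2] at h3
      refine ⟨h3, ?_⟩
      intro h4
      have h5 : σ (p 3) = σ (p 1) := by rw [h1]; exact h4
      exact n13 (σ.injective h5).symm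
    · rw [Set.ncard_diff_singleton_of_mem (by exact a12.symm), hc]
  have e4 : Nat.card H4 ≤ Nat.card (FS G {p 0, p 1, p 2, p 3}) := by
    refine Nat.card_le_card_of_injective
      (fun s : H4 => (⟨s.1, ?_⟩ : FS G {p 0, p 1, p 2, p 3})) ?_
    · obtain ⟨s, ⟨⟨⟨hσ, h0⟩, h1⟩, h2⟩, h3⟩ := s
      refine ⟨hσ, ?_⟩
      intro v hv
      simp only [Set.mem_insert_iff, Set.mem_singleton_iff] at hv
      rcases hv with rfl | rfl | rfl | rfl
      · exact h0
      · exact h1
      · exact h2
      · exact h3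
    · intro s t hst
      have := congrArg Subtype.val hst
      exact Subtype.ext this
  calc Nat.card (AutS G) ≤ Fintype.card V * Nat.card H1 := e0
    _ ≤ Fintype.card V * (3 * (2 * (2 * Nat.card (FS G {p 0, p 1, p 2, p 3})))) := by
        apply Nat.mul_le_mul_left
        refine e1.trans (Nat.mul_le_mul_left _ (e2.trans (Nat.mul_le_mul_left _
          (e3.trans (Nat.mul_le_mul_left _ e4)))))
    _ = 12 * Fintype.card V * Nat.card (FS G {p 0, p 1, p 2, p 3}) := by ring

end k16arc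

end Pool.Agent.Helper613.Cub
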