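import Pool.Agent.Helper613.Cub.Base
import Pool.Agent.Helper613.Cub.PTtri
import Pool.Agent.Helper613.Cub.j17misc
import Pool.Agent.Helper613.Cub.j18three
import Pool.Agent.Helper613.Cub.j19PT
import Pool.Agent.Helper613.Cub.j2sw
import Pool.Agent.Helper613.Cub.j3card
import Pool.Agent.Helper613.Cub.j4ok
import Pool.Agent.Helper613.Cub.k1ok

set_option autoImplicit false


open scoped Classical

noncomputable section

namespace Pool.Agent.Helper613.Cub

namespace k18fin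

open PTtri
open j17misc
open j18three
open j19PT
open j2sw
open j3card
open j4ok
open k1ok

variable {V : Type} [Fintype V] {G : SimpleGraph V} {K : Subgroup (Equiv.Perm V)} {x y w : V} {g : Equiv.Perm V}
theorem arc_final_two (hc : Cubic G) {v a : V} (ha : G.Adj v a) :
    ∃ b c, b ≠ c ∧ b ≠ a ∧ c ≠ a ∧ G.Adj v b ∧ G.Adj v c := by
  obtain ⟨x, y, z, hxy, hxz, hyz, h⟩ := nb3 hc v
  have hx : G.Adj v x := (h x).2 (Or.inl rfl)
  have hy : G.Adj v y := (h y).2 (Or.inr (Or.inl rfl))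
  have hz : G.Adj v z := (h z).2 (Or.inr (Or.inr rfl))
  rcases (h a).1 ha with rfl | rfl | rfl
  · exact ⟨y, z, hyz, hxy.symm, hxz.symm, hy, hz⟩
  · exact ⟨x, z, hxz, hxy, hyz.symm, hx, hz⟩
  · exact ⟨x, y, hxy, hxz, hyz, hx, hy⟩

theorem arc_final_mv (hc : Cubic G) (hA : ATr G 4) {a0 a1 a2 a3 : V} (h01 : G.Adj a0 a1)
    (h12 : G.Adj a1 a2) (h23 : G.Adj a2 a3) (h02 : a0 ≠ a2) (h13 : a1 ≠ a3) :
    ∃ u, G.Adj a3 u ∧ ∃ σ ∈ AutS G, σ a0 = a0 ∧ σ a1 = a1 ∧ σ a2 = a2 ∧ σ a3 = a3 ∧ σ u ≠ u := by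
  obtain ⟨b, c, hbc, hb2, hc2, hb, hcc⟩ := arc_final_two hc h23.symm
  let P : V → ℕ → V := fun b j =>
    if j = 0 then a0 else if j = 1 then a1 else if j = 2 then a2 else if j = 3 then a3 else b
  have hP : ∀ b, G.Adj a3 b → b ≠ a2 → Arc G 4 (P b) := by
    intro b hb hb2
    constructor
    · intro j hj
      have : j = 0 ∨ j = 1 ∨ j = 2 ∨ j = 3 := by omega
      rcases this with rfl | rfl | rfl | rfl
      · simpa [P] using h01
      · simpa [P] using h12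
      · simpa [P] using h23
      · simpa [P] using hb
    · intro j hj
      have : j = 0 ∨ j = 1 ∨ j = 2 := by omega
      rcases this with rfl | rfl | rfl
      · simpa [P] using h02
      · simpa [P] using h13
      · simpa [P] using hb2.symm
  obtain ⟨σ, hσ, h⟩ := hA (P b) (P c) (hP b hb hb2) (hP c hcc hc2)
  refine ⟨b, hb, σ, hσ, ?_, ?_, ?_, ?_, ?_⟩
  · simpa [P] using h 0 (by omega)
  · simpa [P] using h 1 (by omega)
  · simpa [P] using h 2 (by omega)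
  · simpa [P] using h 3 (by omega)
  · have h4 : σ b = c := by simpa [P] using h 4 (by omega)
    rw [h4]; exact hbc.symm

/-- an automorphism fixing `v` and two of its neighbours fixes the third one -/
theorem arc_final_fix (hc : Cubic G) {σ : Equiv.Perm V} (hσ : σ ∈ AutS G) {v a b c : V}
    (hv : σ v = v) (ha : σ a = a) (hb : σ b = b) (hab : a ≠ b) (h1 : G.Adj v a) (h2 : G.Adj v b)
    (h3 : G.Adj v c) : σ c = c := by
  obtain ⟨d, hda, hdb, hd⟩ := third hc h1 h2 hab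
  rcases (hd c).1 h3 with rfl | rfl | rfl
  · exact ha
  · exact hb
  · have h4 : G.Adj v (σ c) := by
      have := (hσ v c).2 h3
      rwa [hv] at this
    rcases (hd (σ c)).1 h4 with h5 | h5 | h5
    · exact (hda (σ.injective (h5.trans ha.symm))).elim
    · exact (hdb (σ.injective (h5.trans hb.symm))).elim
    · exact h5

theorem arc_final_bd (hc : Cubic G) (hA : ATr G 4) (K : Subgroup (Equiv.Perm V))
    {a0 a1 a2 a3 b3 : V} (hK : ∀ σ ∈ AutS G, σ a0 = a0 → σ a1 = a1 → σ a2 = a2 → σ a3 = a3 → σ ∈ K)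
    (h01 : G.Adj a0 a1) (h12 : G.Adj a1 a2) (h23 : G.Adj a2 a3) (hb3 : G.Adj a2 b3)
    (h02 : a0 ≠ a2) (h13 : a1 ≠ b3) (hR : b3 ∈ Rt G K) :
    b3 ∈ Bd G K := by
  obtain ⟨u, hu, σ, hσ, e0, e1, e2, e3, hne⟩ := arc_final_mv hc hA h01 h12 hb3 h02 h13
  have h3 : σ a3 = a3 := arc_final_fix hc hσ e2 e1 e3 h13 h12.symm hb3 h23
  have hσK := hK σ hσ e0 e1 e2 h3
  refine ⟨hR, u, ?_, hu⟩
  intro hu2
  exact hne (hu2.1 σ hσK)

lemma arc_final (hc : Cubic G) (h3 : Conn3 G) (hn3 : No3 G) (h4 : No4 G) (h6 : No6 G)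
    (hA : ATr G 4) {p : ℕ → V} (hp : Arc G 3 p) :
    ∃ s, Nat.card (FS G {p 0, p 1, p 2, p 3}) = 2 ^ s ∧ (s = 0 ∨ 12 * s + 46 ≤ 3 * Fintype.card V) := by
  have a01 : G.Adj (p 0) (p 1) := hp.1 0 (by omega)
  have a12 : G.Adj (p 1) (p 2) := hp.1 1 (by omega)
  have a23 : G.Adj (p 2) (p 3) := hp.1 2 (by omega)
  have n02 : p 0 ≠ p 2 := hp.2 0 (by omega)
  have n13 : p 1 ≠ p 3 := hp.2 1 (by omega)
  obtain ⟨q1, hq10, hq12, hq1⟩ := third hc a01.symm a12 n02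
  obtain ⟨q2, hq21, hq23, hq2⟩ := third hc a12.symm a23 n13
  have aq1 : G.Adj (p 1) q1 := (hq1 q1).2 (Or.inr (Or.inr rfl))
  have aq2 : G.Adj (p 2) q2 := (hq2 q2).2 (Or.inr (Or.inr rfl))
  set K := FS G {p 0, p 1, p 2, p 3} with hKdef
  have hle : K ≤ AutS G := fun σ hσ => hσ.1
  have hmem : ∀ σ ∈ AutS G, σ (p 0) = p 0 → σ (p 1) = p 1 → σ (p 2) = p 2 → σ (p 3) = p 3 →
      σ ∈ K := by
    intro σ hσ e0 e1 e2 e3
    refine ⟨hσ, ?_⟩
    intro v hv
    simp only [Set.mem_insert_iff, Set.mem_singleton_iff] at hv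
    rcases hv with rfl | rfl | rfl | rfl
    · exact e0
    · exact e1
    · exact e2
    · exact e3
  have f0 : p 0 ∈ Fx K := fun σ hσ => hσ.2 _ (by simp)
  have f1 : p 1 ∈ Fx K := fun σ hσ => hσ.2 _ (by simp)
  have f2 : p 2 ∈ Fx K := fun σ hσ => hσ.2 _ (by simp)
  have f3 : p 3 ∈ Fx K := fun σ hσ => hσ.2 _ (by simp)
  have fq1 : q1 ∈ Fx K := fix_third hc hle f1 f0 f2 n02 a01.symm a12 aq1
  have fq2 : q2 ∈ Fx K := fix_third hc hle f2 f1 f3 n13 a12.symm a23 aq2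
  have hOk : Ok G K := by
    apply ok_FS ⟨p 0, by simp⟩
    intro v hv
    simp only [Set.mem_insert_iff, Set.mem_singleton_iff] at hv
    rcases hv with rfl | rfl | rfl | rfl
    · exact ⟨p 1, f1, a01⟩
    · exact ⟨p 0, f0, a01.symm⟩
    · exact ⟨p 1, f1, a12.symm⟩
    · exact ⟨p 2, f2, a23.symm⟩
  have r0 : p 0 ∈ Rt G K := ⟨f0, p 1, f1, a01⟩
  have r1 : p 1 ∈ Rt G K := ⟨f1, p 0, f0, a01.symm⟩
  have r2 : p 2 ∈ Rt G K := ⟨f2, p 1, f1, a12.symm⟩
  have r3 : p 3 ∈ Rt G K := ⟨f3, p 2, f2, a23.symm⟩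
  have rq1 : q1 ∈ Rt G K := ⟨fq1, p 1, f1, aq1.symm⟩
  have rq2 : q2 ∈ Rt G K := ⟨fq2, p 2, f2, aq2.symm⟩
  have i1 : p 1 ∈ It G K := by
    refine ⟨r1, fun u hu => ?_⟩
    rcases (hq1 u).1 hu with rfl | rfl | rfl
    · exact r0
    · exact r2
    · exact rq1
  have i2 : p 2 ∈ It G K := by
    refine ⟨r2, fun u hu => ?_⟩
    rcases (hq2 u).1 hu with rfl | rfl | rfl
    · exact r1
    · exact r3
    · exact rq2
  have hI : 2 ≤ (It G K).ncard := by
    have : ({p 1, p 2} : Set V).ncard = 2 := Set.ncard_pair a12.ne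
    rw [← this]
    apply Set.ncard_le_ncard _ (Set.toFinite _)
    intro v hv
    simp only [Set.mem_insert_iff, Set.mem_singleton_iff] at hv
    rcases hv with rfl | rfl
    · exact i1
    · exact i2
  have b3 : p 3 ∈ Bd G K := arc_final_bd hc hA K hmem a01 a12 a23 a23 n02 n13 r3
  have bq2 : q2 ∈ Bd G K := arc_final_bd hc hA K hmem a01 a12 a23 aq2 n02 hq21.symm rq2
  have hmem' : ∀ σ ∈ AutS G, σ (p 3) = p 3 → σ (p 2) = p 2 → σ (p 1) = p 1 → σ (p 0) = p 0 →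
      σ ∈ K := fun σ hσ e3 e2 e1 e0 => hmem σ hσ e0 e1 e2 e3
  have b0 : p 0 ∈ Bd G K :=
    arc_final_bd hc hA K hmem' a23.symm a12.symm a01.symm a01.symm n13.symm n02.symm r0
  have bq1 : q1 ∈ Bd G K :=
    arc_final_bd hc hA K hmem' a23.symm a12.symm a01.symm aq1 n13.symm hq12.symm rq1
  have n03 : p 0 ≠ p 3 := by
    intro h
    apply hn3 (p 0) (p 1) (p 2) a01 a12
    rw [h]; exact a23.symm
  have n0q2 : p 0 ≠ q2 := by
    intro h
    apply hn3 (p 0) (p 1) (p 2) a01 a12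
    rw [h]; exact aq2.symm
  have n3q1 : p 3 ≠ q1 := by
    intro h
    apply hn3 (p 1) (p 2) (p 3) a12 a23
    rw [h]; exact aq1
  have nq1q2 : q1 ≠ q2 := by
    intro h
    apply hn3 (p 1) (p 2) q2 a12 aq2
    rw [← h]; exact aq1
  have hB : 4 ≤ (Bd G K).ncard := by
    have h5 : ({p 0, p 3, q1, q2} : Set V).ncard = 4 := by
      rw [Set.ncard_insert_of_notMem (by simp [n03, hq10.symm, n0q2]),
        Set.ncard_insert_of_notMem (by simp [n3q1, hq23.symm]), Set.ncard_pair nq1q2]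
    rw [← h5]
    apply Set.ncard_le_ncard _ (Set.toFinite _)
    intro v hv
    simp only [Set.mem_insert_iff, Set.mem_singleton_iff] at hv
    rcases hv with rfl | rfl | rfl | rfl
    · exact b0
    · exact b3
    · exact bq1
    · exact bq2
  obtain ⟨s, hs, hs2⟩ := PT7 hc h3 hn3 h4 h6 hOk
  refine ⟨s, hs, ?_⟩
  have h7 := three_om hc h3 hOk ⟨p 1, i1⟩
  have h8 := card_split (G := G) (K := K)
  by_cases hom : om G K = 0
  · left
    have h9 := om_zero hOk hom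
    rw [h9] at hs
    have h10 : Nat.card (⊥ : Subgroup (Equiv.Perm V)) = 1 := by simp
    rw [h10] at hs
    exact (Nat.pow_eq_one.1 hs.symm).resolve_left (by norm_num)
  · right
    by_cases hom1 : om G K = 1
    · omega
    · omega

end k18fin

end Pool.Agent.Helper613.Cub
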