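import Pool.Agent.Helper613.Cub.Base

set_option autoImplicit false


open scoped Classical

noncomputable section

namespace Pool.Agent.Helper613.Cub

namespace k19ex


variable {V : Type} [Fintype V] {G : SimpleGraph V} {K : Subgroup (Equiv.Perm V)} {x y w : V} {g : Equiv.Perm V}
lemma exists_arc3 (hc : Cubic G) (hn : 0 < Fintype.card V) : ∃ p, Arc G 3 p := by
  obtain ⟨v0⟩ : Nonempty V := Fintype.card_pos_iff.mp hn
  obtain ⟨a, b, c, hab, hac, hbc, hv0⟩ := nb3 hc v0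
  have h01 : G.Adj v0 a := (hv0 a).2 (Or.inl rfl)
  have key : ∀ v u : V, ∃ w, G.Adj v w ∧ w ≠ u := by
    intro v u
    obtain ⟨a', b', c', hab', hac', hbc', hv⟩ := nb3 hc v
    by_cases h : a' = u
    · refine ⟨b', (hv b').2 (Or.inr (Or.inl rfl)), ?_⟩
      intro h2
      exact hab' (h.trans h2.symm)
    · exact ⟨a', (hv a').2 (Or.inl rfl), h⟩
  obtain ⟨v2, h12, hne2⟩ := key a v0
  obtain ⟨v3, h23, hne3⟩ := key v2 a
  refine ⟨fun j => match j with
    | 0 => v0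
    | 1 => a
    | 2 => v2
    | _ => v3, ?_, ?_⟩
  · intro j hj
    have : j = 0 ∨ j = 1 ∨ j = 2 := by omega
    rcases this with rfl | rfl | rfl
    · exact h01
    · exact h12
    · exact h23
  · intro j hj
    have : j = 0 ∨ j = 1 := by omega
    rcases this with rfl | rfl
    · exact hne2.symm
    · exact hne3.symm

lemma ATr1 (htr : ∀ v w, w ∈ orb G v) (hT : ∀ v, T3 G v) : ATr G 1 := by
  intro p q hp hq
  obtain ⟨σ, hσ, hσ0⟩ := htr (p 0) (q 0)
  have hp01 : G.Adj (p 0) (p 1) := hp.1 0 (by norm_num)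
  have hq01 : G.Adj (q 0) (q 1) := hq.1 0 (by norm_num)
  have hσ' : ∀ u v, G.Adj (σ u) (σ v) ↔ G.Adj u v := hσ
  have h1 : G.Adj (q 0) (σ (p 1)) := by
    rw [← hσ0]
    exact (hσ' _ _).2 hp01
  obtain ⟨τ, hτ, hτ0, hτ1⟩ := hT (q 0) (σ (p 1)) (q 1) h1 hq01
  refine ⟨τ * σ, (AutS G).mul_mem hτ hσ, ?_⟩
  intro j hj
  have : j = 0 ∨ j = 1 := by omega
  rcases this with rfl | rfl
  · rw [Equiv.Perm.mul_apply, hσ0, hτ0]
  · rw [Equiv.Perm.mul_apply, hτ1]

end k19ex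

end Pool.Agent.Helper613.Cub
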