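import Pool.Agent.Helper613.Cub.Base
import Pool.Agent.Helper613.Cub.PTtri
import Pool.Agent.Helper613.Cub.j17misc
import Pool.Agent.Helper613.Cub.j18three
import Pool.Agent.Helper613.Cub.j19PT
import Pool.Agent.Helper613.Cub.j2sw
import Pool.Agent.Helper613.Cub.j3card
import Pool.Agent.Helper613.Cub.j4ok
import Pool.Agent.Helper613.Cub.k1ok

set_option autoImplicit false


open scoped Classical

noncomputable section

namespace Pool.Agent.Helper613.Cub

namespace k3V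

open PTtri
open j17misc
open j18three
open j19PT
open j2sw
open j3card
open j4ok
open k1ok

variable {V : Type} [Fintype V] {G : SimpleGraph V} {K : Subgroup (Equiv.Perm V)} {x y w : V} {g : Equiv.Perm V}
lemma hc15186_It1 (hc : Cubic G) (v : V) : 1 ≤ (It G (Gm G v)).ncard := by
  have h := (ok_Gm hc v).2
  exact (Set.ncard_pos (Set.toFinite _)).mpr ⟨v, h⟩

lemma hc15186_s0 {K : Subgroup (Equiv.Perm V)} (hK : K = ⊥) {s : ℕ} (hs : Nat.card K = 2 ^ s) :
    s = 0 := by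
  subst hK
  rw [Subgroup.card_bot] at hs
  by_contra h0
  have := Nat.one_lt_two_pow h0
  omega

lemma V0 (hc : Cubic G) (h3 : Conn3 G) (v : V) :
    ∃ s, Nat.card (Gm G v) = 2 ^ s ∧ 4 * s + 2 ≤ Fintype.card V := by
  obtain ⟨hok, hIt⟩ := ok_Gm hc v
  obtain ⟨s, hs, hle⟩ := PT0 hc h3 hok
  refine ⟨s, hs, ?_⟩
  have h1 := hc15186_It1 hc v
  have h2 := card_split (G := G) (K := Gm G v)
  have h3' := three_om hc h3 hok ⟨v, hIt⟩
  by_cases h0 : om G (Gm G v) = 0
  · have h4 := hc15186_s0 (om_zero hok h0) hs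
    obtain ⟨a, b, c, hab, -, -, -⟩ := nb3 hc v
    have h5 : 1 < Fintype.card V := Fintype.one_lt_card_iff.mpr ⟨a, b, hab⟩
    omega
  · omega

lemma V2 (hc : Cubic G) (h3 : Conn3 G) (h4 : No4 G) (v : V) :
    ∃ s, Nat.card (Gm G v) = 2 ^ s ∧ (s = 0 ∨ 4 * s + 6 ≤ Fintype.card V) := by
  obtain ⟨hok, hIt⟩ := ok_Gm hc v
  obtain ⟨s, hs, hle⟩ := PT2 hc h3 h4 hok
  refine ⟨s, hs, ?_⟩
  have h1 := hc15186_It1 hc v
  have h2 := card_split (G := G) (K := Gm G v)
  have h3' := three_om hc h3 hok ⟨v, hIt⟩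
  by_cases h0 : om G (Gm G v) = 0
  · exact Or.inl (hc15186_s0 (om_zero hok h0) hs)
  · right
    omega

end k3V

end Pool.Agent.Helper613.Cub
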