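import Pool.Agent.Helper613.Cub.Base
import Pool.Agent.Helper613.Cub.PTtri
import Pool.Agent.Helper613.Cub.j17misc
import Pool.Agent.Helper613.Cub.j18three
import Pool.Agent.Helper613.Cub.j19PT
import Pool.Agent.Helper613.Cub.j2sw
import Pool.Agent.Helper613.Cub.j3card
import Pool.Agent.Helper613.Cub.j4ok
import Pool.Agent.Helper613.Cub.k1ok
import Pool.Agent.Helper613.Cub.k2even
import Pool.Agent.Helper613.Cub.k3V

set_option autoImplicit false


open scoped Classical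

noncomputable section

namespace Pool.Agent.Helper613.Cub

namespace k4V5

open PTtri
open j17misc
open j18three
open j19PT
open j2sw
open j3card
open j4ok
open k1ok
open k2even
open k3V

variable {V : Type} [Fintype V] {G : SimpleGraph V} {K : Subgroup (Equiv.Perm V)} {x y w : V} {g : Equiv.Perm V}
/-- `m` is the unique neighbour of `u` fixed by the stabiliser of `u` -/
def MM (G : SimpleGraph V) (u m : V) : Prop :=
  G.Adj u m ∧ (∀ σ ∈ AutS G, σ u = u → σ m = m) ∧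
    (∀ m', G.Adj u m' → (∀ σ ∈ AutS G, σ u = u → σ m' = m') → m' = m)

lemma v5_adj {σ : Equiv.Perm V} (hσ : σ ∈ AutS G) (a b : V) : G.Adj (σ a) (σ b) ↔ G.Adj a b := hσ a b

lemma v5_invfix {σ : Equiv.Perm V} {a b : V} (h : σ a = b) : σ⁻¹ b = a := by
  rw [Equiv.Perm.inv_eq_iff_eq, h]

lemma v5_loc2 {v a b c : V} (nb : ∀ z, G.Adj v z ↔ z = a ∨ z = b ∨ z = c) (hca : c ≠ a)
    (hn : ∀ σ ∈ AutS G, σ v = v → σ a ≠ b) (hr : ∃ σ ∈ AutS G, σ v = v ∧ σ c = a) :
    ∃ m, MM G v m := by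
  obtain ⟨τ, hτ, hτv, hτc⟩ := hr
  refine ⟨b, (nb b).2 (Or.inr (Or.inl rfl)), ?_, ?_⟩
  · intro σ hσ hσv
    have h1 : G.Adj v (σ b) := by
      have := (v5_adj hσ v b).2 ((nb b).2 (Or.inr (Or.inl rfl)))
      rwa [hσv] at this
    rcases (nb _).1 h1 with h2 | h2 | h2
    · exfalso
      exact hn σ⁻¹ ((AutS G).inv_mem hσ) (v5_invfix hσv) (v5_invfix h2)
    · exact h2
    · exfalso
      apply hn (τ * σ)⁻¹ ((AutS G).inv_mem ((AutS G).mul_mem hτ hσ))
      · apply v5_invfix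
        rw [Equiv.Perm.mul_apply, hσv, hτv]
      · apply v5_invfix
        rw [Equiv.Perm.mul_apply, h2, hτc]
  · intro m' hm' hfix
    rcases (nb _).1 hm' with h2 | h2 | h2
    · exfalso
      have h3 := hfix τ⁻¹ ((AutS G).inv_mem hτ) (v5_invfix hτv)
      rw [h2, v5_invfix hτc] at h3
      exact hca h3
    · exact h2
    · exfalso
      have h3 := hfix τ hτ hτv
      rw [h2, hτc] at h3
      exact hca h3.symm

lemma v5_local (hc : Cubic G) (v : V) (hT : ¬ T3 G v)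
    (h : ¬ ∀ σ ∈ AutS G, σ v = v → ∀ a, G.Adj v a → σ a = a) : ∃ m, MM G v m := by
  unfold T3 at hT
  push Not at hT
  obtain ⟨a, b, ha, hb, hn⟩ := hT
  have hab : a ≠ b := by
    intro e
    exact hn 1 (AutS G).one_mem rfl e
  obtain ⟨c, hca, hcb, nb⟩ := third hc ha hb hab
  by_cases h1 : ∃ σ ∈ AutS G, σ v = v ∧ σ c = a
  · exact v5_loc2 nb hca hn h1
  by_cases h2 : ∃ σ ∈ AutS G, σ v = v ∧ σ c = b
  · refine v5_loc2 (a := b) (b := a) (c := c) ?_ hcb ?_ h2
    · intro z; rw [nb z]; tauto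
    · intro σ hσ hσv e
      exact hn σ⁻¹ ((AutS G).inv_mem hσ) (v5_invfix hσv) (v5_invfix e)
  exfalso
  apply h
  intro σ hσ hσv d hd
  have hσi := (AutS G).inv_mem hσ
  have hσvi := v5_invfix hσv
  have h5 : G.Adj v (σ d) := by
    have := (v5_adj hσ v d).2 hd
    rwa [hσv] at this
  rcases (nb _).1 hd with e | e | e
  · subst e
    rcases (nb _).1 h5 with f | f | f
    · exact f
    · exact absurd f (hn σ hσ hσv)
    · exact absurd ⟨σ⁻¹, hσi, hσvi, v5_invfix f⟩ h1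
  · subst e
    rcases (nb _).1 h5 with f | f | f
    · exact absurd (v5_invfix f) (hn σ⁻¹ hσi hσvi)
    · exact f
    · exact absurd ⟨σ⁻¹, hσi, hσvi, v5_invfix f⟩ h2
  · subst e
    rcases (nb _).1 h5 with f | f | f
    · exact absurd ⟨σ, hσ, hσv, f⟩ h1
    · exact absurd ⟨σ, hσ, hσv, f⟩ h2
    · exact f

lemma v5_map {u m : V} (h : MM G u m) {τ : Equiv.Perm V} (hτ : τ ∈ AutS G) :
    MM G (τ u) (τ m) := by
  obtain ⟨h1, h2, h3⟩ := h
  have hτi := (AutS G).inv_mem hτ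
  refine ⟨(v5_adj hτ _ _).2 h1, ?_, ?_⟩
  · intro σ hσ hσu
    have h4 := h2 (τ⁻¹ * σ * τ) ((AutS G).mul_mem ((AutS G).mul_mem hτi hσ) hτ) (by
      rw [Equiv.Perm.mul_apply, Equiv.Perm.mul_apply, hσu]
      exact v5_invfix rfl)
    rw [Equiv.Perm.mul_apply, Equiv.Perm.mul_apply, Equiv.Perm.inv_eq_iff_eq] at h4
    exact h4
  · intro m' hm' hfix
    have h4 : τ⁻¹ m' = m := by
      apply h3
      · rw [← v5_adj hτ]
        have e : τ (τ⁻¹ m') = m' := τ.apply_symm_apply m'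
        rw [e]
        exact hm'
      · intro σ hσ hσu
        have h5 := hfix (τ * σ * τ⁻¹) ((AutS G).mul_mem ((AutS G).mul_mem hτ hσ) hτi) (by
          have e : τ⁻¹ (τ u) = u := τ.symm_apply_apply u
          rw [Equiv.Perm.mul_apply, Equiv.Perm.mul_apply, e, hσu])
        rw [Equiv.Perm.mul_apply, Equiv.Perm.mul_apply] at h5
        rw [eq_comm, Equiv.Perm.inv_eq_iff_eq]
        exact h5.symm
    rw [Equiv.Perm.inv_eq_iff_eq] at h4
    exact h4

lemma v5_uniq {u m m' : V} (h : MM G u m) (h' : MM G u m') : m = m' :=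
  h'.2.2 m h.1 h.2.1

lemma v5_symm (htr : ∀ v w, w ∈ orb G v) {u m : V} (h : MM G u m) : MM G m u := by
  obtain ⟨τ, hτ, hτu⟩ := htr u m
  have hτi := (AutS G).inv_mem hτ
  have hle : stb (AutS G) u ≤ stb (AutS G) m := by
    rintro σ ⟨hσ, hσu⟩
    exact ⟨hσ, h.2.1 σ hσ hσu⟩
  have hcard : Nat.card (stb (AutS G) m) ≤ Nat.card (stb (AutS G) u) := by
    apply Nat.card_le_card_of_injective
      (fun σ : stb (AutS G) m => (⟨τ⁻¹ * σ.1 * τ,
        ⟨(AutS G).mul_mem ((AutS G).mul_mem hτi σ.2.1) hτ, by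
          rw [Equiv.Perm.mul_apply, Equiv.Perm.mul_apply, hτu, σ.2.2]
          exact v5_invfix hτu⟩⟩ : stb (AutS G) u))
    intro σ ρ hσρ
    have := congrArg Subtype.val hσρ
    simp only [mul_left_inj, mul_right_inj] at this
    exact Subtype.ext this
  have heq : stb (AutS G) u = stb (AutS G) m := Subgroup.eq_of_le_of_card_ge hle hcard
  have hmm := v5_map h hτ
  rw [hτu] at hmm
  -- the vertex `τ m` is the fixed neighbour of `m`
  have h1 : G.Adj m u := h.1.symm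
  have h2 : ∀ σ ∈ AutS G, σ m = m → σ u = u := by
    intro σ hσ hσm
    have : σ ∈ stb (AutS G) m := ⟨hσ, hσm⟩
    rw [← heq] at this
    exact this.2
  have h3 := hmm.2.2 u h1 h2
  rw [h3]
  exact hmm

lemma v5_It (hc : Cubic G) (hK : K ≤ AutS G) {z x m : V} (hz : z ∈ Fx K) (hx : x ∈ Fx K)
    (hzx : G.Adj z x) (hm : MM G z m) (hne : x ≠ m) : z ∈ It G K := by
  have hmf : m ∈ Fx K := fun σ hσ => hm.2.1 σ (hK hσ) (hz σ hσ)
  refine ⟨⟨hz, x, hx, hzx⟩, ?_⟩
  intro u hu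
  exact ⟨fix_third hc hK hz hx hmf hne hzx hm.1 hu, z, hz, hu.symm⟩

lemma v5_fix_of_It {z u : V} (hz : z ∈ It G K) (hu : G.Adj z u) : u ∈ Fx K := (hz.2 u hu).1

lemma V5 (hc : Cubic G) (h3 : Conn3 G) (hn : 16 ≤ Fintype.card V) (htr : ∀ v w, w ∈ orb G v)
    (hT : ∀ v, ¬ T3 G v) (v : V) :
    (∀ σ ∈ AutS G, σ v = v → ∀ a, G.Adj v a → σ a = a) ∨
    ∃ s, Nat.card (Gm G v) = 2 ^ s ∧ 4 * s + 6 ≤ Fintype.card V := by
  by_cases hl : ∀ σ ∈ AutS G, σ v = v → ∀ a, G.Adj v a → σ a = a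
  · exact Or.inl hl
  right
  obtain ⟨m, hm⟩ := v5_local hc v (hT v) hl
  have hM : ∀ u, ∃ m, MM G u m := by
    intro u
    obtain ⟨τ, hτ, hτu⟩ := htr v u
    exact ⟨τ m, hτu ▸ v5_map hm hτ⟩
  obtain ⟨hOk, hvIt⟩ := ok_Gm hc v
  obtain ⟨K, hKdef⟩ : ∃ K, K = Gm G v := ⟨_, rfl⟩
  rw [← hKdef] at hOk hvIt ⊢
  have hK := hOk.le
  obtain ⟨s, hs, hPT⟩ := PT0 hc h3 hOk
  have h3om := three_om hc h3 hOk ⟨v, hvIt⟩
  have hsplit := card_split (G := G) (K := K)
  obtain ⟨N, hN⟩ := even_card hc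
  by_cases hom : om G K = 0
  · have hbot := om_zero hOk hom
    refine ⟨0, ?_, by omega⟩
    rw [hbot]; simp
  -- the neighbours of `v`
  obtain ⟨p, hpv, hpm⟩ : ∃ p, G.Adj v p ∧ p ≠ m := by
    obtain ⟨a, b, c, hab, hac, hbc, nb⟩ := nb3 hc v
    by_cases h : a = m
    · exact ⟨b, (nb b).2 (by tauto), by rw [← h]; exact hab.symm⟩
    · exact ⟨a, (nb a).2 (by tauto), h⟩
  obtain ⟨q, hqm, hqp, nbv⟩ := third hc hm.1 hpv hpm.symm
  have hqv : G.Adj v q := (nbv q).2 (by tauto)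
  have hvF : v ∈ Fx K := hvIt.1.1
  have hpF : p ∈ Fx K := v5_fix_of_It hvIt hpv
  have hqF : q ∈ Fx K := v5_fix_of_It hvIt hqv
  have hmF : m ∈ Fx K := v5_fix_of_It hvIt hm.1
  -- a neighbour different from `m` is in the interior
  have key : ∀ p, G.Adj v p → p ≠ m → p ∈ It G K := by
    intro p hpv hpm
    obtain ⟨mp, hmp⟩ := hM p
    apply v5_It hc hK (v5_fix_of_It hvIt hpv) hvF hpv.symm hmp
    intro e
    rw [← e] at hmp
    exact hpm (v5_uniq (v5_symm htr hmp) hm)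
  have hpIt := key p hpv hpm
  have hqIt := key q hqv hqm
  have hvp : v ≠ p := hpv.ne
  have hvq : v ≠ q := hqv.ne
  have hI3 : ({v, p, q} : Set V).ncard = 3 := by
    rw [Set.ncard_eq_three]
    exact ⟨v, p, q, hvp, hvq, hqp.symm, rfl⟩
  have hsub : ({v, p, q} : Set V) ⊆ It G K := by
    intro x hx
    rcases hx with rfl | rfl | rfl
    · exact hvIt
    · exact hpIt
    · exact hqIt
  have hIge : 3 ≤ (It G K).ncard := by
    rw [← hI3]
    exact Set.ncard_le_ncard hsub (Set.toFinite _)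
  by_cases hgood : 4 * s + 6 ≤ Fintype.card V
  · exact ⟨s, hs, hgood⟩
  have hI : (It G K).ncard = 3 := by omega
  have hom1 : om G K = 1 := by omega
  have hB : (Bd G K).ncard = 3 := by omega
  have hIeq : It G K = {v, p, q} := by
    symm
    apply Set.eq_of_subset_of_ncard_le hsub _ (Set.toFinite _)
    rw [hI3, hI]
  -- `p` is adjacent to `q`
  have hpq : G.Adj p q := by
    obtain ⟨mp, hmp⟩ := hM p
    have hvmp : v ≠ mp := by
      intro e
      rw [← e] at hmp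
      exact hpm (v5_uniq (v5_symm htr hmp) hm)
    obtain ⟨t, htv, htm, nbp⟩ := third hc hpv.symm hmp.1 hvmp
    have hpt : G.Adj p t := (nbp t).2 (by tauto)
    have htF : t ∈ Fx K := v5_fix_of_It hpIt hpt
    have htIt : t ∈ It G K := by
      obtain ⟨mt, hmt⟩ := hM t
      apply v5_It hc hK htF hpF hpt.symm hmt
      intro e
      rw [← e] at hmt
      exact htm (v5_uniq (v5_symm htr hmt) hmp)
    rw [hIeq] at htIt
    rcases htIt with h | h | h
    · exact absurd h htv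
    · exact absurd h hpt.ne.symm
    · rw [Set.mem_singleton_iff] at h
      rw [← h]; exact hpt
  -- `m` is a boundary vertex
  have hmRt : m ∈ Rt G K := ⟨hmF, v, hvF, hm.1.symm⟩
  have hmIt : m ∉ It G K := by
    rw [hIeq]
    rintro (h | h | h)
    · exact hm.1.ne h.symm
    · exact hpm h.symm
    · exact hqm h.symm
  obtain ⟨z, hmz, hzU⟩ : ∃ z, G.Adj m z ∧ z ∈ Uu G K := by
    by_contra hcon
    push Not at hcon
    apply hmIt
    refine ⟨hmRt, ?_⟩
    intro u hu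
    have := hcon u hu
    unfold Uu at this
    rwa [Set.mem_compl_iff, not_not] at this
  obtain ⟨g, w, hSw⟩ := exists_Sw hc h3 hOk hmRt hzU hmz
  have hvw : v = w := by
    have hvRt : v ∈ Rt G K := hvIt.1
    rcases (hSw.nb v).1 hm.1.symm with h | h | h
    · exfalso; rw [← h] at hzU; exact hzU hvRt
    · exfalso; have := hSw.gyU; rw [← h] at this; exact this hvRt
    · exact h
  have hadj : G.Adj z (g z) := by
    obtain ⟨τ, hτ, hτv⟩ := htr v m
    have hτm : τ m = v := by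
      have h1 := v5_map hm hτ
      rw [hτv] at h1
      exact v5_uniq h1 (v5_symm htr hm)
    have hτpq : G.Adj (τ p) (τ q) := (v5_adj hτ _ _).2 hpq
    have hcl : ∀ x, G.Adj v x → x ≠ m → τ x = z ∨ τ x = g z := by
      intro x hx hxm
      have h1 : G.Adj m (τ x) := by
        have := (v5_adj hτ v x).2 hx
        rwa [hτv] at this
      rcases (hSw.nb _).1 h1 with h | h | h
      · exact Or.inl h
      · exact Or.inr h
      · exfalso
        rw [← hvw, ← hτm] at h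
        exact hxm (τ.injective h)
    rcases hcl p hpv hpm with h1 | h1 <;> rcases hcl q hqv hqm with h2 | h2
    · rw [h1, h2] at hτpq; exact absurd rfl hτpq.ne
    · rw [h1, h2] at hτpq; exact hτpq
    · rw [h1, h2] at hτpq; exact hτpq.symm
    · rw [h1, h2] at hτpq; exact absurd rfl hτpq.ne
  obtain ⟨s', hs', hPT'⟩ := PT0tri hSw hadj
  exact ⟨s', hs', by omega⟩

end k4V5

end Pool.Agent.Helper613.Cub
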