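import Pool.Agent.Helper613.Cub.Base

set_option autoImplicit false


open scoped Classical

noncomputable section

namespace Pool.Agent.Helper613.Cub

namespace k6loc


variable {V : Type} [Fintype V] {G : SimpleGraph V} {K : Subgroup (Equiv.Perm V)} {x y w : V} {g : Equiv.Perm V}
lemma orb_bound (H : Subgroup (Equiv.Perm V)) (a : V) (O : Finset V) (m : ℕ) (hm : O.card ≤ m)
    (hO : ∀ σ ∈ H, σ a ∈ O) : Nat.card H ≤ m * Nat.card (stb H a) := by
  have hf : ∀ b ∈ (Finset.univ : Finset H).image (fun σ : H => (σ : Equiv.Perm V) a),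
      ((Finset.univ : Finset H).filter (fun σ : H => (σ : Equiv.Perm V) a = b)).card ≤
        Nat.card (stb H a) := by
    intro b hb
    obtain ⟨τ, -, hτ⟩ := Finset.mem_image.mp hb
    rw [Nat.card_eq_fintype_card, ← Finset.card_univ]
    apply Finset.card_le_card_of_injOn
      (fun σ : H => if h : (σ : Equiv.Perm V) a = b then
        (⟨(τ : Equiv.Perm V)⁻¹ * σ, H.mul_mem (H.inv_mem τ.2) σ.2, by
          rw [Equiv.Perm.mul_apply, h, ← hτ]
          simp⟩ : stb H a) else 1)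
    · intro σ _
      exact Finset.mem_coe.mpr (Finset.mem_univ _)
    · intro σ hσ σ' hσ' h
      have h1 := (Finset.mem_filter.mp (Finset.mem_coe.mp hσ)).2
      have h2 := (Finset.mem_filter.mp (Finset.mem_coe.mp hσ')).2
      simp only [dif_pos h1, dif_pos h2] at h
      have h3 := congrArg Subtype.val h
      exact Subtype.ext (mul_left_cancel h3)
  have h1 := Finset.card_le_mul_card_image (Finset.univ : Finset H) (Nat.card (stb H a)) hf
  have h2 : ((Finset.univ : Finset H).image (fun σ : H => (σ : Equiv.Perm V) a)).card ≤ m := by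
    refine le_trans (Finset.card_le_card ?_) hm
    intro b hb
    obtain ⟨τ, -, hτ⟩ := Finset.mem_image.mp hb
    rw [← hτ]
    exact hO τ τ.2
  rw [Finset.card_univ, ← Nat.card_eq_fintype_card] at h1
  calc Nat.card H ≤ Nat.card (stb H a) * _ := h1
    _ ≤ Nat.card (stb H a) * m := Nat.mul_le_mul_left _ h2
    _ = m * Nat.card (stb H a) := mul_comm _ _

lemma adj_img {v a : V} {σ : Equiv.Perm V} (h : σ ∈ AutS G) (hv : σ v = v) (ha : G.Adj v a) :
    G.Adj v (σ a) := by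
  have := (h v a).mpr ha
  rwa [hv] at this

lemma mem_Gm_of {v a b c : V} (hn : ∀ z, G.Adj v z ↔ z = a ∨ z = b ∨ z = c) (hca : c ≠ a)
    (hcb : c ≠ b) {σ : Equiv.Perm V} (h : σ ∈ AutS G) (hv : σ v = v) (ha : σ a = a)
    (hb : σ b = b) : σ ∈ Gm G v := by
  refine ⟨h, fun w hw => ?_⟩
  rcases hw with hw | hw
  · rw [hw]; exact hv
  · have hw' : G.Adj v w := hw
    rcases (hn w).mp hw' with h1 | h1 | h1
    · rw [h1]; exact ha
    · rw [h1]; exact hb
    · rw [h1]
      have h2 := adj_img h hv ((hn c).mpr (Or.inr (Or.inr rfl)))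
      rcases (hn _).mp h2 with h3 | h3 | h3
      · exact absurd (σ.injective (h3.trans ha.symm)) hca
      · exact absurd (σ.injective (h3.trans hb.symm)) hcb
      · exact h3

lemma of_mem_Gm {v a : V} (ha : G.Adj v a) {σ : Equiv.Perm V} (h : σ ∈ Gm G v) :
    σ ∈ AutS G ∧ σ v = v ∧ σ a = a :=
  ⟨h.1, h.2 v (Set.mem_insert _ _), h.2 a (Set.mem_insert_of_mem _ ha)⟩

lemma card_T1 {v : V} (h : ∀ σ ∈ AutS G, σ v = v → ∀ a, G.Adj v a → σ a = a) :
    Nat.card (stb (AutS G) v) = Nat.card (Gm G v) := by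
  have : stb (AutS G) v = Gm G v := by
    ext σ
    constructor
    · rintro ⟨h1, h2⟩
      refine ⟨h1, fun w hw => ?_⟩
      rcases hw with hw | hw
      · rw [hw]; exact h2
      · exact h σ h1 h2 w hw
    · rintro ⟨h1, h2⟩
      exact ⟨h1, h2 v (Set.mem_insert _ _)⟩
  rw [this]

lemma card_fix (hc : Cubic G) {v e : V} (he : G.Adj v e)
    (hfix : ∀ σ ∈ AutS G, σ v = v → σ e = e) :
    Nat.card (stb (AutS G) v) ≤ 2 * Nat.card (Gm G v) := by
  obtain ⟨d, hd, hde⟩ : ∃ d, G.Adj v d ∧ e ≠ d := by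
    obtain ⟨a, b, c, hab, hac, hbc, hn⟩ := nb3 hc v
    by_cases h : e = a
    · exact ⟨b, (hn b).mpr (Or.inr (Or.inl rfl)), by rw [h]; exact hab⟩
    · exact ⟨a, (hn a).mpr (Or.inl rfl), h⟩
  obtain ⟨c, hce, hcd, hn⟩ := third hc he hd hde
  have h1 : Nat.card (stb (AutS G) v) ≤ 2 * Nat.card (stb (stb (AutS G) v) d) := by
    apply orb_bound (stb (AutS G) v) d {d, c} 2 (Finset.card_le_two)
    rintro σ ⟨hσ, hσv⟩
    rcases (hn _).mp (adj_img hσ hσv hd) with h | h | h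
    · exact absurd (σ.injective (h.trans (hfix σ hσ hσv).symm)) hde.symm
    · rw [h]; simp
    · rw [h]; simp
  have h2 : stb (stb (AutS G) v) d = Gm G v := by
    ext σ
    constructor
    · rintro ⟨⟨h1, h2⟩, h3⟩
      exact mem_Gm_of hn hce hcd h1 h2 (hfix σ h1 h2) h3
    · intro h
      obtain ⟨h3, h4, h5⟩ := of_mem_Gm hd h
      exact ⟨⟨h3, h4⟩, h5⟩
  rw [h2] at h1
  exact h1

lemma card_T2 (hc : Cubic G) {v : V} (h : ¬ T3 G v) :
    Nat.card (stb (AutS G) v) ≤ 2 * Nat.card (Gm G v) := by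
  unfold T3 at h
  push Not at h
  obtain ⟨a, b, ha, hb, hno⟩ := h
  have hab : a ≠ b := by
    intro hab
    exact hno 1 (AutS G).one_mem rfl (by simpa using hab)
  obtain ⟨c, hca, hcb, hn⟩ := third hc ha hb hab
  by_cases hex : ∃ σ ∈ AutS G, σ v = v ∧ σ a = c
  · obtain ⟨σ, hσ, hσv, hσa⟩ := hex
    apply card_fix hc hb
    intro τ hτ hτv
    have hinv : ∀ ρ : Equiv.Perm V, ρ v = v → ρ⁻¹ v = v := by
      intro ρ hρ
      rw [Equiv.Perm.inv_eq_iff_eq, hρ]
    rcases (hn _).mp (adj_img hτ hτv hb) with h1 | h1 | h1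
    · exfalso
      refine hno τ⁻¹ ((AutS G).inv_mem hτ) (hinv τ hτv) ?_
      rw [Equiv.Perm.inv_eq_iff_eq, h1]
    · exact h1
    · exfalso
      refine hno (τ⁻¹ * σ) ((AutS G).mul_mem ((AutS G).inv_mem hτ) hσ) ?_ ?_
      · rw [Equiv.Perm.mul_apply, hσv, hinv τ hτv]
      · rw [Equiv.Perm.mul_apply, hσa, Equiv.Perm.inv_eq_iff_eq, h1]
  · apply card_fix hc ha
    intro τ hτ hτv
    rcases (hn _).mp (adj_img hτ hτv ha) with h1 | h1 | h1
    · exact h1
    · exact absurd h1 (hno τ hτ hτv)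
    · exact absurd ⟨τ, hτ, hτv, h1⟩ hex

lemma card_T3 (hc : Cubic G) (v : V) : Nat.card (stb (AutS G) v) ≤ 6 * Nat.card (Gm G v) := by
  obtain ⟨a, b, c, hab, hac, hbc, hn⟩ := nb3 hc v
  have ha : G.Adj v a := (hn a).mpr (Or.inl rfl)
  have hb : G.Adj v b := (hn b).mpr (Or.inr (Or.inl rfl))
  have h1 : Nat.card (stb (AutS G) v) ≤ 3 * Nat.card (stb (stb (AutS G) v) a) := by
    apply orb_bound (stb (AutS G) v) a {a, b, c} 3 (Finset.card_le_three)
    rintro σ ⟨hσ, hσv⟩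
    rcases (hn _).mp (adj_img hσ hσv ha) with h | h | h <;> rw [h] <;> simp
  have h2 : Nat.card (stb (stb (AutS G) v) a) ≤
      2 * Nat.card (stb (stb (stb (AutS G) v) a) b) := by
    apply orb_bound (stb (stb (AutS G) v) a) b {b, c} 2 (Finset.card_le_two)
    rintro σ ⟨⟨hσ, hσv⟩, hσa⟩
    rcases (hn _).mp (adj_img hσ hσv hb) with h | h | h
    · exact absurd (σ.injective (h.trans hσa.symm)) hab.symm
    · rw [h]; simp
    · rw [h]; simp
  have h3 : stb (stb (stb (AutS G) v) a) b = Gm G v := by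
    ext σ
    constructor
    · rintro ⟨⟨⟨h1, h2⟩, h3⟩, h4⟩
      exact mem_Gm_of hn hac.symm hbc.symm h1 h2 h3 h4
    · intro h
      obtain ⟨h3, h4, h5⟩ := of_mem_Gm ha h
      obtain ⟨-, -, h6⟩ := of_mem_Gm hb h
      exact ⟨⟨⟨h3, h4⟩, h5⟩, h6⟩
  rw [h3] at h2
  omega

end k6loc

end Pool.Agent.Helper613.Cub
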