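import Pool.Agent.Helper613.Cub.Base

set_option autoImplicit false


open scoped Classical

noncomputable section

namespace Pool.Agent.Helper613.Cub

namespace k7orb


variable {V : Type} [Fintype V] {G : SimpleGraph V} {K : Subgroup (Equiv.Perm V)} {x y w : V} {g : Equiv.Perm V}
lemma k7_self (v : V) : v ∈ orb G v := ⟨1, (AutS G).one_mem, rfl⟩

lemma k7_smul {v w : V} {σ : Equiv.Perm V} (hσ : σ ∈ AutS G) (hw : w ∈ orb G v) : σ w ∈ orb G v := by
  obtain ⟨τ, hτ, rfl⟩ := hw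
  exact ⟨σ * τ, (AutS G).mul_mem hσ hτ, rfl⟩

lemma k7_eq {v w : V} (h : w ∈ orb G v) : orb G w = orb G v := by
  obtain ⟨τ, hτ, rfl⟩ := h
  ext z
  constructor
  · rintro ⟨ρ, hρ, rfl⟩
    exact ⟨ρ * τ, (AutS G).mul_mem hρ hτ, rfl⟩
  · rintro ⟨ρ, hρ, rfl⟩
    refine ⟨ρ * τ⁻¹, (AutS G).mul_mem hρ ((AutS G).inv_mem hτ), ?_⟩
    simp

lemma k7_disj {v w : V} (h : w ∉ orb G v) : Disjoint (orb G v) (orb G w) := by
  rw [Set.disjoint_left]
  intro z hz hz'
  apply h
  rw [← k7_eq hz, k7_eq hz']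
  exact k7_self w

lemma k7_adj {σ : Equiv.Perm V} (hσ : σ ∈ AutS G) (a b : V) : G.Adj (σ a) (σ b) ↔ G.Adj a b := hσ a b

/-- number of neighbours of `x` in `B` -/
def k7cnt (G : SimpleGraph V) (x : V) (B : Set V) : ℕ :=
  (Finset.univ.filter (fun y => G.Adj x y ∧ y ∈ B)).card

lemma k7_dc (A B : Set V) :
    ∑ x ∈ Finset.univ.filter (fun x => x ∈ A), k7cnt G x B =
      ∑ y ∈ Finset.univ.filter (fun y => y ∈ B), k7cnt G y A := by
  have h := Finset.sum_card_bipartiteAbove_eq_sum_card_bipartiteBelow (fun a b => G.Adj a b)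
    (s := Finset.univ.filter (fun x => x ∈ A)) (t := Finset.univ.filter (fun y => y ∈ B))
  have h1 : ∀ x, k7cnt G x B = ((Finset.univ.filter (fun y => y ∈ B)).bipartiteAbove
      (fun a b => G.Adj a b) x).card := by
    intro x
    unfold k7cnt Finset.bipartiteAbove
    rw [Finset.filter_filter]
    congr 1
    ext y; simp [and_comm]
  have h2 : ∀ y, k7cnt G y A = ((Finset.univ.filter (fun x => x ∈ A)).bipartiteBelow
      (fun a b => G.Adj a b) y).card := by
    intro x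
    unfold k7cnt Finset.bipartiteBelow
    rw [Finset.filter_filter]
    congr 1
    ext y; simp [and_comm, G.adj_comm]
  simp only [h1, h2]
  exact h

lemma k7_inv {σ : Equiv.Perm V} (hσ : σ ∈ AutS G) (x u : V) :
    k7cnt G (σ x) (orb G u) = k7cnt G x (orb G u) := by
  unfold k7cnt
  rw [← Finset.card_image_of_injective (Finset.univ.filter (fun y => G.Adj x y ∧ y ∈ orb G u))
    σ.injective]
  congr 1
  ext y
  simp only [Finset.mem_filter, Finset.mem_univ, true_and, Finset.mem_image]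
  constructor
  · rintro ⟨h1, h2⟩
    refine ⟨σ⁻¹ y, ⟨?_, k7_smul ((AutS G).inv_mem hσ) h2⟩, by simp⟩
    rw [← k7_adj hσ]; simpa using h1
  · rintro ⟨z, ⟨h1, h2⟩, rfl⟩
    exact ⟨(k7_adj hσ _ _).2 h1, k7_smul hσ h2⟩

lemma k7_ncard (A : Set V) : (Finset.univ.filter (fun x => x ∈ A)).card = A.ncard := by
  rw [Set.ncard_eq_toFinset_card' A]
  congr 1
  ext x; simp

lemma k7_edge (hc : Cubic G) {v u w : V} (hw : w ∈ orb G v) (hwu : G.Adj w u)
    (hnb : ∀ b, G.Adj u b → b ∈ orb G v) :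
    3 * (orb G u).ncard = k7cnt G w (orb G u) * (orb G v).ncard ∧ 1 ≤ k7cnt G w (orb G u) := by
  constructor
  · have h := k7_dc (G := G) (orb G v) (orb G u)
    have h1 : ∀ x ∈ Finset.univ.filter (fun x => x ∈ orb G v), k7cnt G x (orb G u) =
        k7cnt G w (orb G u) := by
      intro x hx
      have hx' : x ∈ orb G v := (Finset.mem_filter.1 hx).2
      rw [← k7_eq hw] at hx'
      obtain ⟨σ, hσ, rfl⟩ := hx'
      exact k7_inv hσ w u
    have h2 : ∀ y ∈ Finset.univ.filter (fun y => y ∈ orb G u), k7cnt G y (orb G v) = 3 := by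
      intro y hy
      obtain ⟨σ, hσ, rfl⟩ := (Finset.mem_filter.1 hy).2
      rw [k7_inv hσ u v, ← hc u, ← k7_ncard]
      unfold k7cnt
      congr 1
      ext z
      simp only [Finset.mem_filter, Finset.mem_univ, true_and, SimpleGraph.mem_neighborSet]
      exact ⟨fun h => h.1, fun h => ⟨h, hnb z h⟩⟩
    rw [Finset.sum_congr rfl h1, Finset.sum_congr rfl h2, Finset.sum_const, Finset.sum_const,
      k7_ncard, k7_ncard, smul_eq_mul, smul_eq_mul] at h
    rw [mul_comm 3, ← h, mul_comm]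
  · unfold k7cnt
    rw [Nat.one_le_iff_ne_zero, Finset.card_ne_zero]
    exact ⟨u, by simp [hwu, k7_self u]⟩

lemma k7_nb {v u w : V} (hT : T3 G u) (hw : w ∈ orb G v) (hwu : G.Adj w u) :
    ∀ b, G.Adj u b → b ∈ orb G v := by
  intro b hb
  obtain ⟨σ, hσ, h1, h2⟩ := hT w b (G.adj_symm hwu) hb
  rw [← h2]
  exact k7_smul hσ hw

lemma k7_T3 {v : V} {σ : Equiv.Perm V} (hσ : σ ∈ AutS G) (h : T3 G (σ v)) : T3 G v := by
  intro a b ha hb
  obtain ⟨τ, hτ, h1, h2⟩ := h (σ a) (σ b) ((k7_adj hσ _ _).2 ha) ((k7_adj hσ _ _).2 hb)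
  refine ⟨σ⁻¹ * τ * σ, (AutS G).mul_mem ((AutS G).mul_mem ((AutS G).inv_mem hσ) hτ) hσ, ?_, ?_⟩
  · show σ⁻¹ (τ (σ v)) = v
    rw [h1]; simp
  · show σ⁻¹ (τ (σ a)) = b
    rw [h2]; simp

lemma k7_con (h3 : Conn3 G) (C : Set V) (hC : C.Nonempty) (hne : C ≠ Set.univ) :
    ∃ a ∈ C, ∃ b, b ∉ C ∧ G.Adj a b := by
  by_contra hcon
  push Not at hcon
  apply hne
  have := h3 ∅ C (by simp) hC (by simp) (by
    intro a ha b hab
    rw [Set.union_empty]
    by_contra hb
    exact hcon a ha b hb hab)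
  rwa [Set.union_empty] at this

lemma orbit_small (hc : Cubic G) (h3 : Conn3 G) (hnt : ∃ v w, w ∉ orb G v) (hT : ∃ v, ¬ T3 G v) :
    ∃ v, ¬ T3 G v ∧ (orb G v).ncard < Fintype.card V ∧
      (2 * (orb G v).ncard ≤ Fintype.card V ∨ 5 * (orb G v).ncard ≤ 3 * Fintype.card V ∨
        4 ∣ Fintype.card V) := by
  have huniv : ∀ v, orb G v ≠ Set.univ := by
    intro v hv
    obtain ⟨a, b, hab⟩ := hnt
    apply hab
    have ha : a ∈ orb G v := by rw [hv]; trivial
    rw [k7_eq ha, hv]; trivial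
  have hcard : (Set.univ : Set V).ncard = Fintype.card V := by
    rw [Set.ncard_univ, Nat.card_eq_fintype_card]
  have hle : ∀ A : Set V, A.ncard ≤ Fintype.card V := by
    intro A
    rw [← hcard]
    exact Set.ncard_le_ncard (Set.subset_univ A) (Set.toFinite _)
  obtain ⟨v, hv, hmin⟩ : ∃ v, ¬ T3 G v ∧ ∀ u, ¬ T3 G u → (orb G v).ncard ≤ (orb G u).ncard := by
    obtain ⟨v, hv1, hv2⟩ := Set.exists_min_image {v | ¬ T3 G v} (fun v => (orb G v).ncard)
      (Set.toFinite _) hT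
    exact ⟨v, hv1, fun u hu => hv2 u hu⟩
  refine ⟨v, hv, ?_, ?_⟩
  · rw [← hcard]
    exact Set.ncard_lt_ncard ((Set.ssubset_univ_iff).2 (huniv v)) (Set.toFinite _)
  by_cases h2 : 2 * (orb G v).ncard ≤ Fintype.card V
  · exact Or.inl h2
  right
  have hTu : ∀ u, u ∉ orb G v → T3 G u := by
    intro u hu
    by_contra hcon
    have h4 := hmin u hcon
    have h5 := Set.ncard_union_eq (k7_disj hu) (Set.toFinite _) (Set.toFinite _)
    have h6 := hle (orb G v ∪ orb G u)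
    omega
  obtain ⟨w, hw, u, hu, hwu⟩ := k7_con h3 (orb G v) ⟨v, k7_self v⟩ (huniv v)
  have hnb := k7_nb (hTu u hu) hw hwu
  obtain ⟨e1, e2⟩ := k7_edge hc hw hwu hnb
  have hd := k7_disj hu
  have h5 := Set.ncard_union_eq hd (Set.toFinite _) (Set.toFinite _)
  have h6 := hle (orb G v ∪ orb G u)
  by_cases ht : 2 ≤ k7cnt G w (orb G u)
  · left
    have h7 : 2 * (orb G v).ncard ≤ 3 * (orb G u).ncard := by
      rw [e1]; exact Nat.mul_le_mul_right _ ht
    omega
  have ht1 : k7cnt G w (orb G u) = 1 := by omega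
  rw [ht1, one_mul] at e1
  by_cases hcov : orb G v ∪ orb G u = Set.univ
  · right
    rw [hcov, hcard] at h5
    exact ⟨(orb G u).ncard, by omega⟩
  left
  obtain ⟨a, ha, b, hb, hab⟩ := k7_con h3 (orb G v ∪ orb G u) ⟨v, Or.inl (k7_self v)⟩ hcov
  have haW : a ∈ orb G v := by
    rcases ha with ha | ha
    · exact ha
    · exfalso
      apply hb
      left
      obtain ⟨σ, hσ, rfl⟩ := ha
      have h8 : G.Adj u (σ⁻¹ b) := by
        rw [← k7_adj hσ]; simpa using hab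
      have h9 := k7_smul hσ (hnb _ h8)
      simpa using h9
  have hbv : b ∉ orb G v := fun h => hb (Or.inl h)
  have hbu : b ∉ orb G u := fun h => hb (Or.inr h)
  obtain ⟨f1, f2⟩ := k7_edge hc haW hab (k7_nb (hTu b hbv) haW hab)
  have h7 : (orb G v).ncard ≤ 3 * (orb G b).ncard := by
    rw [f1]; exact Nat.le_mul_of_pos_left _ f2
  have hd2 : Disjoint (orb G v ∪ orb G u) (orb G b) := by
    rw [Set.disjoint_union_left]
    exact ⟨k7_disj hbv, k7_disj hbu⟩
  have h8 := Set.ncard_union_eq hd2 (Set.toFinite _) (Set.toFinite _)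
  have h9 := hle (orb G v ∪ orb G u ∪ orb G b)
  omega

end k7orb

end Pool.Agent.Helper613.Cub
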