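import Pool.Agent.Helper613.Cub.Base

set_option autoImplicit false


open scoped Classical

noncomputable section

namespace Pool.Agent.Helper613.Cub

namespace k8semi


variable {V : Type} [Fintype V] {G : SimpleGraph V} {K : Subgroup (Equiv.Perm V)} {x y w : V} {g : Equiv.Perm V}
lemma ss_self (v : V) : v ∈ orb G v := ⟨1, (AutS G).one_mem, rfl⟩

lemma ss_mem {v w : V} (hw : w ∈ orb G v) {τ : Equiv.Perm V} (hτ : τ ∈ AutS G) :
    τ w ∈ orb G v := by
  obtain ⟨σ, hσ, rfl⟩ := hw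
  exact ⟨τ * σ, (AutS G).mul_mem hτ hσ, rfl⟩

lemma ss_symm {v w : V} (hw : w ∈ orb G v) : v ∈ orb G w := by
  obtain ⟨σ, hσ, rfl⟩ := hw
  exact ⟨σ⁻¹, (AutS G).inv_mem hσ, by simp⟩

lemma ss_trans {v w z : V} (hw : w ∈ orb G v) (hz : z ∈ orb G w) : z ∈ orb G v := by
  obtain ⟨τ, hτ, rfl⟩ := hz
  exact ss_mem hw hτ

lemma ss_eq {v w : V} (hw : w ∈ orb G v) : orb G w = orb G v := by
  ext z
  exact ⟨fun h => ss_trans hw h, fun h => ss_trans (ss_symm hw) h⟩

lemma ss_adj {τ : Equiv.Perm V} (hτ : τ ∈ AutS G) {a b : V} :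
    G.Adj (τ a) (τ b) ↔ G.Adj a b := hτ a b

lemma ss_pull {v a b : V} {τ : Equiv.Perm V} (hτ : τ ∈ AutS G) (ha : τ v = a)
    (hab : G.Adj a b) : G.Adj v (τ⁻¹ b) := by
  rw [← ss_adj hτ, ha]
  simpa using hab

lemma ss_closed (h3 : Conn3 G) {C : Set V} (hC : C.Nonempty)
    (h : ∀ a ∈ C, ∀ b, G.Adj a b → b ∈ C) : C = Set.univ := by
  have := h3 ∅ C (by simp) hC (Set.disjoint_empty C) (fun a ha b hab => Or.inl (h a ha b hab))
  rwa [Set.union_empty] at this

/-- if all the neighbours of `v` lie in the orbit of `u`, so do those of the elements of the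
orbit of `v` -/
lemma ss_nb {v u : V} (hT : T3 G v) (hvu : G.Adj v u) {a b : V} (ha : a ∈ orb G v)
    (hab : G.Adj a b) : b ∈ orb G u := by
  obtain ⟨τ, hτ, hτa⟩ := ha
  have h1 := ss_pull hτ hτa hab
  obtain ⟨σ, hσ, _, h2⟩ := hT u (τ⁻¹ b) hvu h1
  have h3 : τ⁻¹ b ∈ orb G u := ⟨σ, hσ, h2⟩
  have h4 := ss_mem h3 hτ
  simpa using h4

lemma semisym (hc : Cubic G) (h3 : Conn3 G) (hnt : ∃ v w, w ∉ orb G v) (hT : ∀ v, T3 G v) :
    ∃ P : Set V, (∀ a b, G.Adj a b → (a ∈ P ↔ b ∉ P)) ∧ ∀ v, 2 * (orb G v).ncard = Fintype.card V := by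
  obtain ⟨v0, w0, hw0⟩ := hnt
  have hprop : ∀ v, orb G v ≠ Set.univ := by
    intro v hv
    apply hw0
    have h1 : v0 ∈ orb G v := by rw [hv]; trivial
    rw [ss_eq h1, hv]
    trivial
  have hne : ∀ v u, G.Adj v u → u ∉ orb G v := by
    intro v u hvu hu
    apply hprop v
    apply ss_closed h3 ⟨v, ss_self v⟩
    intro a ha b hab
    have := ss_nb (hT v) hvu ha hab
    rwa [ss_eq hu] at this
  obtain ⟨u, _, _, _, _, _, hu⟩ := nb3 hc v0
  have hvu : G.Adj v0 u := (hu u).2 (Or.inl rfl)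
  have hPQ : ∀ a ∈ orb G v0, ∀ b, G.Adj a b → b ∈ orb G u := fun a ha b hab =>
    ss_nb (hT v0) hvu ha hab
  have hQP : ∀ a ∈ orb G u, ∀ b, G.Adj a b → b ∈ orb G v0 := fun a ha b hab =>
    ss_nb (hT u) hvu.symm ha hab
  have huniv : orb G v0 ∪ orb G u = Set.univ := by
    apply ss_closed h3 ⟨v0, Or.inl (ss_self v0)⟩
    rintro a (ha | ha) b hab
    · exact Or.inr (hPQ a ha b hab)
    · exact Or.inl (hQP a ha b hab)
  have hdisj : Disjoint (orb G v0) (orb G u) := by
    rw [Set.disjoint_left]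
    intro a ha ha'
    apply hne v0 u hvu
    exact ss_trans ha (ss_symm ha')
  have hcase : ∀ a, a ∈ orb G v0 ∨ a ∈ orb G u := by
    intro a
    have : a ∈ orb G v0 ∪ orb G u := by rw [huniv]; trivial
    exact this
  have hdeg : ∀ a, (Finset.univ.filter (fun b => G.Adj a b)).card = 3 := by
    intro a
    have h1 := hc a
    rw [Set.ncard_eq_toFinset_card'] at h1
    rw [← h1]
    congr 1
    ext b
    simp
  have hcount : (orb G v0).toFinset.card * 3 = (orb G u).toFinset.card * 3 := by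
    apply Finset.card_mul_eq_card_mul (fun a b => G.Adj a b)
    · intro a ha
      rw [← hdeg a]
      congr 1
      ext b
      rw [Finset.mem_bipartiteAbove, Set.mem_toFinset, Finset.mem_filter]
      rw [Set.mem_toFinset] at ha
      exact ⟨fun h => ⟨Finset.mem_univ _, h.2⟩, fun h => ⟨hPQ a ha b h.2, h.2⟩⟩
    · intro b hb
      rw [← hdeg b]
      congr 1
      ext a
      rw [Finset.mem_bipartiteBelow, Set.mem_toFinset, Finset.mem_filter]
      rw [Set.mem_toFinset] at hb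
      exact ⟨fun h => ⟨Finset.mem_univ _, h.2.symm⟩, fun h => ⟨hQP b hb a h.2, h.2.symm⟩⟩
  have hsum : (orb G v0).ncard + (orb G u).ncard = Fintype.card V := by
    rw [← Set.ncard_union_eq hdisj, huniv, Set.ncard_univ, Nat.card_eq_fintype_card]
  rw [← Set.ncard_eq_toFinset_card', ← Set.ncard_eq_toFinset_card'] at hcount
  refine ⟨orb G v0, ?_, ?_⟩
  · intro a b hab
    constructor
    · intro ha hb
      exact Set.disjoint_left.1 hdisj hb (hPQ a ha b hab)
    · intro hb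
      rcases hcase b with h | h
      · exact absurd h hb
      · exact hQP b h a hab.symm
  · intro v
    rcases hcase v with h | h
    · rw [ss_eq h]; omega
    · rw [ss_eq h]; omega

end k8semi

end Pool.Agent.Helper613.Cub
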