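import Pool.Agent.Helper613.Cub.k2even
import Pool.Agent.Helper613.Cub.k3V
import Pool.Agent.Helper613.Cub.k4V5
import Pool.Agent.Helper613.Cub.k5orb
import Pool.Agent.Helper613.Cub.k6loc
import Pool.Agent.Helper613.Cub.k7orb
import Pool.Agent.Helper613.Cub.k8semi
import Pool.Agent.Helper613.Cub.k9no3
import Pool.Agent.Helper613.Cub.k10no4
import Pool.Agent.Helper613.Cub.k14V3
import Pool.Agent.Helper613.Cub.k15arc
import Pool.Agent.Helper613.Cub.k16arc
import Pool.Agent.Helper613.Cub.k17no6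
import Pool.Agent.Helper613.Cub.k18fin
import Pool.Agent.Helper613.Cub.k19ex

set_option autoImplicit false

open scoped Classical

noncomputable section

namespace Pool.Agent.Helper613.Cub

namespace Main

open k2even k3V k4V5 k5orb k6loc k7orb k8semi k9no3 k10no4 k14V3 k15arc k16arc k17no6 k18fin k19ex

variable {V : Type} [Fintype V] {G : SimpleGraph V}

lemma T3_orb {v w : V} (hw : w ∈ orb G v) (h : T3 G v) : T3 G w := by
  obtain ⟨τ, hτ, rfl⟩ := hw
  intro a b ha hb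
  have hτ' := (AutS G).inv_mem hτ
  have ha' : G.Adj v (τ⁻¹ a) := by
    have := (hτ' (τ v) a).2 ha
    simpa using this
  have hb' : G.Adj v (τ⁻¹ b) := by
    have := (hτ' (τ v) b).2 hb
    simpa using this
  obtain ⟨σ, hσ, hσv, hσa⟩ := h _ _ ha' hb'
  refine ⟨τ * σ * τ⁻¹, (AutS G).mul_mem ((AutS G).mul_mem hτ hσ) hτ', ?_, ?_⟩
  · rw [Equiv.Perm.mul_apply, Equiv.Perm.mul_apply]
    have : τ⁻¹ (τ v) = v := by simp
    rw [this, hσv]
  · rw [Equiv.Perm.mul_apply, Equiv.Perm.mul_apply, hσa]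
    simp

lemma orb_le (v : V) : (orb G v).ncard ≤ Fintype.card V := by
  rw [← Nat.card_eq_fintype_card, ← Set.ncard_univ]
  exact Set.ncard_le_ncard (Set.subset_univ _) (Set.toFinite _)

lemma arith1 {a n s : ℕ} (hn : 0 < n) (ha : a ≤ n * 2 ^ s) (hs : 4 * s + 2 ≤ n) :
    a ^ 4 < n ^ 4 * 2 ^ n := by
  calc a ^ 4 ≤ (n * 2 ^ s) ^ 4 := Nat.pow_le_pow_left ha 4
    _ = n ^ 4 * 2 ^ (4 * s) := by rw [mul_pow, ← pow_mul, mul_comm s 4]
    _ < n ^ 4 * 2 ^ n := by
      apply Nat.mul_lt_mul_of_pos_left _ (by positivity)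
      exact Nat.pow_lt_pow_right (by norm_num) (by omega)

lemma arith2 {a n s : ℕ} (hn : 0 < n) (ha : a ≤ n * (2 * 2 ^ s)) (hs : 4 * s + 6 ≤ n) :
    a ^ 4 < n ^ 4 * 2 ^ n :=
  arith1 (s := s + 1) hn (by rw [pow_succ, mul_comm (2 ^ s) 2]; exact ha) (by omega)

lemma arith3 {a n s m : ℕ} (hn : 0 < n) (ha : a ≤ m * (2 * 2 ^ s)) (hs : 4 * s + 4 = n) (hm : m < n) :
    a ^ 4 < n ^ 4 * 2 ^ n := by
  calc a ^ 4 ≤ (m * (2 * 2 ^ s)) ^ 4 := Nat.pow_le_pow_left ha 4
    _ = m ^ 4 * 2 ^ n := by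
      rw [← hs, mul_pow, mul_pow, ← pow_mul, pow_add, mul_comm s 4]; ring
    _ < n ^ 4 * 2 ^ n := by
      apply Nat.mul_lt_mul_of_pos_right _ (by positivity)
      exact Nat.pow_lt_pow_left hm (by norm_num)

lemma arith4 {a n s m : ℕ} (hn : 0 < n) (ha : a ≤ m * (2 * 2 ^ s)) (hs : 4 * s + 2 = n)
    (hm : 5 * m ≤ 3 * n) : a ^ 4 < n ^ 4 * 2 ^ n := by
  calc a ^ 4 ≤ (m * (2 * 2 ^ s)) ^ 4 := Nat.pow_le_pow_left ha 4
    _ = (4 * m ^ 4) * 2 ^ n := by
      rw [← hs, mul_pow, mul_pow, ← pow_mul, pow_add, mul_comm s 4]; ring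
    _ < n ^ 4 * 2 ^ n := by
      apply Nat.mul_lt_mul_of_pos_right _ (by positivity)
      have h1 : (5 * m) ^ 4 ≤ (3 * n) ^ 4 := Nat.pow_le_pow_left hm 4
      have h2 : 0 < n ^ 4 := by positivity
      have h3 : 625 * m ^ 4 ≤ 81 * n ^ 4 := by
        calc 625 * m ^ 4 = (5 * m) ^ 4 := by ring
          _ ≤ (3 * n) ^ 4 := h1
          _ = 81 * n ^ 4 := by ring
      omega

lemma arith5 {a n s : ℕ} (hn : 0 < n) (ha : a ≤ n * (3 * 2 ^ s)) (hs : 4 * s + 8 ≤ n) :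
    a ^ 4 < n ^ 4 * 2 ^ n := by
  calc a ^ 4 ≤ (n * (3 * 2 ^ s)) ^ 4 := Nat.pow_le_pow_left ha 4
    _ = n ^ 4 * (81 * 2 ^ (4 * s)) := by
      rw [mul_pow, mul_pow, ← pow_mul, mul_comm s 4]; norm_num
    _ < n ^ 4 * 2 ^ n := by
      apply Nat.mul_lt_mul_of_pos_left _ (by positivity)
      calc 81 * 2 ^ (4 * s) < 256 * 2 ^ (4 * s) := Nat.mul_lt_mul_of_pos_right (by norm_num) (by positivity)
        _ = 2 ^ (4 * s + 8) := by rw [pow_add]; ring
        _ ≤ 2 ^ n := Nat.pow_le_pow_right (by norm_num) hs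

lemma arith6 {a n s : ℕ} (hn : 16 ≤ n) (ha : a ≤ 12 * n * 2 ^ s) (hs : s = 0 ∨ 12 * s + 46 ≤ 3 * n) :
    a ^ 4 < n ^ 4 * 2 ^ n := by
  have hn4 : 0 < n ^ 4 := by positivity
  calc a ^ 4 ≤ (12 * n * 2 ^ s) ^ 4 := Nat.pow_le_pow_left ha 4
    _ = n ^ 4 * (12 * 2 ^ s) ^ 4 := by ring
    _ < n ^ 4 * 2 ^ n := by
      apply Nat.mul_lt_mul_of_pos_left _ hn4
      rcases hs with rfl | hs
      · calc (12 * 2 ^ 0) ^ 4 < 2 ^ 16 := by norm_num
          _ ≤ 2 ^ n := Nat.pow_le_pow_right (by norm_num) hn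
      · apply lt_of_pow_lt_pow_left₀ 3 (Nat.zero_le _)
        calc ((12 * 2 ^ s) ^ 4) ^ 3 = 12 ^ 12 * 2 ^ (12 * s) := by
              rw [← pow_mul, mul_pow, ← pow_mul, mul_comm s]
          _ < 2 ^ 46 * 2 ^ (12 * s) := Nat.mul_lt_mul_of_pos_right (by norm_num) (by positivity)
          _ = 2 ^ (12 * s + 46) := by rw [pow_add]; ring
          _ ≤ 2 ^ (3 * n) := Nat.pow_le_pow_right (by norm_num) hs
          _ = (2 ^ n) ^ 3 := by rw [← pow_mul, mul_comm]

theorem main_nat (hc : Cubic G) (h3 : Conn3 G) (hn : 16 ≤ Fintype.card V) :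
    (Nat.card (AutS G)) ^ 4 < (Fintype.card V) ^ 4 * 2 ^ (Fintype.card V) := by
  have hn0 : 0 < Fintype.card V := by omega
  obtain ⟨v0⟩ : Nonempty V := Fintype.card_pos_iff.1 hn0
  by_cases hT1 : ∃ v, ∀ σ ∈ AutS G, σ v = v → ∀ a, G.Adj v a → σ a = a
  · obtain ⟨v, hv⟩ := hT1
    obtain ⟨s, hs, hs'⟩ := V0 hc h3 v
    refine arith1 (s := s) hn0 ?_ hs'
    rw [card_orb v, card_T1 hv, hs]
    exact Nat.mul_le_mul_right _ (orb_le v)
  by_cases hT3 : ∀ v, T3 G v
  · have hn3 := no3 hc h3 hn hT3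
    have hn4 := no4 hc h3 hn hT3
    by_cases htr : ∀ v w, w ∈ orb G v
    · have hA1 := ATr1 htr hT3
      by_cases htriv : ∀ p : ℕ → V, Arc G 3 p → ∀ σ ∈ AutS G, (∀ j, j ≤ 3 → σ (p j) = p j) → σ = 1
      · obtain ⟨p, hp⟩ := exists_arc3 hc hn0
        have h1 := card_arc hc hp
        have h2 : FS G {p 0, p 1, p 2, p 3} = ⊥ := by
          rw [Subgroup.eq_bot_iff_forall]
          intro σ hσ
          apply htriv p hp σ hσ.1
          intro j hj
          apply hσ.2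
          interval_cases j <;> simp
        rw [h2] at h1
        refine arith6 (s := 0) hn ?_ (Or.inl rfl)
        simpa using h1
      · push_neg at htriv
        obtain ⟨p, hp, σ, hσ, hσp, hσ1⟩ := htriv
        have hp1 : Arc G 1 p := ⟨fun j hj => hp.1 j (by omega), fun j hj => hp.2 j (by omega)⟩
        have hp2 : Arc G 2 p := ⟨fun j hj => hp.1 j (by omega), fun j hj => hp.2 j (by omega)⟩
        have hA2 : ATr G 2 := arc_up hc h3 le_rfl hA1 hp1 hσ (fun j hj => hσp j (by omega)) hσ1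
        have hA3 : ATr G 3 := arc_up hc h3 (by norm_num) hA2 hp2 hσ (fun j hj => hσp j (by omega)) hσ1
        have hA4 : ATr G 4 := arc_up hc h3 (by norm_num) hA3 hp hσ hσp hσ1
        have h6 := no6_of_ATr4 hc h3 hn hn3 hn4 hA4
        obtain ⟨s, hs, hs'⟩ := arc_final hc h3 hn3 hn4 h6 hA4 hp
        have h1 := card_arc hc hp
        rw [hs] at h1
        exact arith6 hn h1 hs'
    · have hnt : ∃ v w, w ∉ orb G v := by push_neg at htr; exact htr
      obtain ⟨P, hP, horb⟩ := semisym hc h3 hnt hT3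
      obtain ⟨s, hs, hs'⟩ := V3 hc h3 hn4 hn hP v0
      refine arith5 (s := s) hn0 ?_ hs'
      rw [card_orb v0]
      have h1 := card_T3 hc v0
      rw [hs] at h1
      calc (orb G v0).ncard * Nat.card (stb (AutS G) v0) ≤ (orb G v0).ncard * (6 * 2 ^ s) :=
            Nat.mul_le_mul_left _ h1
        _ = (2 * (orb G v0).ncard) * (3 * 2 ^ s) := by ring
        _ = Fintype.card V * (3 * 2 ^ s) := by rw [horb v0]
  · push_neg at hT3
    by_cases htr : ∀ v w, w ∈ orb G v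
    · obtain ⟨v, hv⟩ := hT3
      have hall : ∀ u, ¬ T3 G u := fun u hu => hv (T3_orb (htr u v) hu)
      rcases V5 hc h3 hn htr hall v with h | ⟨s, hs, hs'⟩
      · exact absurd ⟨v, h⟩ hT1
      · refine arith2 (s := s) hn0 ?_ hs'
        rw [card_orb v]
        have h1 := card_T2 hc hv
        rw [hs] at h1
        exact Nat.mul_le_mul (orb_le v) h1
    · have hnt : ∃ v w, w ∉ orb G v := by push_neg at htr; exact htr
      obtain ⟨v, hv, hlt, hor⟩ := orbit_small hc h3 hnt hT3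
      obtain ⟨s, hs, hs'⟩ := V0 hc h3 v
      have h1 := card_T2 hc hv
      rw [hs] at h1
      have h2 : Nat.card (AutS G) ≤ (orb G v).ncard * (2 * 2 ^ s) := by
        rw [card_orb v]; exact Nat.mul_le_mul_left _ h1
      have heven := even_card hc
      obtain ⟨m, hm⟩ := heven
      by_cases h6 : 4 * s + 6 ≤ Fintype.card V
      · exact arith2 hn0 (h2.trans (Nat.mul_le_mul_right _ (orb_le v))) h6
      · by_cases h4 : 4 * s + 4 = Fintype.card V
        · exact arith3 hn0 h2 h4 hlt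
        · have h2' : 4 * s + 2 = Fintype.card V := by omega
          refine arith4 hn0 h2 h2' ?_
          rcases hor with h | h | h
          · omega
          · exact h
          · exfalso
            obtain ⟨q, hq⟩ := h
            omega

end Main

end Pool.Agent.Helper613.Cub
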