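import Pool.Agent.Helper613.Cub.Base

set_option autoImplicit false


open scoped Classical

noncomputable section

namespace Pool.Agent.Helper613.Cub

namespace k17no6


variable {V : Type} [Fintype V] {G : SimpleGraph V} {K : Subgroup (Equiv.Perm V)} {x y w : V} {g : Equiv.Perm V}
lemma no6_of_ATr4 (hc : Cubic G) (h3 : Conn3 G) (hn : 16 ≤ Fintype.card V) (hn3 : No3 G) (h4 : No4 G)
    (hA : ATr G 4) : No6 G := by
  intro a b c d e f hnd hab hbc hcd hde hef hfa
  have hcom : ∀ q : ℕ → V, Arc G 4 q → ∃ r, G.Adj (q 0) r ∧ G.Adj (q 4) r := by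
    intro q hq
    let p : ℕ → V := fun j => if j = 0 then a else if j = 1 then b else if j = 2 then c
      else if j = 3 then d else e
    have hp : Arc G 4 p := by
      refine ⟨?_, ?_⟩
      · intro j hj
        interval_cases j
        · simpa [p] using hab
        · simpa [p] using hbc
        · simpa [p] using hcd
        · simpa [p] using hde
      · intro j hj
        simp only [List.nodup_cons, List.mem_cons, List.not_mem_nil, or_false, not_or] at hnd
        have hj' : j ≤ 2 := by omega
        interval_cases j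
        · simpa [p] using hnd.1.2.1
        · simpa [p] using hnd.2.1.2.1
        · simpa [p] using hnd.2.2.1.2.1
    obtain ⟨σ, hσ, hσq⟩ := hA p q hp hq
    refine ⟨σ f, ?_, ?_⟩
    · have h0 := hσq 0 (by norm_num)
      have h1 : σ a = q 0 := by simpa [p] using h0
      rw [← h1]
      exact (hσ a f).2 hfa.symm
    · have h0 := hσq 4 (by norm_num)
      have h1 : σ e = q 4 := by simpa [p] using h0
      rw [← h1]
      exact (hσ e f).2 hef
  have hV : Nonempty V := by
    rw [← Fintype.card_pos_iff]; omega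
  obtain ⟨v⟩ := hV
  let N2 : Set V := {z | z ≠ v ∧ ∃ y, G.Adj v y ∧ G.Adj y z}
  let T0 : Set V := {v} ∪ G.neighborSet v ∪ N2
  let N3 : Set V := {u | u ∉ T0 ∧ ∃ z ∈ N2, G.Adj z u}
  have hT0v : v ∈ T0 := Or.inl (Or.inl rfl)
  have hT01 : ∀ y, G.Adj v y → y ∈ T0 := fun y hy => Or.inl (Or.inr hy)
  have hT02 : ∀ y, y ∈ N2 → y ∈ T0 := fun y hy => Or.inr hy
  have hN3 : ∀ u ∈ N3, ∀ r, G.Adj u r → r ∈ N2 := by
    rintro u ⟨hu, z, hz, hzu⟩ r hr
    by_cases hrz : r = z
    · rw [hrz]; exact hz
    obtain ⟨hzv, y, hvy, hyz⟩ := hz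
    let q : ℕ → V := fun j => if j = 0 then v else if j = 1 then y else if j = 2 then z
      else if j = 3 then u else r
    have hq : Arc G 4 q := by
      refine ⟨?_, ?_⟩
      · intro j hj
        interval_cases j
        · simpa [q] using hvy
        · simpa [q] using hyz
        · simpa [q] using hzu
        · simpa [q] using hr
      · intro j hj
        have hj' : j ≤ 2 := by omega
        interval_cases j
        · simpa [q] using hzv.symm
        · have : y ≠ u := by
            rintro rfl
            exact hu (hT01 _ hvy)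
          simpa [q] using this
        · simpa [q] using (Ne.symm hrz)
    obtain ⟨s, hs1, hs2⟩ := hcom q hq
    have hs1' : G.Adj v s := by simpa [q] using hs1
    have hs2' : G.Adj r s := by simpa [q] using hs2
    refine ⟨?_, s, hs1', hs2'.symm⟩
    rintro rfl
    exact hu (hT01 _ hr.symm)
  have hclosed : ∀ x ∈ T0 ∪ N3, ∀ w, G.Adj x w → w ∈ T0 ∪ N3 ∪ (∅ : Set V) := by
    intro x hx w hw
    rw [Set.union_empty]
    rcases hx with ((hx | hx) | hx) | hx
    · have : x = v := hx
      subst this
      exact Or.inl (hT01 _ hw)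
    · have hx' : G.Adj v x := hx
      by_cases hwv : w = v
      · rw [hwv]; exact Or.inl hT0v
      · exact Or.inl (hT02 _ ⟨hwv, x, hx', hw⟩)
    · by_cases hw0 : w ∈ T0
      · exact Or.inl hw0
      · exact Or.inr ⟨hw0, x, hx, hw⟩
    · exact Or.inl (hT02 _ (hN3 x hx w hw))
  have huniv := h3 ∅ (T0 ∪ N3) (by simp) ⟨v, Or.inl hT0v⟩ (by simp) hclosed
  rw [Set.union_empty] at huniv
  have hcard1 : Fintype.card V = (T0 ∪ N3).ncard := by
    rw [huniv, Set.ncard_univ, Nat.card_eq_fintype_card]
  have hcard2 : (T0 ∪ N3).ncard ≤ 1 + 3 + N2.ncard + N3.ncard := by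
    refine (Set.ncard_union_le _ _).trans ?_
    refine Nat.add_le_add_right ?_ _
    refine (Set.ncard_union_le _ _).trans ?_
    refine Nat.add_le_add_right ?_ _
    refine (Set.ncard_union_le _ _).trans ?_
    rw [Set.ncard_singleton, hc v]
  have hdiff : ∀ y x : V, G.Adj y x → (G.neighborSet y \ {x}).ncard = 2 := by
    intro y x hyx
    rw [Set.ncard_sdiff_singleton_of_mem (show x ∈ G.neighborSet y from hyx), hc y]
  have hN2card : N2.ncard ≤ 6 := by
    obtain ⟨y1, y2, y3, -, -, -, hy⟩ := nb3 hc v
    have hsub : N2 ⊆ ((G.neighborSet y1 \ {v}) ∪ (G.neighborSet y2 \ {v})) ∪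
        (G.neighborSet y3 \ {v}) := by
      rintro z ⟨hzv, y, hvy, hyz⟩
      rcases (hy y).1 hvy with rfl | rfl | rfl
      · exact Or.inl (Or.inl ⟨hyz, hzv⟩)
      · exact Or.inl (Or.inr ⟨hyz, hzv⟩)
      · exact Or.inr ⟨hyz, hzv⟩
    refine (Set.ncard_le_ncard hsub (Set.toFinite _)).trans ?_
    refine (Set.ncard_union_le _ _).trans ?_
    have h1 := Set.ncard_union_le (G.neighborSet y1 \ {v}) (G.neighborSet y2 \ {v})
    have e1 := hdiff y1 v ((hy y1).2 (Or.inl rfl)).symm
    have e2 := hdiff y2 v ((hy y2).2 (Or.inr (Or.inl rfl))).symm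
    have e3 := hdiff y3 v ((hy y3).2 (Or.inr (Or.inr rfl))).symm
    omega
  have hN3card : N3.ncard * 3 ≤ N2.ncard * 2 := by
    rw [Set.ncard_eq_toFinset_card' N3, Set.ncard_eq_toFinset_card' N2]
    refine Finset.card_mul_le_card_mul (fun u z => G.Adj u z) ?_ ?_
    · intro u hu
      rw [Set.mem_toFinset] at hu
      have h1 : (G.neighborSet u).toFinset ⊆ N2.toFinset.bipartiteAbove (fun u z => G.Adj u z) u := by
        intro z hz
        rw [Set.mem_toFinset] at hz
        rw [Finset.mem_bipartiteAbove, Set.mem_toFinset]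
        exact ⟨hN3 u hu z hz, hz⟩
      have h2 := Finset.card_le_card h1
      rw [← Set.ncard_eq_toFinset_card' (G.neighborSet u), hc u] at h2
      exact h2
    · intro z hz
      rw [Set.mem_toFinset] at hz
      obtain ⟨hzv, y, hvy, hyz⟩ := hz
      have h1 : N3.toFinset.bipartiteBelow (fun u z => G.Adj u z) z ⊆
          (G.neighborSet z \ {y}).toFinset := by
        intro u hu
        rw [Finset.mem_bipartiteBelow, Set.mem_toFinset] at hu
        rw [Set.mem_toFinset]
        refine ⟨hu.2.symm, ?_⟩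
        intro h
        have h' : u = y := h
        subst h'
        exact hu.1.1 (hT01 _ hvy)
      have h2 := Finset.card_le_card h1
      rw [← Set.ncard_eq_toFinset_card' (G.neighborSet z \ {y}), hdiff z y hyz.symm] at h2
      exact h2
  omega

end k17no6

end Pool.Agent.Helper613.Cub
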