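import Pool.Agent.Helper613.Cub.Base

set_option autoImplicit false


open scoped Classical

noncomputable section

namespace Pool.Agent.Helper613.Cub

namespace k20conn


variable {V : Type} [Fintype V] {G : SimpleGraph V} {K : Subgroup (Equiv.Perm V)} {x y w : V} {g : Equiv.Perm V}
lemma conn3_of {V : Type} [Fintype V] {G : SimpleGraph V}
    (h : ∀ S : Finset V, S.card ≤ 2 → (G.induce ((S : Set V)ᶜ)).Connected) : Conn3 G := by
  intro S C hS hC hdisj hcl
  obtain ⟨c, hc⟩ := hC
  rw [Set.eq_univ_iff_forall]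
  intro w
  by_contra hw
  have hwS : w ∉ S := fun h' => hw (Or.inr h')
  have hwC : w ∉ C := fun h' => hw (Or.inl h')
  have hcS : c ∉ S := fun h' => Set.disjoint_left.1 hdisj hc h'
  have hcard : S.toFinset.card ≤ 2 := by
    rw [← Set.ncard_eq_toFinset_card']
    exact hS
  have hconn := h S.toFinset hcard
  have hmem : ∀ x, x ∉ S → x ∈ ((S.toFinset : Set V)ᶜ) := by
    intro x hx
    rw [Set.coe_toFinset]
    exact hx
  have hmem' : ∀ x, x ∈ ((S.toFinset : Set V)ᶜ) → x ∉ S := by
    intro x hx
    rw [Set.coe_toFinset] at hx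
    exact hx
  have hr := hconn.preconnected ⟨c, hmem c hcS⟩ ⟨w, hmem w hwS⟩
  rw [SimpleGraph.reachable_iff_reflTransGen] at hr
  have key : ∀ z, Relation.ReflTransGen (G.induce ((S.toFinset : Set V)ᶜ)).Adj
      ⟨c, hmem c hcS⟩ z → (z : V) ∈ C := by
    intro z hz
    induction hz with
    | refl => exact hc
    | tail _ hab ih =>
      rename_i a b _
      have h1 : G.Adj (a : V) (b : V) := hab
      rcases hcl _ ih _ h1 with h2 | h2
      · exact h2
      · exact absurd h2 (hmem' _ b.2)
  exact hwC (key _ hr)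

end k20conn

end Pool.Agent.Helper613.Cub
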