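import Pool.Agent.Helper613.Cub.Base

set_option autoImplicit false


open scoped Classical

noncomputable section

namespace Pool.Agent.Helper613.Cub

namespace k21iso


variable {V : Type} [Fintype V] {G : SimpleGraph V} {K : Subgroup (Equiv.Perm V)} {x y w : V} {g : Equiv.Perm V}
lemma card_iso {V : Type} [Fintype V] {G : SimpleGraph V} : Nat.card (G ≃g G) = Nat.card (AutS G) := by
  refine Nat.card_congr
    { toFun := fun e => ⟨e.toEquiv, fun u v => e.map_rel_iff⟩
      invFun := fun σ => ⟨σ.1, fun {u v} => σ.2 u v⟩
      left_inv := fun e => ?_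
      right_inv := fun σ => ?_ }
  · rfl
  · rfl

end k21iso

end Pool.Agent.Helper613.Cub
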