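import Pool.Agent.Helper613.Cub.Base

set_option autoImplicit false


open scoped Classical

noncomputable section

namespace Pool.Agent.Helper613.Cub

namespace k22real


variable {V : Type} [Fintype V] {G : SimpleGraph V} {K : Subgroup (Equiv.Perm V)} {x y w : V} {g : Equiv.Perm V}
lemma real_of_nat {a n : ℕ} (h : a ^ 4 < n ^ 4 * 2 ^ n) : (a : ℝ) < (n : ℝ) * (2 : ℝ) ^ ((n : ℝ) / 4) := by
  have h1 : ((a : ℝ)) ^ 4 < (n : ℝ) ^ 4 * 2 ^ n := by exact_mod_cast h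
  have h2 : ((2 : ℝ) ^ ((n : ℝ) / 4)) ^ 4 = 2 ^ n := by
    rw [← Real.rpow_natCast, ← Real.rpow_mul (by norm_num)]
    rw [show (n : ℝ) / 4 * ((4 : ℕ) : ℝ) = (n : ℝ) by push_cast; ring, Real.rpow_natCast]
  have h3 : (0 : ℝ) ≤ (n : ℝ) * (2 : ℝ) ^ ((n : ℝ) / 4) := by positivity
  refine lt_of_pow_lt_pow_left₀ 4 h3 ?_
  rw [mul_pow, h2]
  exact h1

end k22real

end Pool.Agent.Helper613.Cub
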